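import Pool.Agent.H8.RG.Defs

set_option autoImplicit false

/-!
# A 2-form in odd dimension has a kernel vector
-/

namespace Pool.Agent.H8.RG

open Pool.Agent.H61.YP
open scoped BigOperators RealInnerProductSpace

variable {n : ℕ}

theorem exists_kernel (hn : Odd n) (ω : Form n 2) :
    ∃ ν : E n, ‖ν‖ = 1 ∧ ω.curryLeft ν = 0 := by
  let A : Matrix (Fin n) (Fin n) ℝ := fun i j => ω.curryLeft (e j) ![e i]
  have hskew : A.transpose = -A := by
    ext i j
    change ω.curryLeft (e i) ![e j] = - ω.curryLeft (e j) ![e i]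
    have h := curry_swap ω (e i) (e j)
    have h1 : ∀ x y : E n, ((ω.curryLeft x).curryLeft y) ![] = ω.curryLeft x ![y] := by
      intro x y
      rw [AlternatingMap.curryLeft_apply_apply]
    have h2 := congrArg (fun φ : Form n 0 => φ ![]) h
    simp only [AlternatingMap.neg_apply] at h2
    rw [h1, h1] at h2
    exact h2
  have hdet : A.det = 0 := by
    have h1 : A.det = (-1) ^ n * A.det := by
      conv_lhs => rw [← Matrix.det_transpose, hskew, Matrix.det_neg, Fintype.card_fin]
    rw [hn.neg_one_pow] at h1
    linarith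
  obtain ⟨v, hv0, hv⟩ := Matrix.exists_mulVec_eq_zero_iff.mpr hdet
  have hx : (vec v : E n) ≠ 0 := by
    intro h1
    apply hv0
    funext i
    have := congrArg (fun v : E n => v i) h1
    simpa using this
  have hker : ω.curryLeft (vec v) = 0 := by
    refine Module.Basis.ext_alternating (EuclideanSpace.basisFun (Fin n) ℝ).toBasis
      fun w _ => ?_
    have hb : ∀ i, (EuclideanSpace.basisFun (Fin n) ℝ).toBasis i = (e i : E n) := by
      intro i; simp [e]
    simp only [hb]
    have h2 : (fun k : Fin 1 => (e (w k) : E n)) = ![e (w 0)] := by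
      funext k
      have : k = 0 := Subsingleton.elim _ _
      subst this
      rfl
    rw [h2]
    let L : E n →ₗ[ℝ] ℝ :=
      { toFun := fun x => ω.curryLeft x ![e (w 0)]
        map_add' := fun x y => by rw [map_add]; rfl
        map_smul' := fun c x => by rw [map_smul]; rfl }
    have h3 : ω.curryLeft (vec v) ![e (w 0)] = ∑ j, v j * ω.curryLeft (e j) ![e (w 0)] :=
      CurvTensor.lin_sum L (vec v)
    rw [h3]
    have h4 := congrFun hv (w 0)
    simp only [Matrix.mulVec, dotProduct, Pi.zero_apply] at h4
    rw [AlternatingMap.zero_apply, ← h4]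
    refine Finset.sum_congr rfl fun j _ => ?_
    rw [mul_comm]
  have hne : 0 < ‖(vec v : E n)‖ := norm_pos_iff.mpr hx
  refine ⟨(‖(vec v : E n)‖)⁻¹ • vec v, ?_, ?_⟩
  · rw [norm_smul, norm_inv, norm_norm]
    field_simp
  · rw [map_smul, hker, smul_zero]

end Pool.Agent.H8.RG
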