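import Pool.Agent.H8.RG.Defs

set_option autoImplicit false

/-!
# Compactness: rigidity of the non-strict pinching gives a smaller constant

If the Weitzenböck curvature operator on `p`-forms is positive for all curvature tensors, not
zero, whose sectional curvatures are at least `scal / (n (n + 2))`, then it is positive under a
weaker pinching with a constant `δ < 1 / (n (n + 2))`.
-/

namespace Pool.Agent.H8.RG

open Pool.Agent.H61.YP
open scoped BigOperators RealInnerProductSpace
open Filter Topology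

variable {n : ℕ}

/-- component arrays of 4-linear forms -/
abbrev Arr (n : ℕ) := Fin n → Fin n → Fin n → Fin n → ℝ

/-- component arrays of `p`-linear forms -/
abbrev Cm (n p : ℕ) := (Fin p → Fin n) → ℝ

/-- the component array of an alternating form -/
noncomputable def cmp (n p : ℕ) : Form n p →ₗ[ℝ] Cm n p where
  toFun ω := fun J => ω (fun k => e (J k))
  map_add' ω ω' := by funext J; rfl
  map_smul' c ω := by funext J; rfl

lemma cmp_apply {p : ℕ} (ω : Form n p) (J : Fin p → Fin n) :
    cmp n p ω J = ω (fun k => e (J k)) := rfl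

/-- the quadratic form of the Weitzenböck curvature operator in components -/
noncomputable def wq {p : ℕ} (T : Arr n) (c : Cm n p) : ℝ :=
  ∑ I : Fin p → Fin n, ∑ a, ∑ i, ∑ b, ∑ m,
    -(T i (I a) (Function.update I a i b) m
      * c (Function.update (Function.update I a i) b m) * c I)

lemma upd_e {p : ℕ} (I : Fin p → Fin n) (a : Fin p) (i : Fin n) :
    Function.update (fun k => (e (I k) : E n)) a (e i)
      = fun k => e (Function.update I a i k) := by
  funext k
  by_cases h : k = a
  · subst h; simp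
  · simp [Function.update_of_ne h]

lemma weitzForm_wq {p : ℕ} (R : CurvTensor n) (ω : Form n p) :
    R.weitzForm ω = wq R.comp (cmp n p ω) := by
  unfold CurvTensor.weitzForm CurvTensor.weitz CurvTensor.act wq
  refine Finset.sum_congr rfl fun I _ => ?_
  rw [Finset.sum_mul]
  refine Finset.sum_congr rfl fun a _ => ?_
  rw [Finset.sum_mul]
  refine Finset.sum_congr rfl fun i _ => ?_
  rw [neg_mul, Finset.sum_mul, ← Finset.sum_neg_distrib]
  refine Finset.sum_congr rfl fun b _ => ?_
  rw [upd_e]
  unfold CurvTensor.op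
  rw [AlternatingMap.map_update_sum, Finset.sum_mul, ← Finset.sum_neg_distrib]
  refine Finset.sum_congr rfl fun m _ => ?_
  rw [AlternatingMap.map_update_smul, upd_e, smul_eq_mul]
  rfl

lemma wq_continuous (n p : ℕ) :
    Continuous (fun z : Arr n × Cm n p => wq z.1 z.2) := by
  unfold wq
  fun_prop

/-! ### bounds for the components -/

lemma sym_mid (W : CurvTensor n) (x v u : E n) : W.toFun x v u x = W.toFun x u v x := by
  rw [W.pair, W.anti, W.pair, W.anti, neg_neg, W.pair]

lemma abs_le_of_psd (W : CurvTensor n) (hW : ∀ x y : E n, 0 ≤ W.toFun x y y x) (x v u : E n) :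
    |W.toFun x v u x| ≤ (W.toFun x v v x + W.toFun x u u x) / 2 := by
  have hs := sym_mid W x v u
  have h1 := hW x (v + u)
  have h2 := hW x (v + (-1 : ℝ) • u)
  simp only [W.add_two, W.smul_two, W.add_three, W.smul_three] at h1 h2
  rw [abs_le]
  constructor <;> linarith

/-- the polarised form in the outer places -/
lemma polar (W : CurvTensor n) (x y v u : E n) :
    W.toFun x v u y + W.toFun y v u x
      = W.toFun (x + y) v u (x + y) - W.toFun x v u x - W.toFun y v u y := by
  simp only [W.add_left, W.add_four]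
  ring

lemma three_mul_eq (W : CurvTensor n) (x v u y : E n) :
    3 * W.toFun x v u y = (W.toFun x v u y + W.toFun y v u x)
      - (W.toFun x v y u + W.toFun u v y x) := by
  have h1 : W.toFun y v u x = W.toFun x u v y := by
    rw [W.pair, W.anti, W.pair, W.anti, neg_neg, W.pair]
  have h2 : W.toFun x v y u = - W.toFun x v u y := by
    rw [W.pair, W.anti, W.pair]
  have h3 : W.toFun u v y x = W.toFun x y v u := by
    rw [W.pair, W.anti, W.pair, W.anti, neg_neg, W.pair]
  have h4 := W.bianchi x v u y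
  have h5 : W.toFun v u x y = W.toFun x y v u := W.pair _ _ _ _
  have h6 : W.toFun u x v y = - W.toFun x u v y := W.anti _ _ _ _
  rw [h1, h2, h3]
  linarith

lemma diag_le (W : CurvTensor n) (hW : ∀ x y : E n, 0 ≤ W.toFun x y y x) (i j : Fin n) :
    W.toFun (e i) (e j) (e j) (e i) ≤ W.scal := by
  unfold CurvTensor.scal
  calc W.toFun (e i) (e j) (e j) (e i)
      ≤ ∑ j, W.toFun (e i) (e j) (e j) (e i) :=
        Finset.single_le_sum (f := fun j => W.toFun (e i) (e j) (e j) (e i))
          (fun j _ => hW _ _) (Finset.mem_univ j)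
    _ ≤ _ := Finset.single_le_sum
          (f := fun i => ∑ j, W.toFun (e i) (e j) (e j) (e i))
          (fun i _ => Finset.sum_nonneg fun j _ => hW _ _) (Finset.mem_univ i)

lemma swap_outer (W : CurvTensor n) (x v y : E n) : W.toFun x v v y = W.toFun v x y v := by
  rw [W.anti x v, W.pair, W.anti, W.pair, neg_neg]

/-- all components of a tensor with nonnegative sectional curvature -/
lemma comp_le (W : CurvTensor n) (hW : ∀ x y : E n, 0 ≤ W.toFun x y y x) (i j k l : Fin n) :
    |W.comp i j k l| ≤ 4 * W.scal := by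
  set D := W.scal with hD
  have hd : ∀ i j, W.toFun (e i) (e j) (e j) (e i) ≤ D := fun i j => diag_le W hW i j
  have hd0 : ∀ i j, 0 ≤ W.toFun (e i) (e j) (e j) (e i) := fun i j => hW _ _
  -- one outer vector
  have h1 : ∀ i j k : Fin n, |W.toFun (e i) (e j) (e k) (e i)| ≤ D := by
    intro i j k
    have := abs_le_of_psd W hW (e i) (e j) (e k)
    have h2 := hd i j
    have h3 := hd i k
    linarith
  -- sum of two outer vectors, diagonal
  have h2 : ∀ i l j : Fin n, W.toFun (e i + e l) (e j) (e j) (e i + e l) ≤ 4 * D := by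
    intro i l j
    have h3 := polar W (e i) (e l) (e j) (e j)
    have h4 : W.toFun (e i) (e j) (e j) (e l) ≤ D := by
      rw [swap_outer]
      exact (le_abs_self _).trans (h1 j i l)
    have h5 : W.toFun (e l) (e j) (e j) (e i) ≤ D := by
      rw [swap_outer]
      exact (le_abs_self _).trans (h1 j l i)
    have h6 := hd i j
    have h7 := hd l j
    linarith
  have h3 : ∀ i l j k : Fin n, |W.toFun (e i + e l) (e j) (e k) (e i + e l)| ≤ 4 * D := by
    intro i l j k
    have := abs_le_of_psd W hW (e i + e l) (e j) (e k)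
    have h4 := h2 i l j
    have h5 := h2 i l k
    linarith
  -- the polarised form
  have h4 : ∀ i l j k : Fin n,
      |W.toFun (e i) (e j) (e k) (e l) + W.toFun (e l) (e j) (e k) (e i)| ≤ 6 * D := by
    intro i l j k
    rw [polar]
    have a1 := abs_le.mp (h3 i l j k)
    have a2 := abs_le.mp (h1 i j k)
    have a3 := abs_le.mp (h1 l j k)
    rw [abs_le]
    constructor <;> linarith [a1.1, a1.2, a2.1, a2.2, a3.1, a3.2]
  have h5 := three_mul_eq W (e i) (e j) (e k) (e l)
  have a1 := abs_le.mp (h4 i l j k)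
  have a2 := abs_le.mp (h4 i k j l)
  unfold CurvTensor.comp
  rw [abs_le]
  constructor <;> linarith [a1.1, a1.2, a2.1, a2.2]

lemma resid_toFun (R : CurvTensor n) (k : ℝ) (x y z u : E n) :
    (resid R k).toFun x y z u = R.toFun x y z u - k * (⟪y, z⟫ * ⟪x, u⟫ - ⟪x, z⟫ * ⟪y, u⟫) := rfl

lemma resid_sec (R : CurvTensor n) (k : ℝ)
    (h : ∀ x y : E n, ‖x‖ = 1 → ‖y‖ = 1 → ⟪x, y⟫ = 0 → k ≤ R.toFun x y y x) (x y : E n) :
    0 ≤ (resid R k).toFun x y y x := by
  have h1 := R.sec_ext k h x y
  rw [resid_toFun, real_inner_self_eq_norm_sq, real_inner_self_eq_norm_sq,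
    real_inner_comm x y]
  nlinarith [h1, real_inner_comm x y]

lemma resid_scal (R : CurvTensor n) (k : ℝ) :
    (resid R k).scal = R.scal - k * ((n : ℝ) * (n - 1)) := by
  rw [CurvTensor.scal_eq, resid_comp, CurvTensor.scalA_wA, ← CurvTensor.scal_eq]

/-- components under normalised scalar curvature -/
lemma comp_bound (R : CurvTensor n) (hs : R.scal = 1)
    (h : ∀ x y : E n, ‖x‖ = 1 → ‖y‖ = 1 → ⟪x, y⟫ = 0 → -1 ≤ R.toFun x y y x)
    (i j k l : Fin n) : |R.comp i j k l| ≤ 4 * (1 + (n : ℝ) * n) + 2 := by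
  have h1 := comp_le (resid R (-1)) (resid_sec R (-1) h) i j k l
  rw [resid_scal, hs, resid_comp] at h1
  unfold CurvTensor.wA at h1
  have h2 : |dl j k * dl i l - dl i k * dl j l| ≤ 2 := by
    unfold dl
    split_ifs <;> norm_num
  have h3 := abs_le.mp h1
  have h4 := abs_le.mp h2
  have hn : (0 : ℝ) ≤ n := Nat.cast_nonneg n
  rw [abs_le]
  constructor <;> nlinarith [h3.1, h3.2, h4.1, h4.2]

/-! ### limits -/

lemma tendsto_toFun (R : ℕ → CurvTensor n) (T : Arr n)
    (h : Tendsto (fun m => (R m).comp) atTop (𝓝 T)) (x y z u : E n) :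
    Tendsto (fun m => (R m).toFun x y z u) atTop
      (𝓝 (∑ i, ∑ j, ∑ k, ∑ l, x i * y j * z k * u l * T i j k l)) := by
  have h1 : (fun m => (R m).toFun x y z u)
      = fun m => ∑ i, ∑ j, ∑ k, ∑ l, x i * y j * z k * u l * (R m).comp i j k l := by
    funext m; exact (R m).expand _ _ _ _
  rw [h1]
  have hc : Continuous (fun T : Arr n => ∑ i, ∑ j, ∑ k, ∑ l,
      x i * y j * z k * u l * T i j k l) := by fun_prop
  exact (hc.tendsto T).comp h

/-- the limit of curvature tensors -/
noncomputable def limT (R : ℕ → CurvTensor n) (T : Arr n)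
    (h : Tendsto (fun m => (R m).comp) atTop (𝓝 T)) : CurvTensor n where
  toFun x y z u := ∑ i, ∑ j, ∑ k, ∑ l, x i * y j * z k * u l * T i j k l
  add_left x x' y z u := by
    refine tendsto_nhds_unique (tendsto_toFun R T h (x + x') y z u) ?_
    simp_rw [fun m => (R m).add_left x x' y z u]
    exact (tendsto_toFun R T h x y z u).add (tendsto_toFun R T h x' y z u)
  smul_left a x y z u := by
    refine tendsto_nhds_unique (tendsto_toFun R T h (a • x) y z u) ?_
    simp_rw [fun m => (R m).smul_left a x y z u]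
    exact (tendsto_toFun R T h x y z u).const_mul a
  anti x y z u := by
    refine tendsto_nhds_unique (tendsto_toFun R T h x y z u) ?_
    simp_rw [fun m => (R m).anti x y z u]
    exact (tendsto_toFun R T h y x z u).neg
  pair x y z u := by
    refine tendsto_nhds_unique (tendsto_toFun R T h x y z u) ?_
    simp_rw [fun m => (R m).pair x y z u]
    exact tendsto_toFun R T h z u x y
  bianchi x y z u := by
    refine tendsto_nhds_unique (((tendsto_toFun R T h x y z u).add
      (tendsto_toFun R T h y z x u)).add (tendsto_toFun R T h z x y u)) ?_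
    simp_rw [fun m => (R m).bianchi x y z u]
    exact tendsto_const_nhds

lemma limT_tendsto (R : ℕ → CurvTensor n) (T : Arr n)
    (h : Tendsto (fun m => (R m).comp) atTop (𝓝 T)) (x y z u : E n) :
    Tendsto (fun m => (R m).toFun x y z u) atTop (𝓝 ((limT R T h).toFun x y z u)) :=
  tendsto_toFun R T h x y z u

lemma limT_comp (R : ℕ → CurvTensor n) (T : Arr n)
    (h : Tendsto (fun m => (R m).comp) atTop (𝓝 T)) : (limT R T h).comp = T := by
  funext i j k l
  refine tendsto_nhds_unique (limT_tendsto R T h (e i) (e j) (e k) (e l)) ?_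
  have hc : Continuous (fun T : Arr n => T i j k l) := by fun_prop
  exact (hc.tendsto T).comp h

/-! ### scaling -/

/-- a multiple of a curvature tensor -/
noncomputable def smulT (a : ℝ) (R : CurvTensor n) : CurvTensor n where
  toFun x y z u := a * R.toFun x y z u
  add_left x x' y z u := by rw [R.add_left]; ring
  smul_left b x y z u := by rw [R.smul_left]; ring
  anti x y z u := by rw [R.anti]; ring
  pair x y z u := by rw [R.pair]
  bianchi x y z u := by
    have := R.bianchi x y z u
    linear_combination a * this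

lemma smulT_scal (a : ℝ) (R : CurvTensor n) : (smulT a R).scal = a * R.scal := by
  unfold CurvTensor.scal smulT
  simp_rw [Finset.mul_sum]

lemma wq_smul {p : ℕ} (a b : ℝ) (T : Arr n) (c : Cm n p) :
    wq (fun i j k l => a * T i j k l) (fun J => b * c J) = a * (b * b) * wq T c := by
  unfold wq
  simp_rw [Finset.mul_sum]
  refine Finset.sum_congr rfl fun I _ => Finset.sum_congr rfl fun a' _ =>
    Finset.sum_congr rfl fun i _ => Finset.sum_congr rfl fun b' _ =>
    Finset.sum_congr rfl fun m _ => ?_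
  ring

lemma smulT_weitz {p : ℕ} (a b : ℝ) (R : CurvTensor n) (ω : Form n p) :
    (smulT a R).weitzForm (b • ω) = a * (b * b) * R.weitzForm ω := by
  rw [weitzForm_wq, weitzForm_wq, ← wq_smul]
  rfl

lemma ip_smul_smul {p : ℕ} (b : ℝ) (ω : Form n p) : ip (b • ω) (b • ω) = b * b * ip ω ω := by
  rw [ip_smul_left, ip_comm, ip_smul_left, mul_assoc]

lemma ip_cmp {p : ℕ} (ω : Form n p) : ip ω ω = ∑ J, cmp n p ω J * cmp n p ω J := rfl

/-- **Compactness.** -/
theorem exists_gap (n p : ℕ) (hp : 0 < p) (hpn : p < n)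
    (hrig : ∀ R : CurvTensor n, (∃ x y, R.toFun x y y x ≠ 0) →
      (∀ x y : E n, ‖x‖ = 1 → ‖y‖ = 1 → ⟪x, y⟫ = 0 →
        R.scal / (n * (n + 2)) ≤ R.toFun x y y x) →
      ∀ ω : Form n p, ω ≠ 0 → 0 < R.weitzForm ω) :
    ∃ δ : ℝ, δ < 1 / (n * (n + 2)) ∧ ∀ R : CurvTensor n, 0 < R.scal →
      (∀ x y : E n, ‖x‖ = 1 → ‖y‖ = 1 → ⟪x, y⟫ = 0 → δ * R.scal ≤ R.toFun x y y x) →
      ∀ ω : Form n p, ω ≠ 0 → 0 < R.weitzForm ω := by
  by_contra hcon
  push Not at hcon
  have hn : (0 : ℝ) < n := by
    have : 0 < n := by omega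
    exact_mod_cast this
  set κ : ℝ := 1 / (n * (n + 2)) with hκ
  have hκ0 : 0 < κ := by positivity
  have hδ : ∀ m : ℕ, κ - 1 / ((m : ℝ) + 1) < κ := fun m => by
    have : (0 : ℝ) < 1 / ((m : ℝ) + 1) := by positivity
    linarith
  -- counterexamples, normalised
  have hex : ∀ m : ℕ, ∃ (R : CurvTensor n) (ω : Form n p), R.scal = 1 ∧
      (∀ x y : E n, ‖x‖ = 1 → ‖y‖ = 1 → ⟪x, y⟫ = 0 →
        κ - 1 / ((m : ℝ) + 1) ≤ R.toFun x y y x) ∧ ip ω ω = 1 ∧ R.weitzForm ω ≤ 0 := by
    intro m
    obtain ⟨R, hR, hsec, ω, hω, hw⟩ := hcon _ (hδ m)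
    have hi := CurvTensor.ip_pos ω hω
    refine ⟨smulT (R.scal)⁻¹ R, (Real.sqrt (ip ω ω))⁻¹ • ω, ?_, ?_, ?_, ?_⟩
    · rw [smulT_scal, inv_mul_cancel₀ hR.ne']
    · intro x y hx hy hxy
      have h1 := hsec x y hx hy hxy
      have h2 := mul_le_mul_of_nonneg_left h1 (inv_nonneg.mpr hR.le)
      calc κ - 1 / ((m : ℝ) + 1) = (R.scal)⁻¹ * ((κ - 1 / ((m : ℝ) + 1)) * R.scal) := by
            field_simp
        _ ≤ _ := h2
    · rw [ip_smul_smul, ← mul_inv, Real.mul_self_sqrt hi.le, inv_mul_cancel₀ hi.ne']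
    · rw [smulT_weitz]
      refine mul_nonpos_of_nonneg_of_nonpos ?_ hw
      have : 0 ≤ (R.scal)⁻¹ := inv_nonneg.mpr hR.le
      exact mul_nonneg this (mul_self_nonneg _)
  choose R ω hR1 hR2 hω1 hw using hex
  -- bounded
  set B : ℝ := 4 * (1 + (n : ℝ) * n) + 2 with hB
  have hB0 : 0 ≤ B := by positivity
  have hmem : ∀ m, ((R m).comp, cmp n p (ω m)) ∈
      Metric.closedBall (0 : Arr n) B ×ˢ Metric.closedBall (0 : Cm n p) 1 := by
    intro m
    constructor
    · rw [mem_closedBall_zero_iff]
      have h1 : ∀ x y : E n, ‖x‖ = 1 → ‖y‖ = 1 → ⟪x, y⟫ = 0 → -1 ≤ (R m).toFun x y y x := by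
        intro x y hx hy hxy
        refine le_trans ?_ (hR2 m x y hx hy hxy)
        have : 1 / ((m : ℝ) + 1) ≤ 1 := by
          rw [div_le_one (by positivity)]
          linarith [(Nat.cast_nonneg m : (0 : ℝ) ≤ m)]
        linarith
      refine (pi_norm_le_iff_of_nonneg hB0).mpr fun i => (pi_norm_le_iff_of_nonneg hB0).mpr
        fun j => (pi_norm_le_iff_of_nonneg hB0).mpr fun k =>
        (pi_norm_le_iff_of_nonneg hB0).mpr fun l => ?_
      exact comp_bound (R m) (hR1 m) h1 i j k l
    · rw [mem_closedBall_zero_iff]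
      refine (pi_norm_le_iff_of_nonneg zero_le_one).mpr fun J => ?_
      have h1 : cmp n p (ω m) J * cmp n p (ω m) J ≤ ip (ω m) (ω m) := by
        rw [ip_cmp]
        exact Finset.single_le_sum (f := fun J => cmp n p (ω m) J * cmp n p (ω m) J)
          (fun J _ => mul_self_nonneg _) (Finset.mem_univ J)
      rw [hω1 m] at h1
      rw [Real.norm_eq_abs]
      exact abs_le_one_iff_mul_self_le_one.mpr h1
  have hK : IsCompact (Metric.closedBall (0 : Arr n) B ×ˢ Metric.closedBall (0 : Cm n p) 1) :=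
    (isCompact_closedBall _ _).prod (isCompact_closedBall _ _)
  obtain ⟨⟨T, c⟩, -, φ, hφ, hlim⟩ := hK.tendsto_subseq hmem
  have hlT : Tendsto (fun m => (R (φ m)).comp) atTop (𝓝 T) :=
    (continuous_fst.tendsto (T, c)).comp hlim
  have hlc : Tendsto (fun m => cmp n p (ω (φ m))) atTop (𝓝 c) :=
    (continuous_snd.tendsto (T, c)).comp hlim
  -- the limit form
  have hclosed : IsClosed ((LinearMap.range (cmp n p) : Submodule ℝ (Cm n p)) : Set (Cm n p)) :=
    Submodule.closed_of_finiteDimensional _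
  have hc : c ∈ ((LinearMap.range (cmp n p) : Submodule ℝ (Cm n p)) : Set (Cm n p)) :=
    hclosed.mem_of_tendsto hlc (Eventually.of_forall fun m => ⟨ω (φ m), rfl⟩)
  obtain ⟨ω', hω'⟩ := hc
  -- the limit tensor
  set R' : CurvTensor n := limT (fun m => R (φ m)) T hlT with hR'
  have hcomp : R'.comp = T := limT_comp _ _ _
  have hsec : ∀ x y : E n, ‖x‖ = 1 → ‖y‖ = 1 → ⟪x, y⟫ = 0 → κ ≤ R'.toFun x y y x := by
    intro x y hx hy hxy
    have h1 := limT_tendsto (fun m => R (φ m)) T hlT x y y x
    have h2 : Tendsto (fun m => κ - 1 / (((φ m : ℕ) : ℝ) + 1)) atTop (𝓝 (κ - 0)) :=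
      tendsto_const_nhds.sub
        ((tendsto_one_div_add_atTop_nhds_zero_nat).comp hφ.tendsto_atTop)
    rw [sub_zero] at h2
    exact le_of_tendsto_of_tendsto' h2 h1 fun m => hR2 (φ m) x y hx hy hxy
  have hscal : R'.scal = 1 := by
    have h1 : Tendsto (fun m => (R (φ m)).scal) atTop (𝓝 R'.scal) := by
      unfold CurvTensor.scal
      exact tendsto_finsetSum _ fun i _ => tendsto_finsetSum _ fun j _ =>
        limT_tendsto (fun m => R (φ m)) T hlT _ _ _ _
    refine tendsto_nhds_unique h1 ?_
    simp_rw [hR1]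
    exact tendsto_const_nhds
  have hip : ip ω' ω' = 1 := by
    rw [ip_cmp, hω']
    have hcont : Continuous (fun c : Cm n p => ∑ J, c J * c J) := by fun_prop
    refine tendsto_nhds_unique ((hcont.tendsto c).comp hlc) ?_
    have : ((fun c : Cm n p => ∑ J, c J * c J) ∘ fun m => cmp n p (ω (φ m)))
        = fun _ => (1 : ℝ) := by
      funext m
      exact hω1 (φ m)
    rw [this]
    exact tendsto_const_nhds
  have hwle : R'.weitzForm ω' ≤ 0 := by
    rw [weitzForm_wq, hcomp, hω']
    refine le_of_tendsto (((wq_continuous n p).tendsto (T, c)).comp hlim)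
      (Eventually.of_forall fun m => ?_)
    have := hw (φ m)
    rw [weitzForm_wq] at this
    exact this
  have hne : ω' ≠ 0 := by
    intro h0
    rw [h0] at hip
    simp [ip] at hip
  have hxy : ∃ x y, R'.toFun x y y x ≠ 0 := by
    by_contra h0
    push Not at h0
    have : R'.scal = 0 := by
      unfold CurvTensor.scal
      exact Finset.sum_eq_zero fun i _ => Finset.sum_eq_zero fun j _ => h0 _ _
    rw [hscal] at this
    exact one_ne_zero this
  have hpos := hrig R' hxy (by rw [hscal]; exact hsec) ω' hne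
  linarith

end Pool.Agent.H8.RG
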