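import Pool.Agent.H8.RG.Final
import Pool.Agent.H8.RG.Cpt

set_option autoImplicit false

/-!
# Almost rigidity, by compactness
-/

namespace Pool.Agent.H8.RG

open Pool.Agent.H61.YP
open scoped BigOperators RealInnerProductSpace
open Filter Topology

variable {n : ℕ}

lemma isCP_smul {S : CurvTensor n} {a : ℝ} (ha : 0 < a) (hS : IsCP S) : IsCP (smulT a S) := by
  obtain ⟨k, J, hk, hJ, hJo, h⟩ := hS
  refine ⟨a * k, J, mul_pos ha hk, hJ, hJo, fun x y z u => ?_⟩
  change a * S.toFun x y z u = _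
  rw [h]
  ring

/-- the difference of two tensors from the difference of the components -/
lemma sub_le_of_comp (R S : CurvTensor n) (r : ℝ) (hr : 0 ≤ r)
    (h : ∀ i j k l, |R.comp i j k l - S.comp i j k l| ≤ r) (x y z u : E n) :
    |R.toFun x y z u - S.toFun x y z u|
      ≤ ((n : ℝ) * (n * (n * (n * r)))) * (‖x‖ * ‖y‖ * ‖z‖ * ‖u‖) := by
  rw [R.expand, S.expand]
  have h1 : (∑ i, ∑ j, ∑ k, ∑ l, x i * y j * z k * u l * R.comp i j k l)
      - (∑ i, ∑ j, ∑ k, ∑ l, x i * y j * z k * u l * S.comp i j k l)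
      = ∑ i, ∑ j, ∑ k, ∑ l, x i * y j * z k * u l * (R.comp i j k l - S.comp i j k l) := by
    simp only [← Finset.sum_sub_distrib, mul_sub]
  rw [h1]
  set N : ℝ := ‖x‖ * ‖y‖ * ‖z‖ * ‖u‖ with hN
  have hN0 : 0 ≤ N := by positivity
  have hc : ∀ (v : E n) (i : Fin n), |v i| ≤ ‖v‖ := fun v i => by
    have := PiLp.norm_apply_le v i
    rwa [Real.norm_eq_abs] at this
  have hterm : ∀ i j k l : Fin n,
      |x i * y j * z k * u l * (R.comp i j k l - S.comp i j k l)| ≤ r * N := by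
    intro i j k l
    rw [abs_mul, abs_mul, abs_mul, abs_mul, mul_comm]
    refine mul_le_mul (h i j k l) ?_ (by positivity) hr
    rw [hN]
    exact mul_le_mul (mul_le_mul (mul_le_mul (hc x i) (hc y j) (abs_nonneg _) (norm_nonneg _))
      (hc z k) (abs_nonneg _) (by positivity)) (hc u l) (abs_nonneg _) (by positivity)
  have hs : ∀ (f : Fin n → ℝ) (b : ℝ), (∀ i, |f i| ≤ b) → |∑ i, f i| ≤ n * b := by
    intro f b hf
    refine (Finset.abs_sum_le_sum_abs _ _).trans ?_
    refine (Finset.sum_le_sum fun i _ => hf i).trans ?_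
    simp
  have h2 := hs _ _ fun i => hs _ _ fun j => hs _ _ fun k => hs _ _ fun l => hterm i j k l
  refine h2.trans (le_of_eq ?_)
  ring

/-- **Almost rigidity.** -/
theorem almost_rigid (n p : ℕ) (hp : 0 < p) (hpn : p < n) (ε : ℝ) (hε : 0 < ε) :
    ∃ δ : ℝ, δ < 1 / (n * (n + 2)) ∧ ∀ R : CurvTensor n, 0 < R.scal →
      (∀ x y : E n, ‖x‖ = 1 → ‖y‖ = 1 → ⟪x, y⟫ = 0 → δ * R.scal ≤ R.toFun x y y x) →
      (∃ ω : Form n p, ω ≠ 0 ∧ R.weitzForm ω ≤ 0) →
      Even n ∧ Even p ∧ ∃ S : CurvTensor n, IsCP S ∧ ∀ x y z u : E n,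
        |R.toFun x y z u - S.toFun x y z u| ≤ ε * R.scal * (‖x‖ * ‖y‖ * ‖z‖ * ‖u‖) := by
  by_contra hcon
  push Not at hcon
  have hn : (0 : ℝ) < n := by
    have : 0 < n := by omega
    exact_mod_cast this
  set κ : ℝ := 1 / (n * (n + 2)) with hκ
  have hκ0 : 0 < κ := by positivity
  have hδ : ∀ m : ℕ, κ - 1 / ((m : ℝ) + 1) < κ := fun m => by
    have : (0 : ℝ) < 1 / ((m : ℝ) + 1) := by positivity
    linarith
  -- counterexamples, normalised
  have hex : ∀ m : ℕ, ∃ (R : CurvTensor n) (ω : Form n p), R.scal = 1 ∧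
      (∀ x y : E n, ‖x‖ = 1 → ‖y‖ = 1 → ⟪x, y⟫ = 0 →
        κ - 1 / ((m : ℝ) + 1) ≤ R.toFun x y y x) ∧ ip ω ω = 1 ∧ R.weitzForm ω ≤ 0 ∧
      (Even n → Even p → ∀ S : CurvTensor n, IsCP S → ∃ x y z u : E n,
        ε * (‖x‖ * ‖y‖ * ‖z‖ * ‖u‖) < |R.toFun x y z u - S.toFun x y z u|) := by
    intro m
    obtain ⟨R, hR, hsec, ⟨ω, hω, hw⟩, hfar⟩ := hcon _ (hδ m)
    have hi := CurvTensor.ip_pos ω hω
    refine ⟨smulT (R.scal)⁻¹ R, (Real.sqrt (ip ω ω))⁻¹ • ω, ?_, ?_, ?_, ?_, ?_⟩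
    · rw [smulT_scal, inv_mul_cancel₀ hR.ne']
    · intro x y hx hy hxy
      have h1 := hsec x y hx hy hxy
      have h2 := mul_le_mul_of_nonneg_left h1 (inv_nonneg.mpr hR.le)
      calc κ - 1 / ((m : ℝ) + 1) = (R.scal)⁻¹ * ((κ - 1 / ((m : ℝ) + 1)) * R.scal) := by
            field_simp
        _ ≤ _ := h2
    · rw [ip_smul_smul, ← mul_inv, Real.mul_self_sqrt hi.le, inv_mul_cancel₀ hi.ne']
    · rw [smulT_weitz]
      refine mul_nonpos_of_nonneg_of_nonpos ?_ hw
      have : 0 ≤ (R.scal)⁻¹ := inv_nonneg.mpr hR.le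
      exact mul_nonneg this (mul_self_nonneg _)
    · intro h1 h2 S hS
      obtain ⟨x, y, z, u, h3⟩ := hfar h1 h2 (smulT R.scal S) (isCP_smul hR hS)
      refine ⟨x, y, z, u, ?_⟩
      change ε * R.scal * (‖x‖ * ‖y‖ * ‖z‖ * ‖u‖)
        < |R.toFun x y z u - R.scal * S.toFun x y z u| at h3
      change _ < |(R.scal)⁻¹ * R.toFun x y z u - S.toFun x y z u|
      have h4 : R.toFun x y z u - R.scal * S.toFun x y z u
          = R.scal * ((R.scal)⁻¹ * R.toFun x y z u - S.toFun x y z u) := by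
        field_simp
      rw [h4, abs_mul, abs_of_pos hR] at h3
      have h5 : R.scal * (ε * (‖x‖ * ‖y‖ * ‖z‖ * ‖u‖))
          < R.scal * |(R.scal)⁻¹ * R.toFun x y z u - S.toFun x y z u| := by
        linarith
      exact lt_of_mul_lt_mul_left h5 hR.le
  choose R ω hR1 hR2 hω1 hw hfar using hex
  -- bounded
  set B : ℝ := 4 * (1 + (n : ℝ) * n) + 2 with hB
  have hB0 : 0 ≤ B := by positivity
  have hmem : ∀ m, ((R m).comp, cmp n p (ω m)) ∈
      Metric.closedBall (0 : Arr n) B ×ˢ Metric.closedBall (0 : Cm n p) 1 := by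
    intro m
    constructor
    · rw [mem_closedBall_zero_iff]
      have h1 : ∀ x y : E n, ‖x‖ = 1 → ‖y‖ = 1 → ⟪x, y⟫ = 0 → -1 ≤ (R m).toFun x y y x := by
        intro x y hx hy hxy
        refine le_trans ?_ (hR2 m x y hx hy hxy)
        have : 1 / ((m : ℝ) + 1) ≤ 1 := by
          rw [div_le_one (by positivity)]
          linarith [(Nat.cast_nonneg m : (0 : ℝ) ≤ m)]
        linarith
      refine (pi_norm_le_iff_of_nonneg hB0).mpr fun i => (pi_norm_le_iff_of_nonneg hB0).mpr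
        fun j => (pi_norm_le_iff_of_nonneg hB0).mpr fun k =>
        (pi_norm_le_iff_of_nonneg hB0).mpr fun l => ?_
      exact comp_bound (R m) (hR1 m) h1 i j k l
    · rw [mem_closedBall_zero_iff]
      refine (pi_norm_le_iff_of_nonneg zero_le_one).mpr fun J => ?_
      have h1 : cmp n p (ω m) J * cmp n p (ω m) J ≤ ip (ω m) (ω m) := by
        rw [ip_cmp]
        exact Finset.single_le_sum (f := fun J => cmp n p (ω m) J * cmp n p (ω m) J)
          (fun J _ => mul_self_nonneg _) (Finset.mem_univ J)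
      rw [hω1 m] at h1
      rw [Real.norm_eq_abs]
      exact abs_le_one_iff_mul_self_le_one.mpr h1
  have hK : IsCompact (Metric.closedBall (0 : Arr n) B ×ˢ Metric.closedBall (0 : Cm n p) 1) :=
    (isCompact_closedBall _ _).prod (isCompact_closedBall _ _)
  obtain ⟨⟨T, c⟩, -, φ, hφ, hlim⟩ := hK.tendsto_subseq hmem
  have hlT : Tendsto (fun m => (R (φ m)).comp) atTop (𝓝 T) :=
    (continuous_fst.tendsto (T, c)).comp hlim
  have hlc : Tendsto (fun m => cmp n p (ω (φ m))) atTop (𝓝 c) :=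
    (continuous_snd.tendsto (T, c)).comp hlim
  -- the limit form
  have hclosed : IsClosed ((LinearMap.range (cmp n p) : Submodule ℝ (Cm n p)) : Set (Cm n p)) :=
    Submodule.closed_of_finiteDimensional _
  have hc : c ∈ ((LinearMap.range (cmp n p) : Submodule ℝ (Cm n p)) : Set (Cm n p)) :=
    hclosed.mem_of_tendsto hlc (Eventually.of_forall fun m => ⟨ω (φ m), rfl⟩)
  obtain ⟨ω', hω'⟩ := hc
  -- the limit tensor
  set R' : CurvTensor n := limT (fun m => R (φ m)) T hlT with hR'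
  have hcomp : R'.comp = T := limT_comp _ _ _
  have hsec : ∀ x y : E n, ‖x‖ = 1 → ‖y‖ = 1 → ⟪x, y⟫ = 0 → κ ≤ R'.toFun x y y x := by
    intro x y hx hy hxy
    have h1 := limT_tendsto (fun m => R (φ m)) T hlT x y y x
    have h2 : Tendsto (fun m => κ - 1 / (((φ m : ℕ) : ℝ) + 1)) atTop (𝓝 (κ - 0)) :=
      tendsto_const_nhds.sub
        ((tendsto_one_div_add_atTop_nhds_zero_nat).comp hφ.tendsto_atTop)
    rw [sub_zero] at h2
    exact le_of_tendsto_of_tendsto' h2 h1 fun m => hR2 (φ m) x y hx hy hxy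
  have hscal : R'.scal = 1 := by
    have h1 : Tendsto (fun m => (R (φ m)).scal) atTop (𝓝 R'.scal) := by
      unfold CurvTensor.scal
      exact tendsto_finsetSum _ fun i _ => tendsto_finsetSum _ fun j _ =>
        limT_tendsto (fun m => R (φ m)) T hlT _ _ _ _
    refine tendsto_nhds_unique h1 ?_
    simp_rw [hR1]
    exact tendsto_const_nhds
  have hip : ip ω' ω' = 1 := by
    rw [ip_cmp, hω']
    have hcont : Continuous (fun c : Cm n p => ∑ J, c J * c J) := by fun_prop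
    refine tendsto_nhds_unique ((hcont.tendsto c).comp hlc) ?_
    have : ((fun c : Cm n p => ∑ J, c J * c J) ∘ fun m => cmp n p (ω (φ m)))
        = fun _ => (1 : ℝ) := by
      funext m
      exact hω1 (φ m)
    rw [this]
    exact tendsto_const_nhds
  have hwle : R'.weitzForm ω' ≤ 0 := by
    rw [weitzForm_wq, hcomp, hω']
    refine le_of_tendsto (((wq_continuous n p).tendsto (T, c)).comp hlim)
      (Eventually.of_forall fun m => ?_)
    have := hw (φ m)
    rw [weitzForm_wq] at this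
    exact this
  have hne : ω' ≠ 0 := by
    intro h0
    rw [h0] at hip
    simp [ip] at hip
  have hxy : ∃ x y, R'.toFun x y y x ≠ 0 := by
    by_contra h0
    push Not at h0
    have : R'.scal = 0 := by
      unfold CurvTensor.scal
      exact Finset.sum_eq_zero fun i _ => Finset.sum_eq_zero fun j _ => h0 _ _
    rw [hscal] at this
    exact one_ne_zero this
  obtain ⟨hn2, hp2, hCP⟩ := rigid n p hp hpn R' (by
    obtain ⟨x, y, h⟩ := hxy
    exact ⟨x, y, y, x, h⟩) (by rw [hscal]; exact hsec) ⟨ω', hne, hwle⟩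
  -- convergence of the components
  set r : ℝ := ε / (n * (n * (n * n))) with hr
  have hr0 : 0 < r := by positivity
  have hclose : ∀ᶠ m in atTop, ∀ i j k l : Fin n,
      |(R (φ m)).comp i j k l - R'.comp i j k l| ≤ r := by
    have h1 : ∀ᶠ m in atTop, dist (R (φ m)).comp T < r :=
      (Metric.tendsto_nhds.mp hlT) r hr0
    filter_upwards [h1] with m hm i j k l
    rw [hcomp, ← Real.dist_eq]
    refine le_trans ?_ hm.le
    exact ((dist_le_pi_dist _ _ l).trans (dist_le_pi_dist _ _ k)).trans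
      ((dist_le_pi_dist _ _ j).trans (dist_le_pi_dist _ _ i))
  obtain ⟨m, hm⟩ := hclose.exists
  obtain ⟨x, y, z, u, hlt⟩ := hfar (φ m) hn2 hp2 R' hCP
  have h1 := sub_le_of_comp (R (φ m)) R' r hr0.le hm x y z u
  have h2 : (n : ℝ) * (n * (n * (n * r))) = ε := by
    rw [hr]; field_simp
  rw [h2] at h1
  exact absurd hlt (not_lt.mpr h1)

end Pool.Agent.H8.RG
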