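import Pool.Agent.H61.YP.Weitz

set_option autoImplicit false

/-!
# Words for the statements on the scalar normalised pinching
-/

namespace Pool.Agent.H8.RG

open Pool.Agent.H61.YP
open scoped RealInnerProductSpace

variable {n : ℕ}

/-- all sectional curvatures are at least `c` -/
def SecGe (R : CurvTensor n) (c : ℝ) : Prop :=
  ∀ x y : E n, ‖x‖ = 1 → ‖y‖ = 1 → ⟪x, y⟫ = 0 → c ≤ R.toFun x y y x

/-- all sectional curvatures are larger than `c` -/
def SecGt (R : CurvTensor n) (c : ℝ) : Prop :=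
  ∀ x y : E n, ‖x‖ = 1 → ‖y‖ = 1 → ⟪x, y⟫ = 0 → c < R.toFun x y y x

/-- the Weitzenböck curvature operator on `p`-forms is not positive definite -/
def NotPos (R : CurvTensor n) (p : ℕ) : Prop :=
  ∃ ω : Form n p, ω ≠ 0 ∧ R.weitzForm ω ≤ 0

/-- the 4-linear form of the curvature tensor of `ℂP^(n/2)`, `J` the complex structure -/
noncomputable def cpForm (J : E n →ₗ[ℝ] E n) (x y z u : E n) : ℝ :=
  ⟪y, z⟫ * ⟪x, u⟫ - ⟪x, z⟫ * ⟪y, u⟫ + ⟪J y, z⟫ * ⟪J x, u⟫ - ⟪J x, z⟫ * ⟪J y, u⟫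
    + 2 * (⟪x, J y⟫ * ⟪J z, u⟫)

/-- `R` is a positive multiple of the curvature tensor of the Fubini–Study metric of
`ℂP^(n/2)`, for some orthogonal complex structure `J` of `ℝⁿ`. -/
def IsCP (R : CurvTensor n) : Prop :=
  ∃ (k : ℝ) (J : E n →ₗ[ℝ] E n), 0 < k ∧ (∀ x, J (J x) = -x) ∧
    (∀ x y : E n, ⟪J x, J y⟫ = ⟪x, y⟫) ∧
    ∀ x y z u : E n, R.toFun x y z u = k * cpForm J x y z u

/-- the difference of two curvature tensors is at most `r` on unit vectors -/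
def Close (R S : CurvTensor n) (r : ℝ) : Prop :=
  ∀ x y z u : E n, |R.toFun x y z u - S.toFun x y z u| ≤ r * (‖x‖ * ‖y‖ * ‖z‖ * ‖u‖)

end Pool.Agent.H8.RG
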