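import Pool.Agent.H8.RG.Cplx

set_option autoImplicit false

/-!
# Module ConvB: powers of the Kähler form
-/

namespace Pool.Agent.H8.RG

open Pool.Agent.H61.YP
open scoped BigOperators RealInnerProductSpace

variable {n : ℕ}

/-- product of the factors `⟪J v(i,false), v(i,true)⟫` -/
noncomputable def Conv_F (J : E n →ₗ[ℝ] E n) {q : ℕ} (v : Fin q × Bool → E n) (i : Fin q) : ℝ :=
  ⟪J (v (i, false)), v (i, true)⟫

theorem Conv_F_update (J : E n →ₗ[ℝ] E n) {q : ℕ} (v : Fin q × Bool → E n) (i : Fin q) (s : Bool)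
    (x : E n) :
    ∏ j, Conv_F J (Function.update v (i, s) x) j =
      Conv_F J (Function.update v (i, s) x) i * ∏ j ∈ Finset.univ.erase i, Conv_F J v j := by
  rw [← Finset.mul_prod_erase Finset.univ _ (Finset.mem_univ i)]
  congr 1
  refine Finset.prod_congr rfl fun j hj => ?_
  have hji : j ≠ i := (Finset.mem_erase.1 hj).1
  unfold Conv_F
  rw [Function.update_of_ne (fun h => hji (congrArg Prod.fst h)),
    Function.update_of_ne (fun h => hji (congrArg Prod.fst h))]

theorem Conv_F_false (J : E n →ₗ[ℝ] E n) {q : ℕ} (v : Fin q × Bool → E n) (i : Fin q) (x : E n) :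
    Conv_F J (Function.update v (i, false) x) i = ⟪J x, v (i, true)⟫ := by
  unfold Conv_F
  rw [Function.update_self, Function.update_of_ne (by simp)]

theorem Conv_F_true (J : E n →ₗ[ℝ] E n) {q : ℕ} (v : Fin q × Bool → E n) (i : Fin q) (x : E n) :
    Conv_F J (Function.update v (i, true) x) i = ⟪J (v (i, false)), x⟫ := by
  unfold Conv_F
  rw [Function.update_self, Function.update_of_ne (by simp)]

/-- the product as a multilinear map -/
noncomputable def Conv_m (J : E n →ₗ[ℝ] E n) (q : ℕ) :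
    MultilinearMap ℝ (fun _ : Fin q × Bool => E n) ℝ :=
  MultilinearMap.mk' (fun v => ∏ i, Conv_F J v i)
    (by
      rintro v ⟨i, s⟩ x y
      rw [Conv_F_update, Conv_F_update, Conv_F_update, ← add_mul]
      congr 1
      cases s
      · rw [Conv_F_false, Conv_F_false, Conv_F_false, map_add, inner_add_left]
      · rw [Conv_F_true, Conv_F_true, Conv_F_true, inner_add_right])
    (by
      rintro v ⟨i, s⟩ c x
      rw [Conv_F_update, Conv_F_update, smul_eq_mul, ← mul_assoc]
      congr 1
      cases s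
      · rw [Conv_F_false, Conv_F_false, map_smul, real_inner_smul_left]
      · rw [Conv_F_true, Conv_F_true, real_inner_smul_right])

theorem Conv_m_apply (J : E n →ₗ[ℝ] E n) (q : ℕ) (v : Fin q × Bool → E n) :
    Conv_m J q v = ∏ i, Conv_F J v i := rfl

/-- a skew derivation kills the product -/
theorem Conv_m_deriv (J : E n →ₗ[ℝ] E n) (q : ℕ) (g : E n → E n)
    (hg : ∀ z u : E n, ⟪J (g z), u⟫ + ⟪J z, g u⟫ = 0) (v : Fin q × Bool → E n) :
    ∑ b, Conv_m J q (Function.update v b (g (v b))) = 0 := by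
  rw [Fintype.sum_prod_type]
  refine Finset.sum_eq_zero fun i _ => ?_
  rw [Fintype.sum_bool, Conv_m_apply, Conv_m_apply, Conv_F_update, Conv_F_update, Conv_F_false,
    Conv_F_true, ← add_mul, add_comm ⟪J (v (i, false)), _⟫, hg, zero_mul]

/-- the alternating form -/
noncomputable def Conv_alt (J : E n →ₗ[ℝ] E n) (q : ℕ) : (E n) [⋀^Fin q × Bool]→ₗ[ℝ] ℝ :=
  MultilinearMap.alternatization (Conv_m J q)

theorem Conv_alt_apply (J : E n →ₗ[ℝ] E n) (q : ℕ) (v : Fin q × Bool → E n) :
    Conv_alt J q v = ∑ σ : Equiv.Perm (Fin q × Bool),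
      ((Equiv.Perm.sign σ : ℤ) : ℝ) * ∏ i, Conv_F J (fun a => v (σ a)) i := by
  unfold Conv_alt
  rw [MultilinearMap.alternatization_apply]
  refine Finset.sum_congr rfl fun σ _ => ?_
  rw [Units.smul_def, zsmul_eq_mul]
  rfl

theorem Conv_alt_deriv (J : E n →ₗ[ℝ] E n) (q : ℕ) (g : E n → E n)
    (hg : ∀ z u : E n, ⟪J (g z), u⟫ + ⟪J z, g u⟫ = 0) (v : Fin q × Bool → E n) :
    ∑ b, Conv_alt J q (Function.update v b (g (v b))) = 0 := by
  simp_rw [Conv_alt_apply]
  rw [Finset.sum_comm]
  refine Finset.sum_eq_zero fun σ _ => ?_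
  rw [← Finset.mul_sum]
  have h1 := Conv_m_deriv J q g hg (fun a => v (σ a))
  have h2 : ∑ b, ∏ i, Conv_F J (fun a => Function.update v b (g (v b)) (σ a)) i =
      ∑ b, Conv_m J q (Function.update (fun a => v (σ a)) b (g (v (σ b)))) := by
    rw [← Equiv.sum_comp σ]
    refine Finset.sum_congr rfl fun b _ => ?_
    rw [Conv_m_apply]
    congr 1
    funext i
    congr 1
    funext a
    by_cases hab : a = b
    · subst hab
      rw [Function.update_self, Function.update_self]
    · rw [Function.update_of_ne hab, Function.update_of_ne (fun h => hab (σ.injective h))]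
  rw [h2, h1, mul_zero]

/-- `2 q` orthonormal vectors `u_i, J u_i` -/
theorem Conv_frame (J : E n →ₗ[ℝ] E n) (hJ : ∀ x, J (J x) = -x)
    (hJo : ∀ x y : E n, ⟪J x, J y⟫ = ⟪x, y⟫) : ∀ q : ℕ, 2 * q ≤ n → ∃ u : Fin q → E n,
      (∀ i j, ⟪u i, u j⟫ = if i = j then 1 else 0) ∧ ∀ i j, ⟪J (u i), u j⟫ = 0 := by
  have skew : ∀ x y : E n, ⟪J x, y⟫ = - ⟪x, J y⟫ := fun x y => by
    rw [← hJo (J x) y, hJ, inner_neg_left]
  have skew0 : ∀ x : E n, ⟪J x, x⟫ = 0 := fun x => by
    have h1 := skew x x
    rw [real_inner_comm] at h1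
    have h2 := real_inner_comm x (J x)
    linarith
  intro q
  induction q with
  | zero => exact fun _ => ⟨fun i => i.elim0, fun i => i.elim0, fun i => i.elim0⟩
  | succ q ih =>
    intro hq
    obtain ⟨u, hu, hu'⟩ := ih (by omega)
    obtain ⟨x, hx1, hxu, hxJ⟩ : ∃ x : E n, ‖x‖ = 1 ∧ (∀ i, ⟪u i, x⟫ = 0) ∧
        ∀ i, ⟪J (u i), x⟫ = 0 := by
      let w : Fin q × Bool → E n := fun a => if a.2 then J (u a.1) else u a.1
      let S : Submodule ℝ (E n) := Submodule.span ℝ (Set.range w)
      have hS : Module.finrank ℝ S ≤ Fintype.card (Fin q × Bool) := finrank_range_le_card w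
      have hS' : Sᗮ ≠ ⊥ := fun h => by
        rw [Submodule.orthogonal_eq_bot_iff] at h
        rw [h, finrank_top, finrank_euclideanSpace, Fintype.card_fin, Fintype.card_prod,
          Fintype.card_fin, Fintype.card_bool] at hS
        omega
      obtain ⟨y, hy, hy0⟩ := Submodule.exists_mem_ne_zero_of_ne_bot hS'
      have hyw : ∀ a, ⟪w a, y⟫ = 0 := fun a => by
        have ha : w a ∈ S := Submodule.subset_span ⟨a, rfl⟩
        exact Submodule.inner_right_of_mem_orthogonal ha hy
      have hyu : ∀ i, ⟪u i, y⟫ = 0 := fun i => hyw (i, false)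
      have hyJ : ∀ i, ⟪J (u i), y⟫ = 0 := fun i => hyw (i, true)
      refine ⟨(‖y‖)⁻¹ • y, ?_, fun i => ?_, fun i => ?_⟩
      · have : ‖y‖ ≠ 0 := norm_ne_zero_iff.2 hy0
        rw [norm_smul, norm_inv, norm_norm, inv_mul_cancel₀ this]
      · rw [real_inner_smul_right, hyu, mul_zero]
      · rw [real_inner_smul_right, hyJ, mul_zero]
    refine ⟨Fin.snoc u x, fun i j => ?_, fun i j => ?_⟩
    · refine Fin.lastCases ?_ (fun i => ?_) i <;> refine Fin.lastCases ?_ (fun j => ?_) j
      · simp [hx1]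
      · rw [Fin.snoc_last, Fin.snoc_castSucc, real_inner_comm, hxu, if_neg]
        exact (Fin.castSucc_lt_last j).ne'
      · rw [Fin.snoc_last, Fin.snoc_castSucc, hxu, if_neg]
        exact (Fin.castSucc_lt_last i).ne
      · rw [Fin.snoc_castSucc, Fin.snoc_castSucc, hu]
        simp
    · refine Fin.lastCases ?_ (fun i => ?_) i <;> refine Fin.lastCases ?_ (fun j => ?_) j
      · rw [Fin.snoc_last, skew0]
      · rw [Fin.snoc_last, Fin.snoc_castSucc, skew, real_inner_comm, hxJ, neg_zero]
      · rw [Fin.snoc_last, Fin.snoc_castSucc, hxJ]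
      · rw [Fin.snoc_castSucc, Fin.snoc_castSucc, hu']

theorem Conv_alt_pos (J : E n →ₗ[ℝ] E n) (hJ : ∀ x, J (J x) = -x)
    (hJo : ∀ x y : E n, ⟪J x, J y⟫ = ⟪x, y⟫) (q : ℕ) (hq : 2 * q ≤ n) :
    ∃ v : Fin q × Bool → E n, 0 < Conv_alt J q v := by
  obtain ⟨u, hu, hu'⟩ := Conv_frame J hJ hJo q hq
  have skew : ∀ x y : E n, ⟪J x, y⟫ = - ⟪x, J y⟫ := fun x y => by
    rw [← hJo (J x) y, hJ, inner_neg_left]
  set w : Fin q × Bool → E n := fun a => if a.2 then J (u a.1) else u a.1 with hw
  -- the values of the Kähler form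
  have val : ∀ a b, ⟪J (w a), w b⟫ = if a.1 = b.1 then
      (if a.2 then (if b.2 then 0 else -1) else (if b.2 then 1 else 0)) else 0 := by
    rintro ⟨i, s⟩ ⟨j, t⟩
    cases s <;> cases t
    · simp [hw, hu']
    · simp [hw, hJo, hu]
    · simp only [hw, Bool.false_eq_true, if_true, if_false, hJ, inner_neg_left, hu]
      split_ifs <;> simp
    · simp only [hw, if_true, hJ, inner_neg_left]
      rw [real_inner_comm, hu']
      simp
  refine ⟨w, ?_⟩
  rw [Conv_alt_apply]
  -- every term is nonnegative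
  have hnn : ∀ σ : Equiv.Perm (Fin q × Bool),
      0 ≤ ((Equiv.Perm.sign σ : ℤ) : ℝ) * ∏ i, Conv_F J (fun a => w (σ a)) i := by
    intro σ
    by_cases h0 : ∏ i, Conv_F J (fun a => w (σ a)) i = 0
    · rw [h0, mul_zero]
    have h1 : ∀ i, Conv_F J (fun a => w (σ a)) i ≠ 0 := fun i h =>
      h0 (Finset.prod_eq_zero (Finset.mem_univ i) h)
    have h2 : ∀ i, (σ (i, false)).1 = (σ (i, true)).1 ∧
        (σ (i, true)).2 = !(σ (i, false)).2 := fun i => by
      have h3 := h1 i
      unfold Conv_F at h3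
      rw [val] at h3
      split_ifs at h3 with a1 a2 a3 a4 <;> simp_all
    have h3 : ∀ i, Conv_F J (fun a => w (σ a)) i = if (σ (i, false)).2 then -1 else 1 := fun i => by
      unfold Conv_F
      rw [val, if_pos (h2 i).1, (h2 i).2]
      cases (σ (i, false)).2 <;> simp
    -- decomposition
    have hτ : Function.Injective (fun i => (σ (i, false)).1) := fun i j hij => by
      dsimp only at hij
      by_cases hb : (σ (i, false)).2 = (σ (j, false)).2
      · exact congrArg Prod.fst (σ.injective (Prod.ext hij hb))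
      · have h4 : σ (i, false) = σ (j, true) := by
          refine Prod.ext (hij.trans (h2 j).1) ?_
          rw [(h2 j).2]
          cases h5 : (σ (i, false)).2 <;> cases h6 : (σ (j, false)).2 <;> simp_all
        exact congrArg Prod.fst (σ.injective h4)
    let T : Equiv.Perm (Fin q) := Equiv.ofBijective _ (Finite.injective_iff_bijective.1 hτ)
    let f : Fin q → Equiv.Perm Bool := fun i => if (σ (i, false)).2 then Equiv.swap false true else 1
    have hσ : σ = (Equiv.prodCongrLeft fun _ : Bool => T) * (Equiv.prodCongrRight f) := by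
      refine Equiv.ext ?_
      rintro ⟨i, s⟩
      rw [Equiv.Perm.mul_apply, Equiv.prodCongrRight_apply, Equiv.prodCongrLeft_apply]
      have hT : T i = (σ (i, false)).1 := rfl
      rw [hT]
      cases s
      · refine Prod.ext rfl ?_
        dsimp only [f]
        cases (σ (i, false)).2 <;> simp
      · refine Prod.ext (h2 i).1.symm ?_
        dsimp only [f]
        rw [(h2 i).2]
        cases (σ (i, false)).2 <;> simp
    have hsign : ((Equiv.Perm.sign σ : ℤ) : ℝ) = ∏ i, if (σ (i, false)).2 then (-1 : ℝ) else 1 := by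
      have h4 : Equiv.Perm.sign σ = ∏ i, Equiv.Perm.sign (f i) := by
        conv_lhs => rw [hσ]
        rw [Equiv.Perm.sign_mul, Equiv.Perm.sign_prodCongrLeft, Equiv.Perm.sign_prodCongrRight,
          Fintype.prod_bool]
        simp
      rw [h4]
      push_cast
      refine Finset.prod_congr rfl fun i _ => ?_
      dsimp only [f]
      split_ifs
      · rw [Equiv.Perm.sign_swap (by decide)]; simp
      · simp
    rw [hsign]
    simp_rw [h3]
    exact mul_self_nonneg _
  refine lt_of_lt_of_le ?_ (Finset.single_le_sum (fun σ _ => hnn σ) (Finset.mem_univ 1))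
  rw [Equiv.Perm.sign_one]
  have h1 : ∀ i, Conv_F J (fun a => w ((1 : Equiv.Perm (Fin q × Bool)) a)) i = 1 := fun i => by
    change ⟪J (w (i, false)), w (i, true)⟫ = 1
    rw [val]
    simp
  rw [Finset.prod_congr rfl fun i _ => h1 i]
  simp

end Pool.Agent.H8.RG
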