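import Pool.Agent.H8.RG.ConvA
import Pool.Agent.H8.RG.ConvB

set_option autoImplicit false

/-!
# Module Conv: the curvature tensor of complex projective space is in the equality case
-/

namespace Pool.Agent.H8.RG

open Pool.Agent.H61.YP
open scoped BigOperators RealInnerProductSpace

variable {n : ℕ}

theorem Conv_scal (R : CurvTensor n) (k : ℝ) (J : E n →ₗ[ℝ] E n)
    (hJo : ∀ x y : E n, ⟪J x, J y⟫ = ⟪x, y⟫)
    (hR : ∀ x y : E n, R.toFun x y y x =
      k * (‖x‖ ^ 2 * ‖y‖ ^ 2 - ⟪x, y⟫ ^ 2 + 3 * ⟪J x, y⟫ ^ 2)) :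
    R.scal = k * (n * (n + 2)) := by
  unfold CurvTensor.scal
  have h1 : ∀ i : Fin n, ∑ j, R.toFun (e i) (e j) (e j) (e i) = k * ((n : ℝ) + 2) := fun i => by
    simp_rw [hR]
    rw [← Finset.mul_sum, Finset.sum_add_distrib, Finset.sum_sub_distrib, ← Finset.mul_sum,
      ← Finset.mul_sum, Cplx_sum_sq, Cplx_sum_sq]
    have h2 : ‖J (e i)‖ ^ 2 = 1 := by
      rw [← real_inner_self_eq_norm_sq, hJo]
      simp [e]
    have h3 : ∀ j : Fin n, ‖(e j : E n)‖ = 1 := fun j => by simp [e]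
    simp only [h2, h3]
    simp only [one_pow, Finset.sum_const, Finset.card_univ, Fintype.card_fin, nsmul_eq_mul]
    ring
  simp_rw [h1]
  simp
  ring

theorem converse (n p : ℕ) (hp : Even p) (hp0 : 0 < p) (hpn : p < n) (R : CurvTensor n) (k : ℝ)
    (hk : 0 < k) (J : E n →ₗ[ℝ] E n) (hJ : ∀ x, J (J x) = -x)
    (hJo : ∀ x y : E n, ⟪J x, J y⟫ = ⟪x, y⟫)
    (hR : ∀ x y : E n, R.toFun x y y x =
      k * (‖x‖ ^ 2 * ‖y‖ ^ 2 - ⟪x, y⟫ ^ 2 + 3 * ⟪J x, y⟫ ^ 2)) :
    (∃ x y z u, R.toFun x y z u ≠ 0) ∧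
    (∀ x y : E n, ‖x‖ = 1 → ‖y‖ = 1 → ⟪x, y⟫ = 0 → R.scal / (n * (n + 2)) ≤ R.toFun x y y x) ∧
    ∃ ω : Form n p, ω ≠ 0 ∧ R.weitzForm ω = 0 := by
  have hn : (0 : ℝ) < n := by
    have : 0 < n := by omega
    exact_mod_cast this
  have hsec : ∀ x y : E n, ‖x‖ = 1 → ‖y‖ = 1 → ⟪x, y⟫ = 0 → k ≤ R.toFun x y y x := by
    intro x y hx hy hxy
    rw [hR, hx, hy, hxy]
    nlinarith [mul_nonneg hk.le (sq_nonneg ⟪J x, y⟫)]
  refine ⟨?_, ?_, ?_⟩
  · have h1 := hsec (e ⟨0, by omega⟩) (e ⟨1, by omega⟩) (by simp [e]) (by simp [e])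
      (by simp [e, EuclideanSpace.inner_single_left])
    exact ⟨_, _, _, _, fun h => by rw [h] at h1; linarith⟩
  · intro x y hx hy hxy
    rw [Conv_scal R k J hJo hR, mul_div_assoc, div_self (by positivity), mul_one]
    exact hsec x y hx hy hxy
  · obtain ⟨q, rfl⟩ := hp
    let eqv : Fin q × Bool ≃ Fin (q + q) :=
      (Fintype.equivFinOfCardEq (by
        rw [Fintype.card_prod, Fintype.card_fin, Fintype.card_bool]; ring))
    let ω : Form n (q + q) := (Conv_alt J q).domDomCongr eqv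
    have hω : ∀ v, ω v = Conv_alt J q (fun a => v (eqv a)) := fun v => rfl
    refine ⟨ω, ?_, ?_⟩
    · obtain ⟨v, hv⟩ := Conv_alt_pos J hJ hJo q (by omega)
      intro h0
      have h1 : ω (fun a => v (eqv.symm a)) = 0 := by rw [h0]; rfl
      rw [hω] at h1
      simp only [Equiv.symm_apply_apply] at h1
      linarith
    · have hact : ∀ x y (v : Fin (q + q) → E n), R.act ω x y v = 0 := by
        intro x y v
        unfold CurvTensor.act
        rw [neg_eq_zero, ← Equiv.sum_comp eqv]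
        have h1 := Conv_alt_deriv J q (R.op x y) (fun z u => Conv_deriv R k J hJ hJo hR x y z u)
          (fun a => v (eqv a))
        rw [← h1]
        refine Finset.sum_congr rfl fun b _ => ?_
        rw [hω]
        congr 1
        funext a
        by_cases hab : a = b
        · subst hab
          rw [Function.update_self, Function.update_self]
        · rw [Function.update_of_ne hab, Function.update_of_ne (fun h => hab (eqv.injective h))]
      unfold CurvTensor.weitzForm CurvTensor.weitz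
      simp [hact]

end Pool.Agent.H8.RG
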