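import Pool.Agent.H8.RG.Defs

set_option autoImplicit false

/-!
# Module ConvA: curvature tensors with the sectional curvature of complex projective space
-/

namespace Pool.Agent.H8.RG

open Pool.Agent.H61.YP
open scoped BigOperators RealInnerProductSpace

variable {n : ℕ}

theorem Conv_anti34 (W : CurvTensor n) (x y z u : E n) :
    W.toFun x y z u = - W.toFun x y u z := by
  rw [W.pair x y z u, W.anti z u x y, W.pair u z x y]

/-- a curvature tensor without sectional curvature vanishes; here for the difference of two -/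
theorem Conv_ext (R S : CurvTensor n) (h : ∀ x y : E n, R.toFun x y y x = S.toFun x y y x)
    (x y z u : E n) : R.toFun x y z u = S.toFun x y z u := by
  -- the difference
  set D : E n → E n → E n → E n → ℝ := fun x y z u => R.toFun x y z u - S.toFun x y z u with hD
  have d0 : ∀ x y, D x y y x = 0 := fun x y => by rw [hD]; exact sub_eq_zero.2 (h x y)
  have anti : ∀ x y z u, D x y z u = - D y x z u := fun x y z u => by
    simp only [hD]; rw [R.anti, S.anti]; ring
  have pair : ∀ x y z u, D x y z u = D z u x y := fun x y z u => by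
    simp only [hD]; rw [R.pair, S.pair]
  have bian : ∀ x y z u, D x y z u + D y z x u + D z x y u = 0 := fun x y z u => by
    simp only [hD]
    have h1 := R.bianchi x y z u
    have h2 := S.bianchi x y z u
    linarith
  have add2 : ∀ x y y' z u, D x (y + y') z u = D x y z u + D x y' z u := fun x y y' z u => by
    simp only [hD]; rw [R.add_two, S.add_two]; ring
  have add3 : ∀ x y z z' u, D x y (z + z') u = D x y z u + D x y z' u := fun x y z z' u => by
    simp only [hD]; rw [R.add_three, S.add_three]; ring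
  have add1 : ∀ x x' y z u, D (x + x') y z u = D x y z u + D x' y z u := fun x x' y z u => by
    simp only [hD]; rw [R.add_left, S.add_left]; ring
  have add4 : ∀ x y z u u', D x y z (u + u') = D x y z u + D x y z u' := fun x y z u u' => by
    simp only [hD]; rw [R.add_four, S.add_four]; ring
  have anti34 : ∀ x y z u, D x y z u = - D x y u z := fun x y z u => by
    rw [pair x y z u, anti z u x y, pair u z x y]
  have d1 : ∀ x y z, D x y z x = 0 := fun x y z => by
    have h1 := d0 x (y + z)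
    rw [add2, add3, add3, d0, d0] at h1
    have h2 : D x z y x = D x y z x := by
      rw [pair x z y x, anti y x x z, anti34 x y x z, neg_neg]
    rw [h2] at h1
    linarith
  have d2 : ∀ x y z u, D x y z u = - D u y z x := fun x y z u => by
    have h1 := d1 (x + u) y z
    rw [add1, add4, add4, d1, d1] at h1
    linarith
  have d3 : ∀ x y z u, D x y z u = - D x z y u := fun x y z u => by
    have h1 := d2 x y z u
    have h2 : D u y z x = D x z y u := by
      rw [pair u y z x, anti z x u y, anti34 x z u y, neg_neg]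
    rw [h1, h2]
  have h4 := bian x y z u
  have h5 : D y z x u = D x y z u := by
    rw [d3 y z x u, anti y x z u, neg_neg]
  have h6 : D z x y u = D x y z u := by
    rw [anti z x y u, d3 x z y u, neg_neg]
  rw [h5, h6] at h4
  have h7 : D x y z u = 0 := by linarith
  rw [hD] at h7
  exact sub_eq_zero.1 h7

/-- the curvature tensor of complex projective space -/
noncomputable def Conv_cp (k : ℝ) (J : E n →ₗ[ℝ] E n) (hs : ∀ x y : E n, ⟪J x, y⟫ = - ⟪J y, x⟫) :
    CurvTensor n where
  toFun x y z u := k * (⟪y, z⟫ * ⟪x, u⟫ - ⟪x, z⟫ * ⟪y, u⟫ + ⟪J y, z⟫ * ⟪J x, u⟫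
    - ⟪J x, z⟫ * ⟪J y, u⟫ - 2 * ⟪J x, y⟫ * ⟪J z, u⟫)
  add_left x x' y z u := by
    simp only [map_add, inner_add_left]; ring
  smul_left a x y z u := by
    simp only [map_smul, real_inner_smul_left]; ring
  anti x y z u := by
    rw [hs y x]; ring
  pair x y z u := by
    rw [real_inner_comm z y, real_inner_comm u x, real_inner_comm z x, real_inner_comm u y,
      hs u x, hs z y, hs z x, hs u y]
    ring
  bianchi x y z u := by
    rw [real_inner_comm x z, real_inner_comm x y, real_inner_comm y z, hs z y, hs x z, hs y x]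
    ring

section

variable (R : CurvTensor n) (k : ℝ) (J : E n →ₗ[ℝ] E n) (hJ : ∀ x, J (J x) = -x)
  (hJo : ∀ x y : E n, ⟪J x, J y⟫ = ⟪x, y⟫)
  (hR : ∀ x y : E n, R.toFun x y y x =
    k * (‖x‖ ^ 2 * ‖y‖ ^ 2 - ⟪x, y⟫ ^ 2 + 3 * ⟪J x, y⟫ ^ 2))

include hJ hJo in
theorem Conv_skew (x y : E n) : ⟪J x, y⟫ = - ⟪J y, x⟫ := by
  rw [← hJo (J x) y, hJ, inner_neg_left, real_inner_comm]

include hJ hJo hR in
theorem Conv_eq (x y z u : E n) : R.toFun x y z u =
    k * (⟪y, z⟫ * ⟪x, u⟫ - ⟪x, z⟫ * ⟪y, u⟫ + ⟪J y, z⟫ * ⟪J x, u⟫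
      - ⟪J x, z⟫ * ⟪J y, u⟫ - 2 * ⟪J x, y⟫ * ⟪J z, u⟫) := by
  refine Conv_ext R (Conv_cp k J (Conv_skew J hJ hJo)) (fun x y => ?_) x y z u
  rw [hR]
  change _ = k * (⟪y, y⟫ * ⟪x, x⟫ - ⟪x, y⟫ * ⟪y, x⟫ + ⟪J y, y⟫ * ⟪J x, x⟫
      - ⟪J x, y⟫ * ⟪J y, x⟫ - 2 * ⟪J x, y⟫ * ⟪J y, x⟫)
  have h1 := Conv_skew J hJ hJo y y
  have h2 := Conv_skew J hJ hJo y x
  have h3 : ⟪J y, y⟫ = 0 := by linarith
  rw [h3, h2, real_inner_self_eq_norm_sq, real_inner_self_eq_norm_sq, real_inner_comm x y]
  ring

include hJ hJo hR in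
/-- the curvature operator annihilates the Kähler form -/
theorem Conv_deriv (x y z u : E n) :
    ⟪J (R.op x y z), u⟫ + ⟪J z, R.op x y u⟫ = 0 := by
  have hop : ∀ z u, ⟪R.op x y z, u⟫ = R.toFun x y z u := fun z u =>
    inner_sum_e (R.L4 x y z) u
  have e1 : ⟪J (R.op x y z), u⟫ = - R.toFun x y z (J u) := by
    rw [Conv_skew J hJ hJo, real_inner_comm, hop]
  have e2 : ⟪J z, R.op x y u⟫ = R.toFun x y u (J z) := by
    rw [real_inner_comm, hop]
  rw [e1, e2, Conv_eq R k J hJ hJo hR, Conv_eq R k J hJ hJo hR]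
  rw [hJo y z, hJo x z, hJo x u, hJo y u, hJo u z, hJo z u]
  have a1 : ⟪x, J u⟫ = - ⟪J x, u⟫ := by
    rw [real_inner_comm, Conv_skew J hJ hJo]
  have a2 : ⟪y, J u⟫ = - ⟪J y, u⟫ := by
    rw [real_inner_comm, Conv_skew J hJ hJo]
  have a3 : ⟪x, J z⟫ = - ⟪J x, z⟫ := by
    rw [real_inner_comm, Conv_skew J hJ hJo]
  have a4 : ⟪y, J z⟫ = - ⟪J y, z⟫ := by
    rw [real_inner_comm, Conv_skew J hJ hJo]
  rw [a1, a2, a3, a4, real_inner_comm u z]
  ring

end

end Pool.Agent.H8.RG
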