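import Pool.Agent.H61.YP.Main

set_option autoImplicit false

/-!
# The core inequality for a form with a kernel vector
-/

namespace Pool.Agent.H8.RG

open Pool.Agent.H61.YP
open scoped BigOperators RealInnerProductSpace

variable {n : ℕ}

/-- components of the projection to `ν^⊥` -/
noncomputable def pr (ν : E n) (j k : Fin n) : ℝ := dl j k - ν j * ν k

/-- the matrix of `α M(x,x) g' + β g'(x,x) M - (p-1) G_x` -/
noncomputable def Yk {q : ℕ} (ω : Form n (q + 2)) (ν : E n) (α β : ℝ) (a b j k : Fin n) : ℝ :=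
  α * (MB ω (e a) (e b) * pr ν j k) + β * (pr ν a b * MB ω (e j) (e k))
    - ((q : ℝ) + 1) * Gm ω a j b k

lemma pr_comm (ν : E n) (j k : Fin n) : pr ν j k = pr ν k j := by
  unfold pr; rw [dl_comm]; ring

lemma inner_sum_coord (ν : E n) (x : Fin n → ℝ) : ⟪ν, vec x⟫ = ∑ a, x a * ν a := by
  simp [PiLp.inner_apply]

lemma pr_expand (ν : E n) (x : Fin n → ℝ) :
    ∑ a, ∑ b, x a * x b * pr ν a b = ‖vec x‖ ^ 2 - ⟪ν, vec x⟫ ^ 2 := by
  have h2 : ‖vec x‖ ^ 2 = ∑ a, ∑ b, x a * x b * dl a b := by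
    rw [norm_sq]
    refine Finset.sum_congr rfl fun a _ => ?_
    simp [dl, sq]
  rw [h2, inner_sum_coord, sq, Finset.sum_mul_sum, ← Finset.sum_sub_distrib]
  refine Finset.sum_congr rfl fun a _ => ?_
  rw [← Finset.sum_sub_distrib]
  refine Finset.sum_congr rfl fun b _ => ?_
  unfold pr; ring

lemma Yk_expand {q : ℕ} (ω : Form n (q + 2)) (ν : E n) (α β : ℝ) (x : Fin n → ℝ)
    (j k : Fin n) :
    ∑ a, ∑ b, x a * x b * Yk ω ν α β a b j k
      = α * (MB ω (vec x) (vec x) * pr ν j k)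
        + β * ((‖vec x‖ ^ 2 - ⟪ν, vec x⟫ ^ 2) * MB ω (e j) (e k))
        - ((q : ℝ) + 1) * MB (ω.curryLeft (vec x)) (e j) (e k) := by
  have h1 := bilin_expand (MB ω) (vec x) (vec x)
  rw [h1, ← pr_expand, ← Gm_expand]
  simp only [vec_apply, Finset.mul_sum, Finset.sum_mul, Yk]
  rw [← Finset.sum_add_distrib, ← Finset.sum_sub_distrib]
  refine Finset.sum_congr rfl fun a _ => ?_
  rw [← Finset.sum_add_distrib, ← Finset.sum_sub_distrib]
  refine Finset.sum_congr rfl fun b _ => ?_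
  ring

/-- the improved contraction bound for a form annihilated by `ν` -/
lemma pauli_ker {q : ℕ} (φ : Form n (q + 1)) (ν y : E n) (hν : ‖ν‖ = 1)
    (hk : φ.curryLeft ν = 0) :
    ((q : ℝ) + 1) * ip (φ.curryLeft y) (φ.curryLeft y)
      ≤ (‖y‖ ^ 2 - ⟪ν, y⟫ ^ 2) * ip φ φ := by
  have h1 := pauli q φ (y - ⟪ν, y⟫ • ν)
  have h2 : φ.curryLeft (y - ⟪ν, y⟫ • ν) = φ.curryLeft y := by
    rw [map_sub, map_smul, hk, smul_zero, sub_zero]
  have h3 : ‖y - ⟪ν, y⟫ • ν‖ ^ 2 = ‖y‖ ^ 2 - ⟪ν, y⟫ ^ 2 := by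
    rw [← real_inner_self_eq_norm_sq]
    simp only [inner_sub_left, inner_sub_right, real_inner_smul_left, real_inner_smul_right]
    rw [real_inner_self_eq_norm_sq, real_inner_self_eq_norm_sq, real_inner_comm ν y, hν]
    ring
  rw [h2, h3] at h1
  exact h1

lemma Yk_nonneg {q : ℕ} (ω : Form n (q + 2)) (ν : E n) (hν : ‖ν‖ = 1)
    (hk : ω.curryLeft ν = 0) (α β : ℝ) (hα : 0 ≤ α) (hβ : 0 ≤ β)
    (hαβ : α + β = 1) (x v : Fin n → ℝ) :
    0 ≤ ∑ j, ∑ k, v j * v k * (∑ a, ∑ b, x a * x b * Yk ω ν α β a b j k) := by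
  have h1 := bilin_expand (MB ω) (vec v) (vec v)
  have h3 := bilin_expand (MB (ω.curryLeft (vec x))) (vec v) (vec v)
  have h4 : ∑ j, ∑ k, v j * v k * (∑ a, ∑ b, x a * x b * Yk ω ν α β a b j k)
      = α * (MB ω (vec x) (vec x) * (‖vec v‖ ^ 2 - ⟪ν, vec v⟫ ^ 2))
        + β * ((‖vec x‖ ^ 2 - ⟪ν, vec x⟫ ^ 2) * MB ω (vec v) (vec v))
        - ((q : ℝ) + 1) * MB (ω.curryLeft (vec x)) (vec v) (vec v) := by
    simp_rw [Yk_expand]
    rw [← pr_expand ν v, h3, h1]
    simp only [vec_apply, Finset.mul_sum]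
    rw [← Finset.sum_add_distrib, ← Finset.sum_sub_distrib]
    refine Finset.sum_congr rfl fun a _ => ?_
    rw [← Finset.sum_add_distrib, ← Finset.sum_sub_distrib]
    refine Finset.sum_congr rfl fun b _ => ?_
    ring
  rw [h4]
  have hkx : (ω.curryLeft (vec x)).curryLeft ν = 0 := by
    rw [curry_swap, hk]
    simp
  have hkv : (ω.curryLeft (vec v)).curryLeft ν = 0 := by
    rw [curry_swap, hk]
    simp
  have p1 := pauli_ker (ω.curryLeft (vec x)) ν (vec v) hν hkx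
  have p2 := pauli_ker (ω.curryLeft (vec v)) ν (vec x) hν hkv
  have h5 : ip ((ω.curryLeft (vec v)).curryLeft (vec x)) ((ω.curryLeft (vec v)).curryLeft (vec x))
      = MB (ω.curryLeft (vec x)) (vec v) (vec v) := by
    rw [curry_swap, ip_neg_left, ip_neg_right, neg_neg]; rfl
  rw [h5] at p2
  have h6 : ip ((ω.curryLeft (vec x)).curryLeft (vec v)) ((ω.curryLeft (vec x)).curryLeft (vec v))
      = MB (ω.curryLeft (vec x)) (vec v) (vec v) := rfl
  rw [h6] at p1
  have e1 : ip (ω.curryLeft (vec x)) (ω.curryLeft (vec x)) = MB ω (vec x) (vec x) := rfl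
  have e2 : ip (ω.curryLeft (vec v)) (ω.curryLeft (vec v)) = MB ω (vec v) (vec v) := rfl
  rw [e1] at p1
  rw [e2] at p2
  have a1 := mul_le_mul_of_nonneg_left p1 hα
  have a2 := mul_le_mul_of_nonneg_left p2 hβ
  have : α * (((q : ℝ) + 1) * MB (ω.curryLeft (vec x)) (vec v) (vec v))
      + β * (((q : ℝ) + 1) * MB (ω.curryLeft (vec x)) (vec v) (vec v))
      = ((q : ℝ) + 1) * MB (ω.curryLeft (vec x)) (vec v) (vec v) := by
    rw [← add_mul, hαβ, one_mul]
  nlinarith [a1, a2, this]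

/-- the two correction terms -/
noncomputable def mu1 {q : ℕ} (w : Fin n → Fin n → Fin n → Fin n → ℝ) (ω : Form n (q + 1))
    (ν : E n) : ℝ := ∑ i, ∑ j, ∑ k, ∑ l, ν i * ν l * w i j k l * MB ω (e j) (e k)

noncomputable def mu2 {q : ℕ} (w : Fin n → Fin n → Fin n → Fin n → ℝ) (ω : Form n (q + 1))
    (ν : E n) : ℝ := ∑ i, ∑ j, ∑ k, ∑ l, ν j * ν k * w i j k l * MB ω (e i) (e l)

lemma mu_eq {q : ℕ} {w : Fin n → Fin n → Fin n → Fin n → ℝ} (h : IsCurv w)
    (ω : Form n (q + 1)) (ν : E n) : mu2 w ω ν = mu1 w ω ν := by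
  unfold mu1 mu2
  -- swap i ↔ j and k ↔ l
  rw [swap12]
  refine Finset.sum_congr rfl fun i _ => Finset.sum_congr rfl fun j _ => ?_
  rw [Finset.sum_comm]
  refine Finset.sum_congr rfl fun k _ => Finset.sum_congr rfl fun l _ => ?_
  rw [h.anti j i l k, h.anti' i j l k]
  ring

lemma mu1_nonneg {q : ℕ} {w : Fin n → Fin n → Fin n → Fin n → ℝ} (h : IsCurv w)
    (hpos : ∀ x v : Fin n → ℝ,
      0 ≤ ∑ j, ∑ k, v j * v k * (∑ i, ∑ l, x i * x l * w i j k l))
    (ω : Form n (q + 1)) (ν : E n) : 0 ≤ mu1 w ω ν := by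
  have h1 := sum_mul_nonneg (fun j k => ∑ i, ∑ l, ν i * ν l * w i j k l)
    (fun j k => MB ω (e j) (e k)) (by
      intro j k
      rw [Finset.sum_comm]
      refine Finset.sum_congr rfl fun i _ => Finset.sum_congr rfl fun l _ => ?_
      rw [h.flip l j k i]; ring) (hpos fun i => ν i) (fun j k => MB_comm _ _ _) (by
      intro v
      have h2 := bilin_expand (MB ω) (vec v) (vec v)
      simp only [vec_apply] at h2
      rw [← h2]
      exact ip_self_nonneg _)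
  refine h1.trans_eq ?_
  unfold mu1
  have h3 : ∀ j k : Fin n, (∑ i, ∑ l, ν i * ν l * w i j k l) * MB ω (e j) (e k)
      = ∑ i, ∑ l, ν i * ν l * w i j k l * MB ω (e j) (e k) := by
    intro j k
    rw [Finset.sum_mul]
    refine Finset.sum_congr rfl fun i _ => ?_
    rw [Finset.sum_mul]
  simp_rw [h3]
  rw [rot3 (fun i j k l => ν i * ν l * w i j k l * MB ω (e j) (e k))]

lemma ricν_nonneg {w : Fin n → Fin n → Fin n → Fin n → ℝ}
    (hpos : ∀ x v : Fin n → ℝ,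
      0 ≤ ∑ j, ∑ k, v j * v k * (∑ i, ∑ l, x i * x l * w i j k l))
    (ν : E n) : 0 ≤ ∑ j, ∑ k, ricA w j k * (ν j * ν k) := by
  have h1 : ∑ j, ∑ k, ricA w j k * (ν j * ν k) = ∑ i, ∑ j, ∑ k, ν j * ν k * w i j k i := by
    unfold ricA
    simp_rw [Finset.sum_mul]
    rw [← comm2 (fun i j k => w i j k i * (ν j * ν k))]
    refine Finset.sum_congr rfl fun i _ => Finset.sum_congr rfl fun j _ =>
      Finset.sum_congr rfl fun k _ => ?_
    ring
  rw [h1]
  refine Finset.sum_nonneg fun i _ => ?_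
  have h2 := hpos (fun m => if m = i then 1 else 0) (fun j => ν j)
  simpa using h2

/-- **Core inequality with a kernel vector.** -/
theorem core_ker {q : ℕ} {w : Fin n → Fin n → Fin n → Fin n → ℝ} (h : IsCurv w)
    (hpos : ∀ x v : Fin n → ℝ,
      0 ≤ ∑ j, ∑ k, v j * v k * (∑ i, ∑ l, x i * x l * w i j k l))
    (ω : Form n (q + 2)) (hq : q + 3 ≤ n) (ν : E n) (hν : ‖ν‖ = 1)
    (hk : ω.curryLeft ν = 0) :
    0 ≤ 3 * (rA w ω - ((q : ℝ) + 1) * QA w ω)
      + (((n : ℝ) - (q + 3)) / (n - 1)) * (scalA w * ip ω ω) := by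
  have hn3 : ((q + 3 : ℕ) : ℝ) ≤ n := by exact_mod_cast hq
  push_cast at hn3
  have hq0 : (0 : ℝ) ≤ q := Nat.cast_nonneg q
  have hn : (0 : ℝ) < (n : ℝ) - 1 := by linarith
  set α : ℝ := ((n : ℝ) - (q + 3)) / (n - 1) with hαd
  set β : ℝ := ((q : ℝ) + 2) / (n - 1) with hβd
  have hα : 0 ≤ α := div_nonneg (by linarith) hn.le
  have hβ : 0 ≤ β := div_nonneg (by linarith) hn.le
  have hαβ : α + β = 1 := by
    rw [hαd, hβd]; field_simp; ring
  have hm := moment (κ := Fin n × Fin n) (fun m i l => w i m.1 m.2 l)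
    (fun m a b => Yk ω ν α β a b m.1 m.2) (fun x => by
      rw [Fintype.sum_prod_type]
      refine sum_mul_nonneg (fun j k => ∑ i, ∑ l, x i * x l * w i j k l)
        (fun j k => ∑ a, ∑ b, x a * x b * Yk ω ν α β a b j k) ?_ (hpos x) ?_
        (Yk_nonneg ω ν hν hk α β hα hβ hαβ x)
      · intro j k
        rw [Finset.sum_comm]
        refine Finset.sum_congr rfl fun i _ => Finset.sum_congr rfl fun l _ => ?_
        rw [h.flip l j k i]; ring
      · intro j k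
        rw [Yk_expand, Yk_expand, pr_comm ν j k, MB_comm ω (e j), MB_comm _ (e j)])
  rw [Fintype.sum_prod_type] at hm
  simp only at hm
  have hprt : ∑ i : Fin n, pr ν i i = (n : ℝ) - 1 := by
    unfold pr
    rw [Finset.sum_sub_distrib]
    have h1 : ∑ i : Fin n, dl i i = (n : ℝ) := by simp [dl]
    have h2 : ∑ i : Fin n, ν i * ν i = 1 := by
      have h3 := norm_sq ν
      rw [hν] at h3
      simp_rw [← sq]
      rw [← h3]; norm_num
    rw [h1, h2]
  have hT1 : ∀ j k : Fin n, ∑ a, Yk ω ν α β a a j k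
      = α * (ip ω ω * pr ν j k) + (β * ((n : ℝ) - 1) - ((q : ℝ) + 1)) * MB ω (e j) (e k) := by
    intro j k
    unfold Yk
    rw [Finset.sum_sub_distrib, Finset.sum_add_distrib, ← Finset.mul_sum, ← Finset.mul_sum,
      ← Finset.mul_sum, ← Finset.sum_mul, ← Finset.sum_mul, trace_MB, Gm_trace, hprt]
    ring
  set ρ : ℝ := ∑ j, ∑ k, ricA w j k * (ν j * ν k) with hρ
  have hfirst : ∑ j, ∑ k, (∑ i, w i j k i) * (∑ a, Yk ω ν α β a a j k)
      = α * ((scalA w - ρ) * ip ω ω) + (β * ((n : ℝ) - 1) - ((q : ℝ) + 1)) * rA w ω := by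
    simp_rw [hT1]
    have : ∀ j k : Fin n, (∑ i, w i j k i) *
        (α * (ip ω ω * pr ν j k) + (β * ((n : ℝ) - 1) - ((q : ℝ) + 1)) * MB ω (e j) (e k))
        = α * ip ω ω * (ricA w j k * dl j k) - α * ip ω ω * (ricA w j k * (ν j * ν k))
          + (β * ((n : ℝ) - 1) - ((q : ℝ) + 1)) * (ricA w j k * MB ω (e j) (e k)) := by
      intro j k; unfold ricA pr; ring
    simp_rw [this, Finset.sum_add_distrib, Finset.sum_sub_distrib, ← Finset.mul_sum]
    have h1 : ∑ j, ∑ k, ricA w j k * dl j k = scalA w := by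
      unfold scalA
      refine Finset.sum_congr rfl fun j _ => ?_
      simp [dl]
    rw [h1, ← hρ]
    unfold rA
    ring
  have hsecond : ∑ j, ∑ k, ∑ i, ∑ l, w i j k l * (Yk ω ν α β i l j k + Yk ω ν α β l i j k)
      = (2 * α + 2 * β) * rA w ω - 2 * α * mu2 w ω ν - 2 * β * mu1 w ω ν
        - ((q : ℝ) + 1) * (3 * QA w ω) := by
    have hexp : ∀ j k i l : Fin n, w i j k l * (Yk ω ν α β i l j k + Yk ω ν α β l i j k)
        = 2 * α * (dl j k * w i j k l * MB ω (e i) (e l))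
          + 2 * β * (dl i l * w i j k l * MB ω (e j) (e k))
          - 2 * α * (ν j * ν k * w i j k l * MB ω (e i) (e l))
          - 2 * β * (ν i * ν l * w i j k l * MB ω (e j) (e k))
          - ((q : ℝ) + 1) * (w i j k l * Gm ω i j l k)
          - ((q : ℝ) + 1) * (w i j k l * Gm ω l j i k) := by
      intro j k i l
      unfold Yk
      rw [MB_comm ω (e l) (e i), pr_comm ν l i]
      unfold pr
      ring
    simp_rw [hexp, Finset.sum_sub_distrib, Finset.sum_add_distrib, ← Finset.mul_sum]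
    have s1 : ∑ j, ∑ k, ∑ i, ∑ l, dl j k * w i j k l * MB ω (e i) (e l) = rA w ω := by
      have a1 : ∀ j : Fin n, ∑ k, ∑ i, ∑ l, dl j k * w i j k l * MB ω (e i) (e l)
          = ∑ i, ∑ l, w i j j l * MB ω (e i) (e l) := by
        intro j
        rw [Finset.sum_eq_single j]
        · simp [dl]
        · intro k _ hk
          simp [dl, Ne.symm hk]
        · simp
      simp_rw [a1]
      rw [Finset.sum_comm]
      unfold rA
      refine Finset.sum_congr rfl fun i _ => ?_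
      rw [Finset.sum_comm]
      refine Finset.sum_congr rfl fun l _ => ?_
      rw [← Finset.sum_mul, ricA_eq h]
    have s2 : ∑ j, ∑ k, ∑ i, ∑ l, dl i l * w i j k l * MB ω (e j) (e k) = rA w ω := by
      unfold rA ricA
      refine Finset.sum_congr rfl fun j _ => Finset.sum_congr rfl fun k _ => ?_
      rw [Finset.sum_mul]
      refine Finset.sum_congr rfl fun i _ => ?_
      simp [dl]
    have perm : ∀ f : Fin n → Fin n → Fin n → Fin n → ℝ,
        ∑ j, ∑ k, ∑ i, ∑ l, f i j k l = ∑ i, ∑ j, ∑ k, ∑ l, f i j k l := by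
      intro f
      rw [rot3 (fun i j k l => f i j k l)]
    have s3 : ∑ j, ∑ k, ∑ i, ∑ l, w i j k l * Gm ω i j l k = 2 * QA w ω := by
      rw [perm (fun i j k l => w i j k l * Gm ω i j l k), H4_eq h]
    have s4 : ∑ j, ∑ k, ∑ i, ∑ l, w i j k l * Gm ω l j i k = QA w ω := by
      rw [perm (fun i j k l => w i j k l * Gm ω l j i k)]; rfl
    have s5 : ∑ j, ∑ k, ∑ i, ∑ l, ν j * ν k * w i j k l * MB ω (e i) (e l)
        = mu2 w ω ν := by
      rw [perm (fun i j k l => ν j * ν k * w i j k l * MB ω (e i) (e l))]; rfl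
    have s6 : ∑ j, ∑ k, ∑ i, ∑ l, ν i * ν l * w i j k l * MB ω (e j) (e k)
        = mu1 w ω ν := by
      rw [perm (fun i j k l => ν i * ν l * w i j k l * MB ω (e j) (e k))]; rfl
    rw [s1, s2, s3, s4, s5, s6]
    ring
  simp_rw [Finset.sum_add_distrib] at hm
  rw [hfirst, hsecond, mu_eq h] at hm
  have hβn : β * ((n : ℝ) - 1) = (q : ℝ) + 2 := by rw [hβd]; field_simp
  have h2ab : 2 * α + 2 * β = 2 := by linarith
  rw [hβn, h2ab] at hm
  have m0 : 0 ≤ mu1 w ω ν := mu1_nonneg h hpos ω ν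
  have r0 : 0 ≤ ρ := ricν_nonneg hpos ν
  have i0 : 0 ≤ ip ω ω := ip_self_nonneg ω
  have g1 : 2 * α * mu1 w ω ν + 2 * β * mu1 w ω ν = 2 * mu1 w ω ν := by
    rw [← add_mul, h2ab]
  have g2 : 0 ≤ α * (ρ * ip ω ω) := by positivity
  nlinarith [hm, g1, g2, m0]

/-- lower bound with a lower bound `c` for the sectional curvature, for a form annihilated
by a unit vector -/
theorem lower_ker {q : ℕ} (R : CurvTensor n) (c : ℝ)
    (h : ∀ x y : E n, c * (‖x‖ ^ 2 * ‖y‖ ^ 2 - ⟪x, y⟫ ^ 2) ≤ R.toFun x y y x)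
    (ω : Form n (q + 2)) (hq : q + 3 ≤ n) (ν : E n) (hν : ‖ν‖ = 1)
    (hk : ω.curryLeft ν = 0) :
    ((q : ℝ) + 2) * ((((n : ℝ) - (q + 2)) * c
      - ((n : ℝ) - (q + 3)) / (3 * (n - 1)) * (R.scal - c * ((n : ℝ) * (n - 1)))) * ip ω ω)
      ≤ R.weitzForm ω := by
  have hn3 : ((q + 3 : ℕ) : ℝ) ≤ n := by exact_mod_cast hq
  push_cast at hn3
  have hq0 : (0 : ℝ) ≤ (q : ℝ) := Nat.cast_nonneg q
  have hn : (0 : ℝ) < (n : ℝ) - 1 := by linarith
  have hc := core_ker (R.wA_isCurv c) (R.wA_pos c h) ω hq ν hν hk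
  rw [CurvTensor.rA_wA, CurvTensor.QA_wA, CurvTensor.scalA_wA, ← CurvTensor.scal_eq] at hc
  rw [CurvTensor.weitzForm_comp]
  apply mul_le_mul_of_nonneg_left _ (by linarith : (0 : ℝ) ≤ (q : ℝ) + 2)
  have h1 : ((n : ℝ) - (q + 3)) / (3 * (n - 1)) * (R.scal - c * ((n : ℝ) * (n - 1)))
      = (1 / 3) * ((((n : ℝ) - (q + 3)) / (n - 1)) * (R.scal - c * ((n : ℝ) * (n - 1)))) := by
    field_simp
  rw [h1]
  linarith

end Pool.Agent.H8.RG
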