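import Pool.Agent.H8.RG.Quartic

set_option autoImplicit false

/-!
# The equality case of the core inequality
-/

namespace Pool.Agent.H8.RG

open Pool.Agent.H61.YP
open scoped BigOperators RealInnerProductSpace

variable {n : ℕ}

/-- equality in `core`: the quartic form vanishes -/
theorem core_zero {q : ℕ} {w : Fin n → Fin n → Fin n → Fin n → ℝ} (h : IsCurv w)
    (hpos : ∀ x v : Fin n → ℝ,
      0 ≤ ∑ j, ∑ k, v j * v k * (∑ i, ∑ l, x i * x l * w i j k l))
    (ω : Form n (q + 2)) (hq : q + 2 ≤ n)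
    (h0 : 3 * (rA w ω - ((q : ℝ) + 1) * QA w ω)
      + (((n : ℝ) - (q + 2)) / n) * (scalA w * ip ω ω) = 0) (x : Fin n → ℝ) :
    ∑ j, ∑ k, (∑ i, ∑ l, x i * x l * w i j k l)
      * (∑ a, ∑ b, x a * x b * Ym ω (((n : ℝ) - (q + 2)) / n) (((q : ℝ) + 2) / n) a b j k)
      = 0 := by
  have hn : (0 : ℝ) < n := by
    have : 0 < n := by omega
    exact_mod_cast this
  set α : ℝ := ((n : ℝ) - (q + 2)) / n with hαd
  set β : ℝ := ((q : ℝ) + 2) / n with hβd
  have hα : 0 ≤ α := by
    apply div_nonneg _ hn.le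
    have : ((q + 2 : ℕ) : ℝ) ≤ n := by exact_mod_cast hq
    push_cast at this
    linarith
  have hβ : 0 ≤ β := by positivity
  have hαβ : α + β = 1 := by
    rw [hαd, hβd]; field_simp; ring
  have hT1 : ∀ j k : Fin n, ∑ a, Ym ω α β a a j k
      = α * (ip ω ω * dl j k) + (β * n - ((q : ℝ) + 1)) * MB ω (e j) (e k) := by
    intro j k
    unfold Ym
    rw [Finset.sum_sub_distrib, Finset.sum_add_distrib, ← Finset.mul_sum, ← Finset.mul_sum,
      ← Finset.mul_sum, ← Finset.sum_mul, ← Finset.sum_mul, trace_MB, Gm_trace]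
    have : ∑ i : Fin n, dl i i = n := by simp [dl]
    rw [this]; ring
  have hfirst : ∑ j, ∑ k, (∑ i, w i j k i) * (∑ a, Ym ω α β a a j k)
      = α * (scalA w * ip ω ω) + (β * n - ((q : ℝ) + 1)) * rA w ω := by
    simp_rw [hT1]
    have : ∀ j k : Fin n, (∑ i, w i j k i) *
        (α * (ip ω ω * dl j k) + (β * n - ((q : ℝ) + 1)) * MB ω (e j) (e k))
        = α * ip ω ω * (ricA w j k * dl j k)
          + (β * n - ((q : ℝ) + 1)) * (ricA w j k * MB ω (e j) (e k)) := by
      intro j k; unfold ricA; ring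
    simp_rw [this, Finset.sum_add_distrib, ← Finset.mul_sum]
    have h1 : ∑ j, ∑ k, ricA w j k * dl j k = scalA w := by
      unfold scalA
      refine Finset.sum_congr rfl fun j _ => ?_
      simp [dl]
    rw [h1]
    unfold rA
    ring
  have hsecond : ∑ j, ∑ k, ∑ i, ∑ l, w i j k l * (Ym ω α β i l j k + Ym ω α β l i j k)
      = (2 * α + 2 * β) * rA w ω - ((q : ℝ) + 1) * (3 * QA w ω) := by
    have hexp : ∀ j k i l : Fin n, w i j k l * (Ym ω α β i l j k + Ym ω α β l i j k)
        = 2 * α * (dl j k * w i j k l * MB ω (e i) (e l))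
          + 2 * β * (dl i l * w i j k l * MB ω (e j) (e k))
          - ((q : ℝ) + 1) * (w i j k l * Gm ω i j l k)
          - ((q : ℝ) + 1) * (w i j k l * Gm ω l j i k) := by
      intro j k i l
      unfold Ym
      rw [MB_comm ω (e l) (e i), dl_comm l i]
      ring
    simp_rw [hexp, Finset.sum_sub_distrib, Finset.sum_add_distrib, ← Finset.mul_sum]
    have s1 : ∑ j, ∑ k, ∑ i, ∑ l, dl j k * w i j k l * MB ω (e i) (e l) = rA w ω := by
      have a1 : ∀ j : Fin n, ∑ k, ∑ i, ∑ l, dl j k * w i j k l * MB ω (e i) (e l)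
          = ∑ i, ∑ l, w i j j l * MB ω (e i) (e l) := by
        intro j
        rw [Finset.sum_eq_single j]
        · simp [dl]
        · intro k _ hk
          simp [dl, Ne.symm hk]
        · simp
      simp_rw [a1]
      rw [Finset.sum_comm]
      unfold rA
      refine Finset.sum_congr rfl fun i _ => ?_
      rw [Finset.sum_comm]
      refine Finset.sum_congr rfl fun l _ => ?_
      rw [← Finset.sum_mul, ricA_eq h]
    have s2 : ∑ j, ∑ k, ∑ i, ∑ l, dl i l * w i j k l * MB ω (e j) (e k) = rA w ω := by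
      unfold rA ricA
      refine Finset.sum_congr rfl fun j _ => Finset.sum_congr rfl fun k _ => ?_
      rw [Finset.sum_mul]
      refine Finset.sum_congr rfl fun i _ => ?_
      simp [dl]
    have perm : ∀ f : Fin n → Fin n → Fin n → Fin n → ℝ,
        ∑ j, ∑ k, ∑ i, ∑ l, f i j k l = ∑ i, ∑ j, ∑ k, ∑ l, f i j k l := by
      intro f
      rw [rot3 (fun i j k l => f i j k l)]
    have s3 : ∑ j, ∑ k, ∑ i, ∑ l, w i j k l * Gm ω i j l k = 2 * QA w ω := by
      rw [perm (fun i j k l => w i j k l * Gm ω i j l k), H4_eq h]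
    have s4 : ∑ j, ∑ k, ∑ i, ∑ l, w i j k l * Gm ω l j i k = QA w ω := by
      rw [perm (fun i j k l => w i j k l * Gm ω l j i k)]; rfl
    rw [s1, s2, s3, s4]
    ring
  have hm := moment_zero (κ := Fin n × Fin n) (fun m i l => w i m.1 m.2 l)
    (fun m a b => Ym ω α β a b m.1 m.2) (fun x => by
      rw [Fintype.sum_prod_type]
      refine sum_mul_nonneg (fun j k => ∑ i, ∑ l, x i * x l * w i j k l)
        (fun j k => ∑ a, ∑ b, x a * x b * Ym ω α β a b j k) ?_ (hpos x) ?_
        (Y_nonneg ω α β hα hβ hαβ x)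
      · intro j k
        rw [Finset.sum_comm]
        refine Finset.sum_congr rfl fun i _ => Finset.sum_congr rfl fun l _ => ?_
        rw [h.flip l j k i]; ring
      · intro j k
        rw [Ym_expand, Ym_expand, dl_comm j k, MB_comm ω (e j), MB_comm _ (e j)]) (by
      rw [Fintype.sum_prod_type]
      simp only
      simp_rw [Finset.sum_add_distrib]
      rw [hfirst, hsecond]
      have hβn : β * n = (q : ℝ) + 2 := by rw [hβd]; field_simp
      have : 2 * α + 2 * β = 2 := by linarith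
      rw [hβn, this]
      linarith) x
  rw [Fintype.sum_prod_type] at hm
  exact hm

/-- a symmetric nonnegative bilinear form that vanishes at `(a, a)` vanishes at `(a, u)` -/
lemma psd_kernel (B : E n →ₗ[ℝ] E n →ₗ[ℝ] ℝ) (hs : ∀ x y, B x y = B y x)
    (hp : ∀ x, 0 ≤ B x x) (a : E n) (ha : B a a = 0) (u : E n) : B a u = 0 := by
  have h : ∀ t : ℝ, 0 ≤ 2 * t * B a u + t ^ 2 * B u u := by
    intro t
    have h1 := hp (a + t • u)
    simp only [map_add, map_smul, LinearMap.add_apply, LinearMap.smul_apply, smul_eq_mul] at h1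
    rw [hs u a, ha] at h1
    nlinarith
  have hu := hp u
  by_contra hne
  rcases eq_or_lt_of_le hu with h0 | h0
  · have h1 := h (-(B a u))
    rw [← h0] at h1
    have : 0 < B a u ^ 2 := by positivity
    nlinarith
  · have h1 := h (-(B a u) / B u u)
    have h2 : 2 * (-(B a u) / B u u) * B a u + (-(B a u) / B u u) ^ 2 * B u u
        = - (B a u ^ 2 / B u u) := by
      field_simp; ring
    rw [h2] at h1
    have : 0 < B a u ^ 2 / B u u := by positivity
    linarith

/-- Cauchy–Schwarz for a symmetric nonnegative bilinear form -/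
lemma psd_cs (B : E n →ₗ[ℝ] E n →ₗ[ℝ] ℝ) (hs : ∀ x y, B x y = B y x)
    (hp : ∀ x, 0 ≤ B x x) (a u : E n) : B a u ^ 2 ≤ B a a * B u u := by
  rcases eq_or_lt_of_le (hp a) with h0 | h0
  · rw [psd_kernel B hs hp a h0.symm u, ← h0]; simp
  · have h1 := hp (B a a • u - B a u • a)
    simp only [map_sub, map_smul, LinearMap.sub_apply, LinearMap.smul_apply, smul_eq_mul] at h1
    rw [hs u a] at h1
    have h2 : 0 ≤ B a a * (B a a * B u u - B a u ^ 2) := by nlinarith
    have := nonneg_of_mul_nonneg_right h2 h0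
    linarith

/-- Two nonnegative symmetric bilinear forms whose product has trace zero: with `A v`
the vector of `A(v, ·)`, `Y (A v, ·) = 0`. -/
lemma psd_prod (A Y : E n →ₗ[ℝ] E n →ₗ[ℝ] ℝ) (hAs : ∀ x y, A x y = A y x)
    (hAp : ∀ x, 0 ≤ A x x) (hYs : ∀ x y, Y x y = Y y x) (hYp : ∀ x, 0 ≤ Y x x)
    (h0 : ∑ j, ∑ k, A (e j) (e k) * Y (e j) (e k) = 0) (v u : E n) :
    Y (∑ i, A v (e i) • (e i : E n)) u = 0 := by
  set a : E n := ∑ i, A v (e i) • (e i : E n) with ha
  refine psd_kernel Y hYs hYp a ?_ u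
  have haa : Y a a = ∑ j, ∑ k, (A v (e j) * A v (e k)) * Y (e j) (e k) := by
    rw [bilin_expand]
    refine Finset.sum_congr rfl fun j _ => Finset.sum_congr rfl fun k _ => ?_
    have hc : ∀ j, a j = A v (e j) := by
      intro j
      rw [ha]
      simp [e, Pi.single_apply]
    rw [hc, hc]
  have hvec : ∀ (B : E n →ₗ[ℝ] E n →ₗ[ℝ] ℝ) (w : Fin n → ℝ),
      ∑ j, ∑ k, w j * w k * B (e j) (e k) = B (vec w) (vec w) := by
    intro B w
    rw [bilin_expand]
    rfl
  have h1 := sum_mul_nonneg (fun j k => A v v * A (e j) (e k) - A v (e j) * A v (e k))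
    (fun j k => Y (e j) (e k)) (by
      intro j k
      rw [hAs (e j) (e k)]; ring) (by
      intro w
      have h2 : ∑ j, ∑ k, w j * w k * (A v v * A (e j) (e k) - A v (e j) * A v (e k))
          = A v v * A (vec w) (vec w) - (A v (vec w)) ^ 2 := by
        have h3 : A v (vec w) = ∑ j, w j * A v (e j) := by
          exact CurvTensor.lin_sum (A v) (vec w)
        rw [← hvec A w, h3, sq, Finset.sum_mul_sum, Finset.mul_sum, ← Finset.sum_sub_distrib]
        refine Finset.sum_congr rfl fun j _ => ?_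
        rw [Finset.mul_sum, ← Finset.sum_sub_distrib]
        refine Finset.sum_congr rfl fun k _ => ?_
        ring
      rw [h2]
      have := psd_cs A hAs hAp v (vec w)
      linarith) (fun j k => hYs _ _) (by
      intro w
      rw [hvec]
      exact hYp _)
  have h4 : ∑ j, ∑ k, (A v v * A (e j) (e k) - A v (e j) * A v (e k)) * Y (e j) (e k)
      = A v v * (∑ j, ∑ k, A (e j) (e k) * Y (e j) (e k)) - Y a a := by
    rw [haa, Finset.mul_sum, ← Finset.sum_sub_distrib]
    refine Finset.sum_congr rfl fun j _ => ?_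
    rw [Finset.mul_sum, ← Finset.sum_sub_distrib]
    refine Finset.sum_congr rfl fun k _ => ?_
    ring
  rw [h4, h0, mul_zero, zero_sub] at h1
  exact le_antisymm (by linarith) (hYp a)

/-- the Jacobi form `(v, u) ↦ W(x, v, u, x)` -/
noncomputable def JF (W : CurvTensor n) (x : E n) : E n →ₗ[ℝ] E n →ₗ[ℝ] ℝ :=
  LinearMap.mk₂ ℝ (fun v u => W.toFun x v u x)
    (fun v v' u => W.add_two x v v' u x) (fun c v u => W.smul_two c x v u x)
    (fun v u u' => W.add_three x v u u' x) (fun c v u => W.smul_three c x v u x)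

@[simp] lemma JF_apply (W : CurvTensor n) (x v u : E n) : JF W x v u = W.toFun x v u x := rfl

lemma JF_symm (W : CurvTensor n) (x v u : E n) : JF W x v u = JF W x u v := by
  rw [JF_apply, JF_apply, W.pair, W.anti, W.pair, W.anti, neg_neg, W.pair]

lemma jac_eq (W : CurvTensor n) (x v : E n) :
    jac W x v = ∑ i, JF W x v (e i) • (e i : E n) := rfl

/-- the Euclidean inner product as a bilinear form -/
noncomputable def gB (n : ℕ) : E n →ₗ[ℝ] E n →ₗ[ℝ] ℝ := innerₗ (E n)

@[simp] lemma gB_apply (x y : E n) : gB n x y = ⟪x, y⟫ := rfl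

/-- the two nonnegative forms -/
lemma Y1_nonneg {q : ℕ} (ω : Form n (q + 2)) (x v : E n) :
    0 ≤ MB ω x x * ⟪v, v⟫ - ((q : ℝ) + 1) * MB (ω.curryLeft x) v v := by
  have p1 := pauli q (ω.curryLeft x) v
  rw [real_inner_self_eq_norm_sq]
  have e1 : ip (ω.curryLeft x) (ω.curryLeft x) = MB ω x x := rfl
  have e2 : ip ((ω.curryLeft x).curryLeft v) ((ω.curryLeft x).curryLeft v)
      = MB (ω.curryLeft x) v v := rfl
  rw [e1, e2] at p1
  linarith

lemma Y2_nonneg {q : ℕ} (ω : Form n (q + 2)) (x v : E n) :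
    0 ≤ ‖x‖ ^ 2 * MB ω v v - ((q : ℝ) + 1) * MB (ω.curryLeft x) v v := by
  have p2 := pauli q (ω.curryLeft v) x
  have h5 : ip ((ω.curryLeft v).curryLeft x) ((ω.curryLeft v).curryLeft x)
      = MB (ω.curryLeft x) v v := by
    rw [curry_swap, ip_neg_left, ip_neg_right, neg_neg]; rfl
  rw [h5] at p2
  have e2 : ip (ω.curryLeft v) (ω.curryLeft v) = MB ω v v := rfl
  rw [e2] at p2
  linarith

/-- **Main equation.** -/
theorem main_eq {q : ℕ} (W : CurvTensor n) (hpos : ∀ x y : E n, 0 ≤ W.toFun x y y x)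
    (ω : Form n (q + 2)) (hq : q + 2 < n)
    (h0 : 3 * (rA W.comp ω - ((q : ℝ) + 1) * QA W.comp ω)
      + (((n : ℝ) - (q + 2)) / n) * (scalA W.comp * ip ω ω) = 0) (x v u : E n) :
    MB ω x x * ⟪jac W x v, u⟫ = ((q : ℝ) + 1) * MB (ω.curryLeft x) (jac W x v) u ∧
    ‖x‖ ^ 2 * MB ω (jac W x v) u = ((q : ℝ) + 1) * MB (ω.curryLeft x) (jac W x v) u := by
  have hn : (0 : ℝ) < n := by
    have : 0 < n := by omega
    exact_mod_cast this
  have hα : 0 < ((n : ℝ) - (q + 2)) / n := by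
    apply div_pos _ hn
    have : ((q + 2 : ℕ) : ℝ) < n := by exact_mod_cast hq
    push_cast at this
    linarith
  have hβ : 0 < ((q : ℝ) + 2) / n := by positivity
  have hxv : (vec (fun i => x i) : E n) = x := rfl
  -- components of the Jacobi form
  have hA : ∀ (x : E n) (j k : Fin n),
      ∑ i, ∑ l, x i * x l * W.comp i j k l = JF W x (e j) (e k) := by
    intro x j k
    have h1 : W.toFun x (e j) (e k) x = ∑ i, x i * W.toFun (e i) (e j) (e k) x :=
      CurvTensor.lin_sum (W.L1 (e j) (e k) x) x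
    rw [JF_apply, h1]
    refine Finset.sum_congr rfl fun i _ => ?_
    have h2 : W.toFun (e i) (e j) (e k) x = ∑ l, x l * W.toFun (e i) (e j) (e k) (e l) :=
      CurvTensor.lin_sum (W.L4 (e i) (e j) (e k)) x
    rw [h2, Finset.mul_sum]
    refine Finset.sum_congr rfl fun l _ => ?_
    unfold CurvTensor.comp; ring
  have hposc : ∀ x v : Fin n → ℝ,
      0 ≤ ∑ j, ∑ k, v j * v k * (∑ i, ∑ l, x i * x l * W.comp i j k l) := by
    intro x v
    have h1 := hA (vec x)
    simp only [vec_apply] at h1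
    simp_rw [h1]
    have h2 := bilin_expand (JF W (vec x)) (vec v) (vec v)
    simp only [vec_apply] at h2
    rw [← h2]
    exact hpos _ _
  have hc := core_zero W.isCurv hposc ω hq.le h0 (fun i => x i)
  simp_rw [hA x, Ym_expand, hxv] at hc
  -- the two forms
  set Y1 : E n →ₗ[ℝ] E n →ₗ[ℝ] ℝ :=
    MB ω x x • gB n - ((q : ℝ) + 1) • MB (ω.curryLeft x) with hY1
  set Y2 : E n →ₗ[ℝ] E n →ₗ[ℝ] ℝ :=
    ‖x‖ ^ 2 • MB ω - ((q : ℝ) + 1) • MB (ω.curryLeft x) with hY2
  have hY1a : ∀ v u, Y1 v u = MB ω x x * ⟪v, u⟫ - ((q : ℝ) + 1) * MB (ω.curryLeft x) v u :=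
    fun v u => rfl
  have hY2a : ∀ v u, Y2 v u = ‖x‖ ^ 2 * MB ω v u - ((q : ℝ) + 1) * MB (ω.curryLeft x) v u :=
    fun v u => rfl
  have hY1s : ∀ v u, Y1 v u = Y1 u v := by
    intro v u
    rw [hY1a, hY1a, MB_comm _ v u, real_inner_comm]
  have hY2s : ∀ v u, Y2 v u = Y2 u v := by
    intro v u
    rw [hY2a, hY2a, MB_comm _ v u, MB_comm _ v u]
  have hY1p : ∀ v, 0 ≤ Y1 v v := fun v => by rw [hY1a]; exact Y1_nonneg ω x v
  have hY2p : ∀ v, 0 ≤ Y2 v v := fun v => by rw [hY2a]; exact Y2_nonneg ω x v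
  have hJp : ∀ v, 0 ≤ JF W x v v := fun v => hpos x v
  have hvec : ∀ (B : E n →ₗ[ℝ] E n →ₗ[ℝ] ℝ) (w : Fin n → ℝ),
      ∑ j, ∑ k, w j * w k * B (e j) (e k) = B (vec w) (vec w) := by
    intro B w
    rw [bilin_expand]
    rfl
  have n1 := sum_mul_nonneg (fun j k => JF W x (e j) (e k)) (fun j k => Y1 (e j) (e k))
    (fun j k => JF_symm W x _ _) (fun w => by rw [hvec]; exact hJp _)
    (fun j k => hY1s _ _) (fun w => by rw [hvec]; exact hY1p _)
  have n2 := sum_mul_nonneg (fun j k => JF W x (e j) (e k)) (fun j k => Y2 (e j) (e k))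
    (fun j k => JF_symm W x _ _) (fun w => by rw [hvec]; exact hJp _)
    (fun j k => hY2s _ _) (fun w => by rw [hvec]; exact hY2p _)
  have hαβ : ((n : ℝ) - (q + 2)) / n + ((q : ℝ) + 2) / n = 1 := by
    field_simp; ring
  have hdl : ∀ j k : Fin n, ⟪(e j : E n), e k⟫ = dl j k := by
    intro j k
    simp [e, EuclideanSpace.inner_single_left, dl]
  have hsum : (((n : ℝ) - (q + 2)) / n) * (∑ j, ∑ k, JF W x (e j) (e k) * Y1 (e j) (e k))
      + (((q : ℝ) + 2) / n) * (∑ j, ∑ k, JF W x (e j) (e k) * Y2 (e j) (e k)) = 0 := by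
    rw [← hc, Finset.mul_sum, Finset.mul_sum, ← Finset.sum_add_distrib]
    refine Finset.sum_congr rfl fun j _ => ?_
    rw [Finset.mul_sum, Finset.mul_sum, ← Finset.sum_add_distrib]
    refine Finset.sum_congr rfl fun k _ => ?_
    rw [hY1a, hY2a, hdl]
    have : (((n : ℝ) - (q + 2)) / n) = 1 - ((q : ℝ) + 2) / n := by linarith
    rw [this]
    ring
  have z1 : ∑ j, ∑ k, JF W x (e j) (e k) * Y1 (e j) (e k) = 0 := by
    have a1 := mul_nonneg hα.le n1
    have a2 := mul_nonneg hβ.le n2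
    have : (((n : ℝ) - (q + 2)) / n)
        * (∑ j, ∑ k, JF W x (e j) (e k) * Y1 (e j) (e k)) = 0 := by linarith
    exact (mul_eq_zero.mp this).resolve_left hα.ne'
  have z2 : ∑ j, ∑ k, JF W x (e j) (e k) * Y2 (e j) (e k) = 0 := by
    rw [z1, mul_zero, zero_add] at hsum
    exact (mul_eq_zero.mp hsum).resolve_left hβ.ne'
  have f1 := psd_prod (JF W x) Y1 (JF_symm W x) hJp hY1s hY1p z1 v u
  have f2 := psd_prod (JF W x) Y2 (JF_symm W x) hJp hY2s hY2p z2 v u
  rw [← jac_eq, hY1a] at f1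
  rw [← jac_eq, hY2a] at f2
  exact ⟨by linarith, by linarith⟩

end Pool.Agent.H8.RG
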