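import Pool.Agent.H8.RG.Defs

set_option autoImplicit false

/-!
# Module Cplx: a skew map `T` with `T² x` parallel to `x` is a multiple of a complex structure
-/

namespace Pool.Agent.H8.RG

open Pool.Agent.H61.YP
open scoped BigOperators RealInnerProductSpace

variable {n : ℕ}

theorem Cplx_sum_sq (v : E n) : ∑ i, ⟪v, (e i : E n)⟫ ^ 2 = ‖v‖ ^ 2 := by
  rw [norm_sq]
  refine Finset.sum_congr rfl fun i _ => ?_
  simp [e, EuclideanSpace.inner_single_right]

theorem exists_complex (W : CurvTensor n) (T : E n →ₗ[ℝ] E n)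
    (hT : ∀ x y : E n, ⟪T x, y⟫ = - ⟪x, T y⟫)
    (hW : ∀ x y : E n, W.toFun x y y x = ⟪T x, y⟫ ^ 2) (h0 : T ≠ 0)
    (hTT : ∀ x : E n, T x ≠ 0 → ∃ c : ℝ, x = c • T (T x)) :
    ∃ (c : ℝ) (J : E n →ₗ[ℝ] E n), 0 < c ∧ (∀ x, J (J x) = -x) ∧
      (∀ x y : E n, ⟪J x, J y⟫ = ⟪x, y⟫) ∧
      (∀ x y : E n, W.toFun x y y x = c * ⟪J x, y⟫ ^ 2) ∧ W.scal = c * n := by
  obtain ⟨x0, hx0⟩ : ∃ x, T x ≠ 0 := by
    by_contra h
    push Not at h
    exact h0 (LinearMap.ext fun x => by simpa using h x)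
  -- eigenvalues
  have eig : ∀ x : E n, T x ≠ 0 → ∃ m : ℝ, m ≠ 0 ∧ T (T x) = m • x := fun x hx => by
    obtain ⟨c, hc⟩ := hTT x hx
    have hc0 : c ≠ 0 := fun h => hx (by rw [hc, h, zero_smul, map_zero])
    refine ⟨c⁻¹, inv_ne_zero hc0, ?_⟩
    conv_rhs => rw [hc]
    rw [smul_smul, inv_mul_cancel₀ hc0, one_smul]
  have inj : ∀ z : E n, T z = 0 → z = 0 := fun z hz => by
    by_contra hne
    obtain ⟨m, hm, h1⟩ := eig x0 hx0
    have h2 : T (x0 + z) ≠ 0 := by rw [map_add, hz, add_zero]; exact hx0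
    obtain ⟨m', hm', h3⟩ := eig (x0 + z) h2
    rw [map_add, hz, add_zero, h1, smul_add] at h3
    have h4 : m' • z = (m - m') • x0 := by rw [sub_smul, h3]; abel
    have h5 : (m - m') • T x0 = 0 := by rw [← map_smul, ← h4, map_smul, hz, smul_zero]
    have h6 : m - m' = 0 := (smul_eq_zero.1 h5).resolve_right hx0
    rw [h6, zero_smul] at h4
    exact hne ((smul_eq_zero.1 h4).resolve_left hm')
  have sym : ∀ x y : E n, ⟪T (T x), y⟫ = ⟪x, T (T y)⟫ := fun x y => by
    rw [hT, hT, neg_neg]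
  obtain ⟨m, hm, hm1⟩ := eig x0 hx0
  have hx0' : x0 ≠ 0 := fun h => hx0 (by rw [h, map_zero])
  -- pairs of vectors which are not orthogonal
  have pair : ∀ (x y : E n) (a b : ℝ), T (T x) = a • x → T (T y) = b • y → ⟪x, y⟫ ≠ 0 → a = b :=
    fun x y a b ha hb hxy => by
    have h1 := sym x y
    rw [ha, hb, real_inner_smul_left, real_inner_smul_right] at h1
    exact mul_right_cancel₀ hxy h1
  have all : ∀ y : E n, T (T y) = m • y := fun y => by
    by_cases hy : y = 0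
    · rw [hy, map_zero, map_zero, smul_zero]
    have hTy : T y ≠ 0 := fun h => hy (inj y h)
    obtain ⟨b, _, hb⟩ := eig y hTy
    by_cases hxy : ⟪x0, y⟫ = 0
    · have hs : x0 + y ≠ 0 := fun h => by
        have h1 : ⟪x0, x0 + y⟫ = 0 := by rw [h, inner_zero_right]
        rw [inner_add_right, hxy, add_zero] at h1
        exact hx0' (inner_self_eq_zero.1 h1)
      obtain ⟨d, _, hd⟩ := eig (x0 + y) fun h => hs (inj _ h)
      have e1 : m = d := pair x0 (x0 + y) m d hm1 hd (by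
        rw [inner_add_right, hxy, add_zero]
        exact fun h => hx0' (inner_self_eq_zero.1 h))
      have e2 : b = d := pair y (x0 + y) b d hb hd (by
        rw [inner_add_right, real_inner_comm, hxy, zero_add]
        exact fun h => hy (inner_self_eq_zero.1 h))
      rw [hb, e2, ← e1]
    · rw [hb, pair x0 y m b hm1 hb hxy]
  -- the sign
  have hneg : 0 < -m := by
    have h1 : m * ‖x0‖ ^ 2 = - ‖T x0‖ ^ 2 := by
      rw [← real_inner_self_eq_norm_sq, ← real_inner_self_eq_norm_sq, ← real_inner_smul_left,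
        ← hm1, hT (T x0) x0]
    have h2 : 0 < ‖x0‖ ^ 2 := by positivity
    have h3 : 0 < ‖T x0‖ ^ 2 := by positivity
    by_contra h
    push Not at h
    have : 0 ≤ m * ‖x0‖ ^ 2 := mul_nonneg (by linarith) h2.le
    linarith
  set μ : ℝ := -m with hμ
  have hsq : √μ ^ 2 = μ := Real.sq_sqrt hneg.le
  have hs0 : √μ ≠ 0 := fun h => by rw [h] at hsq; simp at hsq; linarith
  have hJJ : ∀ x y : E n, ⟪T x, T y⟫ = μ * ⟪x, y⟫ := fun x y => by
    rw [hT, all, real_inner_smul_right, hμ]; ring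
  refine ⟨μ, (√μ)⁻¹ • T, hneg, fun x => ?_, fun x y => ?_, fun x y => ?_, ?_⟩
  · rw [LinearMap.smul_apply, LinearMap.smul_apply, map_smul, all, smul_smul, smul_smul]
    have : (√μ)⁻¹ * ((√μ)⁻¹ * m) = -1 := by
      have h1 : m = - √μ ^ 2 := by rw [hsq, hμ]; ring
      rw [h1]
      field_simp
    rw [mul_assoc, this, neg_one_smul]
  · rw [LinearMap.smul_apply, LinearMap.smul_apply, real_inner_smul_left, real_inner_smul_right,
      hJJ]
    have : (√μ)⁻¹ * ((√μ)⁻¹ * (μ * ⟪x, y⟫)) = (√μ)⁻¹ ^ 2 * μ * ⟪x, y⟫ := by ring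
    rw [this, inv_pow, hsq, inv_mul_cancel₀ hneg.ne', one_mul]
  · rw [hW, LinearMap.smul_apply, real_inner_smul_left, mul_pow, inv_pow, hsq, ← mul_assoc,
      mul_inv_cancel₀ hneg.ne', one_mul]
  · unfold CurvTensor.scal
    have h1 : ∀ i : Fin n, ∑ j, W.toFun (e i) (e j) (e j) (e i) = μ := fun i => by
      simp_rw [hW]
      rw [Cplx_sum_sq, ← real_inner_self_eq_norm_sq, hJJ]
      simp [e]
    simp_rw [h1]
    simp [mul_comm]

end Pool.Agent.H8.RG
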