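import Pool.Agent.H61.YP.Main

set_option autoImplicit false

/-!
# Rigidity of the pinching bound for the Weitzenböck operator: definitions

`Van φ y`: the form `φ` vanishes on `y^⊥`. `jac W x v`: the Jacobi operator, `⟨jac W x v, u⟩ =
W x v u x`. `resid R k`: the curvature tensor `R - k Id`.
-/

namespace Pool.Agent.H8.RG

open Pool.Agent.H61.YP
open scoped BigOperators RealInnerProductSpace

variable {n : ℕ}

/-- `φ` vanishes on the orthogonal complement of `y` -/
def Van {p : ℕ} (φ : Form n p) (y : E n) : Prop :=
  ∀ v : Fin p → E n, (∀ k, ⟪v k, y⟫ = 0) → φ v = 0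

/-- Jacobi operator: `⟨jac W x v, u⟩ = W x v u x` -/
noncomputable def jac (W : CurvTensor n) (x v : E n) : E n :=
  ∑ i, W.toFun x v (e i) x • (e i : E n)

/-- linear form represented by a vector -/
lemma inner_sum_e (L : E n →ₗ[ℝ] ℝ) (u : E n) : ⟪∑ i, L (e i) • (e i : E n), u⟫ = L u := by
  rw [sum_inner, CurvTensor.lin_sum L u]
  refine Finset.sum_congr rfl fun i _ => ?_
  rw [inner_smul_left]
  simp [e, EuclideanSpace.inner_single_left, mul_comm]

lemma inner_jac (W : CurvTensor n) (x v u : E n) : ⟪jac W x v, u⟫ = W.toFun x v u x :=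
  inner_sum_e (W.L3 x v x) u

lemma jac_symm (W : CurvTensor n) (x v u : E n) : ⟪jac W x v, u⟫ = ⟪jac W x u, v⟫ := by
  rw [inner_jac, inner_jac, W.pair, W.anti, W.pair, W.anti, neg_neg, W.pair]

lemma jac_add (W : CurvTensor n) (x v v' : E n) : jac W x (v + v') = jac W x v + jac W x v' := by
  refine ext_inner_right ℝ fun u => ?_
  rw [inner_add_left, inner_jac, inner_jac, inner_jac, W.add_two]

lemma jac_smul (W : CurvTensor n) (c : ℝ) (x v : E n) : jac W x (c • v) = c • jac W x v := by
  refine ext_inner_right ℝ fun u => ?_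
  rw [inner_smul_left, inner_jac, inner_jac, W.smul_two]
  simp

/-- the curvature tensor `R - k Id` -/
noncomputable def resid (R : CurvTensor n) (k : ℝ) : CurvTensor n where
  toFun x y z u := R.toFun x y z u - k * (⟪y, z⟫ * ⟪x, u⟫ - ⟪x, z⟫ * ⟪y, u⟫)
  add_left x x' y z u := by
    rw [R.add_left, inner_add_left, inner_add_left]; ring
  smul_left a x y z u := by
    rw [R.smul_left, real_inner_smul_left, real_inner_smul_left]; ring
  anti x y z u := by
    rw [R.anti x y]; ring
  pair x y z u := by
    rw [R.pair x y, real_inner_comm z y, real_inner_comm u x, real_inner_comm z x,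
      real_inner_comm u y]
    ring
  bianchi x y z u := by
    have h := R.bianchi x y z u
    rw [real_inner_comm x z, real_inner_comm x y, real_inner_comm y z]
    linear_combination h

lemma resid_comp (R : CurvTensor n) (k : ℝ) : (resid R k).comp = R.wA k := by
  funext i j l m
  unfold CurvTensor.comp CurvTensor.wA resid dl
  simp [e, EuclideanSpace.inner_single_left, CurvTensor.comp, eq_comm]

end Pool.Agent.H8.RG
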