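import Pool.Agent.H8.RG.Defs

set_option autoImplicit false

/-!
# The equality case of `(q+1) |y ⌟ φ|² ≤ |y|² |φ|²`
-/

namespace Pool.Agent.H8.RG

open Pool.Agent.H61.YP
open scoped BigOperators RealInnerProductSpace

variable {n : ℕ}

lemma ip_zero_left {q : ℕ} (ψ : Form n q) : ip (0 : Form n q) ψ = 0 := by simp [ip]

/-- the vectors `‖y‖² e_i - y_i y` are orthogonal to `y` -/
lemma vperp (y : E n) (i : Fin n) : ⟪‖y‖ ^ 2 • (e i : E n) - y i • y, y⟫ = 0 := by
  rw [inner_sub_left, real_inner_smul_left, real_inner_smul_left, real_inner_self_eq_norm_sq]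
  simp [e, EuclideanSpace.inner_single_left]
  ring

/-- and span `y^⊥` -/
lemma perp_expand (y w : E n) (h : ⟪w, y⟫ = 0) :
    ‖y‖ ^ 2 • w = ∑ i, w i • (‖y‖ ^ 2 • (e i : E n) - y i • y) := by
  have h1 : ∑ i, w i • (‖y‖ ^ 2 • (e i : E n)) = ‖y‖ ^ 2 • w := by
    conv_rhs => rw [← sum_coord w]
    rw [Finset.smul_sum]
    refine Finset.sum_congr rfl fun i _ => ?_
    rw [smul_comm]
  have h2 : ∑ i, w i • (y i • y) = 0 := by
    have h3 : ∑ i, w i * y i = 0 := by
      rw [← h]
      simp [PiLp.inner_apply, mul_comm]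
    have : ∀ i, w i • (y i • y) = (w i * y i) • y := fun i => by rw [smul_smul]
    simp_rw [this]
    rw [← Finset.sum_smul, h3, zero_smul]
  simp only [smul_sub]
  rw [Finset.sum_sub_distrib, h1, h2, sub_zero]

/-- the identity behind the inductive step -/
lemma step_sum {q : ℕ} (φ : Form n (q + 2)) (y : E n) :
    ∑ i, (‖y‖ ^ 2 * MB φ (‖y‖ ^ 2 • (e i : E n) - y i • y) (‖y‖ ^ 2 • (e i : E n) - y i • y)
      - ((q : ℝ) + 1) * MB (φ.curryLeft y) (‖y‖ ^ 2 • (e i : E n) - y i • y)
        (‖y‖ ^ 2 • (e i : E n) - y i • y))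
      = ‖y‖ ^ 4 * (‖y‖ ^ 2 * ip φ φ - ((q : ℝ) + 2) * ip (φ.curryLeft y) (φ.curryLeft y)) := by
  rw [Finset.sum_sub_distrib, ← Finset.mul_sum, ← Finset.mul_sum,
    trace_sub (MB φ) (MB_comm φ) y, trace_sub _ (MB_comm _) y, trace_MB, trace_MB]
  have : MB (φ.curryLeft y) y y = 0 := by
    rw [MB_apply, AlternatingMap.curryLeft_same, ip_zero_left]
  rw [this, MB_apply]
  ring

lemma MB_swap {q : ℕ} (φ : Form n (q + 2)) (y v : E n) :
    MB (φ.curryLeft y) v v
      = ip ((φ.curryLeft v).curryLeft y) ((φ.curryLeft v).curryLeft y) := by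
  rw [curry_swap φ v y, ip_neg_left, ip_neg_right, neg_neg]; rfl

lemma form_one_expand (φ : Form n 1) (y : E n) (v : Fin 0 → E n) :
    φ.curryLeft y v = ∑ i, y i * φ.curryLeft (e i) v := by
  let L : E n →ₗ[ℝ] ℝ :=
    { toFun := fun x => φ.curryLeft x v
      map_add' := fun x y => by rw [map_add]; rfl
      map_smul' := fun c x => by rw [map_smul]; rfl }
  exact CurvTensor.lin_sum L y

lemma ip_zero_form (ψ : Form n 0) (v : Fin 0 → E n) : ip ψ ψ = ψ v ^ 2 := by
  unfold ip
  rw [Fintype.sum_unique, sq]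
  congr 1 <;> congr 1 <;> ext k <;> exact k.elim0

/-- coefficients of a one-form -/
lemma one_data (φ : Form n 1) (y : E n) (v : Fin 0 → E n) :
    ip (φ.curryLeft y) (φ.curryLeft y) = (∑ i, y i * φ.curryLeft (e i) v) ^ 2
      ∧ ip φ φ = ∑ i, (φ.curryLeft (e i) v) ^ 2
      ∧ ∀ w : Fin 1 → E n, φ w = ∑ i, w 0 i * φ.curryLeft (e i) v := by
  refine ⟨?_, ?_, ?_⟩
  · rw [ip_zero_form _ v, form_one_expand]
  · rw [ip_succ]
    exact Finset.sum_congr rfl fun i _ => ip_zero_form _ v
  · intro w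
    rw [← form_one_expand, AlternatingMap.curryLeft_apply_apply]
    congr 1
    ext k
    refine Fin.cases ?_ (fun k => k.elim0) k
    simp [Matrix.vecCons]

lemma inner_coord (w y : E n) : ⟪w, y⟫ = ∑ i, w i * y i := by
  simp [PiLp.inner_apply, mul_comm]

lemma lagrange_zero (y c : Fin n → ℝ) :
    ∑ i, ((∑ j, y j ^ 2) * c i - (∑ j, y j * c j) * y i) ^ 2
      = (∑ j, y j ^ 2) * ((∑ j, y j ^ 2) * (∑ j, c j ^ 2) - (∑ j, y j * c j) ^ 2) := by
  set Y := ∑ j, y j ^ 2 with hY
  set s := ∑ j, y j * c j with hs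
  have h1 : ∀ i, (Y * c i - s * y i) ^ 2
      = Y ^ 2 * c i ^ 2 - 2 * Y * s * (y i * c i) + s ^ 2 * y i ^ 2 := fun i => by ring
  simp_rw [h1]
  rw [Finset.sum_add_distrib, Finset.sum_sub_distrib, ← Finset.mul_sum, ← Finset.mul_sum,
    ← Finset.mul_sum, ← hY, ← hs]
  ring

/-- **Equality case.** -/
theorem van_of_eq : ∀ (q : ℕ) (φ : Form n (q + 1)) (y : E n), y ≠ 0 →
    ((q : ℝ) + 1) * ip (φ.curryLeft y) (φ.curryLeft y) = ‖y‖ ^ 2 * ip φ φ → Van φ y := by
  intro q
  induction q with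
  | zero =>
    intro φ y hy h w hw
    obtain ⟨h1, h2, h3⟩ := one_data φ y ![]
    set c : Fin n → ℝ := fun i => φ.curryLeft (e i) ![] with hc
    have hY : ‖y‖ ^ 2 = ∑ i, y i ^ 2 := norm_sq y
    have hYp : 0 < ∑ i, y i ^ 2 := by rw [← hY]; positivity
    have h4 : ∑ i, ((∑ j, y j ^ 2) * c i - (∑ j, y j * c j) * y i) ^ 2 = 0 := by
      rw [lagrange_zero (fun i => y i) c]
      rw [h1, h2, hY] at h
      have h5 : (∑ j, y j ^ 2) * (∑ j, c j ^ 2) - (∑ j, y j * c j) ^ 2 = 0 := by
        push_cast at h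
        simp only [hc]
        linarith
      rw [h5, mul_zero]
    have h6 := (Finset.sum_eq_zero_iff_of_nonneg
      (fun i _ => sq_nonneg ((∑ j, y j ^ 2) * c i - (∑ j, y j * c j) * y i))).mp h4
    have h7 : ∀ i, (∑ j, y j ^ 2) * c i = (∑ j, y j * c j) * y i := fun i => by
      have := pow_eq_zero_iff (two_ne_zero) |>.mp (h6 i (Finset.mem_univ i))
      linarith
    have h8 : (∑ j, y j ^ 2) * φ w = 0 := by
      rw [h3 w, Finset.mul_sum]
      have h9 : ∀ i, (∑ j, y j ^ 2) * (w 0 i * φ.curryLeft (e i) ![])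
          = (∑ j, y j * c j) * (w 0 i * y i) := fun i => by
        have := h7 i
        simp only [hc] at this ⊢
        linear_combination (w 0 i) * this
      simp_rw [h9]
      rw [← Finset.mul_sum, ← inner_coord, hw 0, mul_zero]
    exact (mul_eq_zero.mp h8).resolve_left hYp.ne'
  | succ q ih =>
    intro φ y hy h w hw
    have hy2 : 0 < ‖y‖ ^ 2 := by positivity
    set v : Fin n → E n := fun i => ‖y‖ ^ 2 • (e i : E n) - y i • y with hv
    have h0 : ∀ i, 0 ≤ ‖y‖ ^ 2 * MB φ (v i) (v i)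
        - ((q : ℝ) + 1) * MB (φ.curryLeft y) (v i) (v i) := by
      intro i
      have h1 := pauli q (φ.curryLeft (v i)) y
      rw [MB_swap]
      have h2 : MB φ (v i) (v i) = ip (φ.curryLeft (v i)) (φ.curryLeft (v i)) := rfl
      rw [h2]
      linarith
    have hs := step_sum φ y
    have hz : ∑ i, (‖y‖ ^ 2 * MB φ (v i) (v i)
        - ((q : ℝ) + 1) * MB (φ.curryLeft y) (v i) (v i)) = 0 := by
      rw [hs]
      have : ((q : ℝ) + 2) * ip (φ.curryLeft y) (φ.curryLeft y) = ‖y‖ ^ 2 * ip φ φ := by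
        rw [← h]; push_cast; ring
      rw [this]; ring
    have hi := (Finset.sum_eq_zero_iff_of_nonneg (fun i _ => h0 i)).mp hz
    have hV : ∀ i, Van (φ.curryLeft (v i)) y := by
      intro i
      refine ih _ y hy ?_
      have h1 := hi i (Finset.mem_univ i)
      rw [MB_swap] at h1
      have h2 : MB φ (v i) (v i) = ip (φ.curryLeft (v i)) (φ.curryLeft (v i)) := rfl
      rw [h2] at h1
      linarith
    -- expand the first argument
    have hw0 := perp_expand y (w 0) (hw 0)
    have h3 : ‖y‖ ^ 2 * φ w = 0 := by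
      have h4 : φ w = φ.curryLeft (w 0) (fun k => w k.succ) := by
        rw [AlternatingMap.curryLeft_apply_apply]
        congr 1
        ext k
        refine Fin.cases ?_ (fun k => ?_) k <;> simp [Matrix.vecCons]
      have h5 : ‖y‖ ^ 2 * φ w = φ.curryLeft (‖y‖ ^ 2 • w 0) (fun k => w k.succ) := by
        rw [h4, map_smul]; rfl
      rw [h5, hw0, map_sum]
      have h6 : ∀ (s : Finset (Fin n)), (∑ i ∈ s, φ.curryLeft (w 0 i • v i))
          (fun k => w k.succ) = 0 := by
        intro s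
        induction s using Finset.induction_on with
        | empty => simp
        | insert a s ha ihs =>
          rw [Finset.sum_insert ha, AlternatingMap.add_apply, ihs, add_zero, map_smul,
            AlternatingMap.smul_apply, hV a (fun k => w k.succ) (fun k => hw k.succ)]
          simp
      exact h6 Finset.univ
    rcases mul_eq_zero.mp h3 with h7 | h7
    · exact absurd h7 hy2.ne'
    · exact h7

/-- **Converse.** -/
theorem eq_of_van : ∀ (q : ℕ) (φ : Form n (q + 1)) (y : E n), Van φ y →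
    ((q : ℝ) + 1) * ip (φ.curryLeft y) (φ.curryLeft y) = ‖y‖ ^ 2 * ip φ φ := by
  intro q
  induction q with
  | zero =>
    intro φ y h
    by_cases hy : y = 0
    · subst hy
      have : φ.curryLeft (0 : E n) = 0 := map_zero _
      rw [this, ip_zero_left]
      simp
    obtain ⟨h1, h2, h3⟩ := one_data φ y ![]
    set c : Fin n → ℝ := fun i => φ.curryLeft (e i) ![] with hc
    have hY : ‖y‖ ^ 2 = ∑ i, y i ^ 2 := norm_sq y
    have hYp : 0 < ∑ i, y i ^ 2 := by rw [← hY]; positivity
    have h7 : ∀ i, (∑ j, y j ^ 2) * c i = (∑ j, y j * c j) * y i := fun i => by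
      have h8 := h (fun _ => ‖y‖ ^ 2 • (e i : E n) - y i • y) (fun _ => vperp y i)
      rw [h3] at h8
      have h9 : ∑ j, (‖y‖ ^ 2 • (e i : E n) - y i • y) j * φ.curryLeft (e j) ![]
          = ‖y‖ ^ 2 * c i - y i * ∑ j, y j * c j := by
        rw [Finset.mul_sum]
        have : ∀ j, (‖y‖ ^ 2 • (e i : E n) - y i • y) j * φ.curryLeft (e j) ![]
            = (if j = i then ‖y‖ ^ 2 * c j else 0) - y i * (y j * c j) := by
          intro j
          simp only [hc, e, PiLp.sub_apply, PiLp.smul_apply, smul_eq_mul,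
            EuclideanSpace.single_apply]
          split_ifs <;> ring
        simp_rw [this]
        rw [Finset.sum_sub_distrib]
        simp
      rw [h9, hY] at h8
      linarith
    have h4 : ∑ i, ((∑ j, y j ^ 2) * c i - (∑ j, y j * c j) * y i) ^ 2 = 0 :=
      Finset.sum_eq_zero fun i _ => by rw [h7 i]; ring
    rw [lagrange_zero (fun i => y i) c] at h4
    have h5 := (mul_eq_zero.mp h4).resolve_left hYp.ne'
    rw [h1, h2, hY]
    simp only [hc] at h5
    push_cast
    linarith
  | succ q ih =>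
    intro φ y h
    by_cases hy : y = 0
    · subst hy
      have : φ.curryLeft (0 : E n) = 0 := map_zero _
      rw [this, ip_zero_left]
      simp
    have hy2 : 0 < ‖y‖ ^ 4 := by positivity
    have hs := step_sum φ y
    have hz : ∑ i, (‖y‖ ^ 2 * MB φ (‖y‖ ^ 2 • (e i : E n) - y i • y)
        (‖y‖ ^ 2 • (e i : E n) - y i • y)
        - ((q : ℝ) + 1) * MB (φ.curryLeft y) (‖y‖ ^ 2 • (e i : E n) - y i • y)
          (‖y‖ ^ 2 • (e i : E n) - y i • y)) = 0 := by
      refine Finset.sum_eq_zero fun i _ => ?_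
      have h1 := ih (φ.curryLeft (‖y‖ ^ 2 • (e i : E n) - y i • y)) y (by
        intro w hw
        rw [AlternatingMap.curryLeft_apply_apply]
        refine h _ fun k => ?_
        refine Fin.cases ?_ (fun k => ?_) k
        · simpa [Matrix.vecCons] using vperp y i
        · simpa [Matrix.vecCons] using hw k)
      rw [MB_swap, MB_apply]
      linarith
    rw [hz] at hs
    have h2 := (mul_eq_zero.mp hs.symm).resolve_left hy2.ne'
    push_cast
    linarith

end Pool.Agent.H8.RG
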