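import Pool.Agent.H8.RG.EqP
import Pool.Agent.H8.RG.CoreEq

set_option autoImplicit false

/-!
# The key lemma: `y` and `A_x v` are parallel
-/

namespace Pool.Agent.H8.RG

open Pool.Agent.H61.YP
open scoped BigOperators RealInnerProductSpace

variable {n : ℕ}

/-- A form that vanishes on `K` and whose contraction with `z` vanishes on `K` vanishes on
`K + ℝ z`. -/
lemma vanish_ext (K : Submodule ℝ (E n)) (z : E n) : ∀ (m : ℕ) (ψ : Form n (m + 1)),
    (∀ v : Fin (m + 1) → E n, (∀ k, v k ∈ K) → ψ v = 0) →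
    (∀ v : Fin m → E n, (∀ k, v k ∈ K) → ψ.curryLeft z v = 0) →
    ∀ w : Fin (m + 1) → E n, (∀ k, ∃ b : ℝ, w k - b • z ∈ K) → ψ w = 0 := by
  have hsplit : ∀ (m : ℕ) (ψ : Form n (m + 1)) (w : Fin (m + 1) → E n) (b : ℝ),
      ψ w = b * ψ.curryLeft z (fun k => w k.succ)
        + ψ.curryLeft (w 0 - b • z) (fun k => w k.succ) := by
    intro m ψ w b
    have h1 : ψ w = ψ.curryLeft (w 0) (fun k => w k.succ) := by
      rw [AlternatingMap.curryLeft_apply_apply]
      congr 1
      ext k
      refine Fin.cases ?_ (fun k => ?_) k <;> simp [Matrix.vecCons]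
    have h2 : w 0 = b • z + (w 0 - b • z) := by abel
    rw [h1]
    conv_lhs => rw [h2, map_add, map_smul, AlternatingMap.add_apply, AlternatingMap.smul_apply,
      smul_eq_mul]
  intro m
  induction m with
  | zero =>
    intro ψ h1 h2 w hw
    obtain ⟨b, hb⟩ := hw 0
    rw [hsplit 0 ψ w b, h2 _ (fun k => k.elim0), mul_zero, zero_add,
      AlternatingMap.curryLeft_apply_apply]
    refine h1 _ fun k => ?_
    refine Fin.cases ?_ (fun k => k.elim0) k
    simpa [Matrix.vecCons] using hb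
  | succ m ih =>
    intro ψ h1 h2 w hw
    obtain ⟨b, hb⟩ := hw 0
    rw [hsplit (m + 1) ψ w b]
    have e1 : ψ.curryLeft z (fun k => w k.succ) = 0 := by
      refine ih (ψ.curryLeft z) h2 ?_ _ (fun k => hw k.succ)
      intro v hv
      rw [AlternatingMap.curryLeft_same]; rfl
    have e2 : ψ.curryLeft (w 0 - b • z) (fun k => w k.succ) = 0 := by
      refine ih (ψ.curryLeft (w 0 - b • z)) ?_ ?_ _ (fun k => hw k.succ)
      · intro v hv
        rw [AlternatingMap.curryLeft_apply_apply]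
        refine h1 _ fun k => ?_
        refine Fin.cases ?_ (fun k => ?_) k
        · simpa [Matrix.vecCons] using hb
        · simpa [Matrix.vecCons] using hv k
      · intro v hv
        rw [curry_swap, AlternatingMap.neg_apply, AlternatingMap.curryLeft_apply_apply,
          h2, neg_zero]
        intro k
        refine Fin.cases ?_ (fun k => ?_) k
        · simpa [Matrix.vecCons] using hb
        · simpa [Matrix.vecCons] using hv k
    rw [e1, e2, mul_zero, add_zero]

/-- projection to `{y, a}^⊥`, without division -/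
noncomputable def proj2 (y a w : E n) : E n :=
  (‖y‖ ^ 2 * ‖a‖ ^ 2 - ⟪y, a⟫ ^ 2) • w
    - (⟪w, y⟫ * ‖a‖ ^ 2 - ⟪w, a⟫ * ⟪y, a⟫) • y
    - (⟪w, a⟫ * ‖y‖ ^ 2 - ⟪w, y⟫ * ⟪y, a⟫) • a

lemma proj2_left (y a w : E n) : ⟪proj2 y a w, y⟫ = 0 := by
  unfold proj2
  rw [inner_sub_left, inner_sub_left, real_inner_smul_left, real_inner_smul_left,
    real_inner_smul_left, real_inner_self_eq_norm_sq, real_inner_comm y a]
  ring

lemma proj2_right (y a w : E n) : ⟪proj2 y a w, a⟫ = 0 := by
  unfold proj2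
  rw [inner_sub_left, inner_sub_left, real_inner_smul_left, real_inner_smul_left,
    real_inner_smul_left, real_inner_self_eq_norm_sq]
  ring

lemma proj2_perp (y a w : E n) (h1 : ⟪w, y⟫ = 0) (h2 : ⟪w, a⟫ = 0) :
    proj2 y a w = (‖y‖ ^ 2 * ‖a‖ ^ 2 - ⟪y, a⟫ ^ 2) • w := by
  unfold proj2
  rw [h1, h2]
  simp

lemma proj2_zero (y w : E n) : proj2 y 0 w = 0 := by
  unfold proj2
  simp

lemma continuous_form {m : ℕ} (ψ : Form n m) (f : ℝ → Fin m → E n)
    (hf : ∀ k, Continuous fun t => f t k) : Continuous fun t => ψ (f t) := by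
  have h : ∀ t, ψ (f t) = ∑ J : Fin m → Fin n, (∏ k, f t k (J k)) * ψ (fun k => e (J k)) := by
    intro t
    have h1 : f t = fun k => ∑ i, f t k i • (e i : E n) := by
      funext k
      rw [sum_coord]
    have h2 : ψ (fun k => ∑ i, f t k i • (e i : E n))
        = ∑ J : Fin m → Fin n, ψ (fun k => f t k (J k) • (e (J k) : E n)) :=
      ψ.toMultilinearMap.map_sum (fun k i => f t k i • (e i : E n))
    rw [h1, h2]
    refine Finset.sum_congr rfl fun J _ => ?_
    have h3 := ψ.toMultilinearMap.map_smul_univ (fun k => f t k (J k)) (fun k => (e (J k) : E n))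
    simp only [AlternatingMap.coe_multilinearMap, smul_eq_mul] at h3
    rw [h3, ← h1]
  simp_rw [h]
  refine continuous_finsetSum _ fun J _ => ?_
  refine Continuous.mul ?_ continuous_const
  refine continuous_finsetProd _ fun k _ => ?_
  exact (PiLp.continuous_apply 2 (fun _ : Fin n => ℝ) (J k)).comp (hf k)

lemma jac_line (W : CurvTensor n) (x u v : E n) (t : ℝ) :
    jac W (x + t • u) v
      = jac W x v + t • (∑ i, (W.toFun x v (e i) u + W.toFun u v (e i) x) • (e i : E n))
        + t ^ 2 • jac W u v := by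
  unfold jac
  rw [Finset.smul_sum, Finset.smul_sum, ← Finset.sum_add_distrib, ← Finset.sum_add_distrib]
  refine Finset.sum_congr rfl fun i _ => ?_
  rw [smul_smul, smul_smul, ← add_smul, ← add_smul]
  congr 1
  simp only [W.add_left, W.smul_left, W.add_four, W.smul_four]
  ring

/-- independence of `y` and `a`: positive Gram determinant -/
lemma gram_pos (y a : E n) (ha : a ≠ 0) (h : ∀ c : ℝ, y ≠ c • a) :
    0 < ‖y‖ ^ 2 * ‖a‖ ^ 2 - ⟪y, a⟫ ^ 2 := by
  have ha2 : 0 < ‖a‖ ^ 2 := by positivity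
  have hz : ‖a‖ ^ 2 • y - ⟪y, a⟫ • a ≠ 0 := by
    intro h0
    apply h (⟪y, a⟫ / ‖a‖ ^ 2)
    have h1 : ‖a‖ ^ 2 • y = ⟪y, a⟫ • a := sub_eq_zero.mp h0
    have h2 : (‖a‖ ^ 2)⁻¹ • (‖a‖ ^ 2 • y) = y := by
      rw [smul_smul, inv_mul_cancel₀ ha2.ne', one_smul]
    calc y = (‖a‖ ^ 2)⁻¹ • (‖a‖ ^ 2 • y) := h2.symm
      _ = (⟪y, a⟫ / ‖a‖ ^ 2) • a := by rw [h1, smul_smul, div_eq_inv_mul]
  have h3 : 0 < ‖‖a‖ ^ 2 • y - ⟪y, a⟫ • a‖ ^ 2 := by positivity
  have h4 : ‖‖a‖ ^ 2 • y - ⟪y, a⟫ • a‖ ^ 2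
      = ‖a‖ ^ 2 * (‖y‖ ^ 2 * ‖a‖ ^ 2 - ⟪y, a⟫ ^ 2) := by
    rw [← real_inner_self_eq_norm_sq]
    simp only [inner_sub_left, inner_sub_right, real_inner_smul_left, real_inner_smul_right]
    rw [real_inner_self_eq_norm_sq, real_inner_self_eq_norm_sq, real_inner_comm y a]
    ring
  rw [h4] at h3
  exact (pos_iff_pos_of_mul_pos h3).mp ha2

/-- **Key lemma.** -/
theorem key {q : ℕ} (W : CurvTensor n) (ω : Form n (q + 2)) (c : ℝ) (hc : 0 < c)
    (hM : ∀ x y : E n, MB ω x y = c * ⟪x, y⟫) (hq : q + 2 < n)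
    (hD : ∀ x v : E n, jac W x v ≠ 0 → Van (ω.curryLeft x) (jac W x v))
    (x v y : E n) (ha : jac W x v ≠ 0) (hy : Van (ω.curryLeft x) y) :
    ∃ r : ℝ, y = r • jac W x v := by
  by_contra hcon
  push Not at hcon
  set a : E n := jac W x v with had
  have hgram := gram_pos y a ha hcon
  -- first: `ω(u, v's) = 0` for all `u` and all `v's` orthogonal to `y` and `a`
  have hstep : ∀ (u : E n) (w : Fin (q + 1) → E n), (∀ k, ⟪w k, y⟫ = 0) →
      (∀ k, ⟪w k, a⟫ = 0) → ω.curryLeft u w = 0 := by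
    intro u w h1 h2
    have hzero : ∀ t : ℝ, t ≠ 0 →
        ω.curryLeft u (fun k => proj2 y (jac W (x + t • u) v) (w k)) = 0 := by
      intro t ht
      by_cases hat : jac W (x + t • u) v = 0
      · rw [hat]
        exact (ω.curryLeft u).map_coord_zero (0 : Fin (q + 1)) (proj2_zero y _)
      · have g1 := hD (x + t • u) v hat (fun k => proj2 y (jac W (x + t • u) v) (w k))
          (fun k => proj2_right _ _ _)
        have g2 := hy (fun k => proj2 y (jac W (x + t • u) v) (w k))
          (fun k => proj2_left _ _ _)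
        rw [map_add, map_smul, AlternatingMap.add_apply, AlternatingMap.smul_apply, g2,
          zero_add, smul_eq_mul] at g1
        exact (mul_eq_zero.mp g1).resolve_left ht
    have hcont : Continuous fun t : ℝ =>
        ω.curryLeft u (fun k => proj2 y (jac W (x + t • u) v) (w k)) := by
      refine continuous_form _ _ fun k => ?_
      have hj : Continuous fun t : ℝ => jac W (x + t • u) v := by
        simp_rw [jac_line]
        fun_prop
      unfold proj2
      fun_prop
    have hz : (fun t : ℝ => ω.curryLeft u (fun k => proj2 y (jac W (x + t • u) v) (w k)))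
        = fun _ => 0 := by
      refine hcont.ext_on (s := {0}ᶜ) (dense_compl_singleton (0 : ℝ)) continuous_const ?_
      intro t ht
      exact hzero t ht
    have h0 := congrFun hz 0
    simp only [zero_smul, add_zero] at h0
    rw [← had] at h0
    have h3 : (fun k => proj2 y a (w k))
        = fun k => (fun _ : Fin (q + 1) => (‖y‖ ^ 2 * ‖a‖ ^ 2 - ⟪y, a⟫ ^ 2)) k • w k := by
      funext k
      exact proj2_perp y a (w k) (h1 k) (h2 k)
    rw [h3] at h0
    have h4 := (ω.curryLeft u).toMultilinearMap.map_smul_univ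
      (fun _ : Fin (q + 1) => (‖y‖ ^ 2 * ‖a‖ ^ 2 - ⟪y, a⟫ ^ 2)) w
    simp only [AlternatingMap.coe_multilinearMap, smul_eq_mul] at h4
    rw [h4] at h0
    refine (mul_eq_zero.mp h0).resolve_left ?_
    exact Finset.prod_ne_zero_iff.mpr fun _ _ => hgram.ne'
  -- second: `ω` vanishes on `a^⊥`
  have hVan : Van ω a := by
    intro w hw
    set z : E n := ‖a‖ ^ 2 • y - ⟪y, a⟫ • a with hz
    have ha2 : 0 < ‖a‖ ^ 2 := by positivity
    have hza : ⟪z, a⟫ = 0 := by
      rw [hz, inner_sub_left, real_inner_smul_left, real_inner_smul_left,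
        real_inner_self_eq_norm_sq]
      ring
    have hzy : ⟪z, y⟫ = ‖y‖ ^ 2 * ‖a‖ ^ 2 - ⟪y, a⟫ ^ 2 := by
      rw [hz, inner_sub_left, real_inner_smul_left, real_inner_smul_left,
        real_inner_self_eq_norm_sq, real_inner_comm y a]
      ring
    let K : Submodule ℝ (E n) :=
      { carrier := {w | ⟪w, y⟫ = 0 ∧ ⟪w, a⟫ = 0}
        add_mem' := by
          rintro u v ⟨h1, h2⟩ ⟨h3, h4⟩
          exact ⟨by rw [inner_add_left, h1, h3, add_zero],
            by rw [inner_add_left, h2, h4, add_zero]⟩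
        zero_mem' := ⟨inner_zero_left _, inner_zero_left _⟩
        smul_mem' := by
          rintro r u ⟨h1, h2⟩
          exact ⟨by rw [real_inner_smul_left, h1, mul_zero],
            by rw [real_inner_smul_left, h2, mul_zero]⟩ }
    refine vanish_ext K z (q + 1) ω ?_ ?_ w ?_
    · intro v hv
      have h1 : ω v = ω.curryLeft (v 0) (fun k => v k.succ) := by
        rw [AlternatingMap.curryLeft_apply_apply]
        congr 1
        ext k
        refine Fin.cases ?_ (fun k => ?_) k <;> simp [Matrix.vecCons]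
      rw [h1]
      exact hstep _ _ (fun k => (hv k.succ).1) (fun k => (hv k.succ).2)
    · intro v hv
      exact hstep _ _ (fun k => (hv k).1) (fun k => (hv k).2)
    · intro k
      refine ⟨⟪w k, y⟫ / (‖y‖ ^ 2 * ‖a‖ ^ 2 - ⟪y, a⟫ ^ 2), ?_, ?_⟩
      · rw [inner_sub_left, real_inner_smul_left, hzy]
        field_simp
        ring
      · rw [inner_sub_left, real_inner_smul_left, hza, hw k]
        ring
  have h1 := eq_of_van (q + 1) ω a hVan
  have h2 : ip (ω.curryLeft a) (ω.curryLeft a) = c * ‖a‖ ^ 2 := by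
    have := hM a a
    rw [real_inner_self_eq_norm_sq] at this
    exact this
  have h3 : ip ω ω = n * c := by
    rw [← trace_MB]
    have : ∀ i : Fin n, MB ω (e i) (e i) = c := by
      intro i
      rw [hM, real_inner_self_eq_norm_sq]
      simp [e]
    simp [this]
  rw [h2, h3] at h1
  have ha2 : 0 < ‖a‖ ^ 2 := by positivity
  have hpos : 0 < c * ‖a‖ ^ 2 := by positivity
  push_cast at h1
  have h4 : ((q : ℝ) + 2) * (c * ‖a‖ ^ 2) = n * (c * ‖a‖ ^ 2) := by linarith
  have h5 := mul_right_cancel₀ hpos.ne' h4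
  have h6 : ((q + 2 : ℕ) : ℝ) < n := by exact_mod_cast hq
  push_cast at h6
  linarith

/-- (D): from the main equation -/
theorem van_jac {q : ℕ} (W : CurvTensor n) (ω : Form n (q + 2))
    (h : ∀ x v u : E n, MB ω x x * ⟪jac W x v, u⟫
      = ((q : ℝ) + 1) * MB (ω.curryLeft x) (jac W x v) u)
    (x v : E n) (ha : jac W x v ≠ 0) : Van (ω.curryLeft x) (jac W x v) := by
  refine van_of_eq q _ _ ha ?_
  have h1 := h x v (jac W x v)
  rw [real_inner_self_eq_norm_sq] at h1
  have e1 : ip (ω.curryLeft x) (ω.curryLeft x) = MB ω x x := rfl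
  have e2 : ip ((ω.curryLeft x).curryLeft (jac W x v)) ((ω.curryLeft x).curryLeft (jac W x v))
      = MB (ω.curryLeft x) (jac W x v) (jac W x v) := rfl
  rw [e1, e2]
  linarith

end Pool.Agent.H8.RG
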