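import Pool.Agent.H8.RG.Scalar
import Pool.Agent.H8.RG.Key

set_option autoImplicit false

/-!
# Rank one, and `T² x` is parallel to `x`
-/

namespace Pool.Agent.H8.RG

open Pool.Agent.H61.YP
open scoped BigOperators RealInnerProductSpace

variable {n : ℕ}

/-- the Jacobi operators have rank at most one -/
theorem rank_one {q : ℕ} (W : CurvTensor n) (ω : Form n (q + 2)) (c : ℝ) (hc : 0 < c)
    (hM : ∀ x y : E n, MB ω x y = c * ⟪x, y⟫) (hq : q + 2 < n)
    (hD : ∀ x v : E n, jac W x v ≠ 0 → Van (ω.curryLeft x) (jac W x v))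
    (x u v : E n) (hu : jac W x u ≠ 0) : ∃ r : ℝ, jac W x v = r • jac W x u := by
  by_cases hv : jac W x v = 0
  · exact ⟨0, by rw [hv, zero_smul]⟩
  · exact key W ω c hc hM hq hD x u (jac W x v) hu (hD x v hv)

/-- the Jacobi operators of a tensor with `W(x,y,y,x) = ⟨Tx, y⟩²` -/
lemma jac_T (W : CurvTensor n) (T : E n →ₗ[ℝ] E n)
    (hW : ∀ x y : E n, W.toFun x y y x = ⟪T x, y⟫ ^ 2) (x v : E n) :
    jac W x v = ⟪T x, v⟫ • T x := by
  refine ext_inner_right ℝ fun u => ?_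
  rw [inner_jac, real_inner_smul_left]
  have h1 := hW x (v + u)
  rw [W.add_two, W.add_three, W.add_three, hW, hW, inner_add_right] at h1
  have h2 : W.toFun x u v x = W.toFun x v u x := JF_symm W x u v
  rw [h2] at h1
  nlinarith

lemma van_smul {p : ℕ} (φ : Form n p) (y : E n) (r : ℝ) (hr : r ≠ 0) (h : Van φ (r • y)) :
    Van φ y := by
  intro v hv
  refine h v fun k => ?_
  rw [real_inner_smul_right, hv k, mul_zero]

lemma van_smul' {p : ℕ} (φ : Form n p) (y : E n) (r : ℝ) (hr : r ≠ 0) (h : Van φ y) :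
    Van φ (r • y) := by
  intro v hv
  refine h v fun k => ?_
  have := hv k
  rw [real_inner_smul_right] at this
  exact (mul_eq_zero.mp this).resolve_left hr

/-- `T² x` is parallel to `x` -/
theorem tt_par {q : ℕ} (W : CurvTensor n) (ω : Form n (q + 2)) (c : ℝ) (hc : 0 < c)
    (hM : ∀ x y : E n, MB ω x y = c * ⟪x, y⟫) (hq : q + 2 < n)
    (hD : ∀ x v : E n, jac W x v ≠ 0 → Van (ω.curryLeft x) (jac W x v))
    (T : E n →ₗ[ℝ] E n) (hT : ∀ x y : E n, ⟪T x, y⟫ = - ⟪x, T y⟫)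
    (hW : ∀ x y : E n, W.toFun x y y x = ⟪T x, y⟫ ^ 2) (x : E n) (hx : T x ≠ 0) :
    ∃ r : ℝ, x = r • T (T x) := by
  have hx0 : x ≠ 0 := by
    intro h0
    apply hx
    rw [h0, map_zero]
  have hTx : 0 < ‖T x‖ ^ 2 := by positivity
  -- (D) at `x`
  have h1 : Van (ω.curryLeft x) (T x) := by
    have h2 : jac W x (T x) = ‖T x‖ ^ 2 • T x := by
      rw [jac_T W T hW, real_inner_self_eq_norm_sq]
    have h3 : jac W x (T x) ≠ 0 := by
      rw [h2]
      exact smul_ne_zero hTx.ne' hx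
    have h4 := hD x (T x) h3
    rw [h2] at h4
    exact van_smul _ _ _ hTx.ne' h4
  -- symmetry of the equality
  have h2 : Van (ω.curryLeft (T x)) x := by
    refine van_of_eq q _ x hx0 ?_
    have h3 := eq_of_van q _ _ h1
    have h4 : ip ((ω.curryLeft (T x)).curryLeft x) ((ω.curryLeft (T x)).curryLeft x)
        = ip ((ω.curryLeft x).curryLeft (T x)) ((ω.curryLeft x).curryLeft (T x)) := by
      rw [curry_swap, ip_neg_left, ip_neg_right, neg_neg]
    rw [h4, h3]
    have h5 : ip (ω.curryLeft x) (ω.curryLeft x) = c * ‖x‖ ^ 2 := by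
      have := hM x x
      rw [real_inner_self_eq_norm_sq] at this
      exact this
    have h6 : ip (ω.curryLeft (T x)) (ω.curryLeft (T x)) = c * ‖T x‖ ^ 2 := by
      have := hM (T x) (T x)
      rw [real_inner_self_eq_norm_sq] at this
      exact this
    rw [h5, h6]
    ring
  -- the Jacobi operator at `T x`
  have hTT : T (T x) ≠ 0 := by
    intro h0
    have h3 := hT (T x) x
    rw [h0, inner_zero_left, real_inner_self_eq_norm_sq] at h3
    linarith
  have hTT2 : 0 < ‖T (T x)‖ ^ 2 := by positivity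
  have h3 : jac W (T x) (T (T x)) = ‖T (T x)‖ ^ 2 • T (T x) := by
    rw [jac_T W T hW, real_inner_self_eq_norm_sq]
  have h4 : jac W (T x) (T (T x)) ≠ 0 := by
    rw [h3]
    exact smul_ne_zero hTT2.ne' hTT
  obtain ⟨r, hr⟩ := key W ω c hc hM hq hD (T x) (T (T x)) x h4 h2
  refine ⟨r * ‖T (T x)‖ ^ 2, ?_⟩
  rw [mul_smul, ← h3]
  exact hr

/-- components of `rA` for the residual tensor in degree one -/
lemma rA_one_nonneg (W : CurvTensor n) (hpos : ∀ x y : E n, 0 ≤ W.toFun x y y x)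
    (ω : Form n 1) : 0 ≤ rA W.comp ω := by
  have hi : ∀ (i : Fin n) (v : Fin n → ℝ), 0 ≤ ∑ j, ∑ k, v j * v k * W.comp i j k i := by
    intro i v
    have h1 := hpos (e i) (vec v)
    have h2 := bilin_expand (JF W (e i)) (vec v) (vec v)
    simp only [vec_apply, JF_apply] at h2
    rw [h2] at h1
    exact h1
  unfold rA ricA
  have : ∀ j k : Fin n, (∑ i, W.comp i j k i) * MB ω (e j) (e k)
      = ∑ i, ω.curryLeft (e j) ![] * ω.curryLeft (e k) ![] * W.comp i j k i := by
    intro j k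
    rw [MB_apply, CurvTensor.ip_zero_deg, Finset.sum_mul]
    refine Finset.sum_congr rfl fun i _ => ?_
    ring
  simp_rw [this]
  rw [← comm2 (fun i j k => ω.curryLeft (e j) ![] * ω.curryLeft (e k) ![] * W.comp i j k i)]
  exact Finset.sum_nonneg fun i _ => hi i (fun j => ω.curryLeft (e j) ![])

lemma resid_scal (R : CurvTensor n) (k : ℝ) :
    (resid R k).scal = R.scal - k * ((n : ℝ) * (n - 1)) := by
  rw [CurvTensor.scal_eq, resid_comp, CurvTensor.scalA_wA, CurvTensor.scal_eq]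

lemma resid_pos (R : CurvTensor n) (k : ℝ)
    (h : ∀ x y : E n, k * (‖x‖ ^ 2 * ‖y‖ ^ 2 - ⟪x, y⟫ ^ 2) ≤ R.toFun x y y x) (x y : E n) :
    0 ≤ (resid R k).toFun x y y x := by
  have h1 := h x y
  have h2 : (resid R k).toFun x y y x
      = R.toFun x y y x - k * (⟪y, y⟫ * ⟪x, x⟫ - ⟪x, y⟫ * ⟪y, x⟫) := rfl
  rw [h2, real_inner_self_eq_norm_sq, real_inner_self_eq_norm_sq, real_inner_comm x y]
  linarith

/-- equality in the lower bound forces equality in the core inequality -/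
lemma core_of_weitz {q : ℕ} (R : CurvTensor n) (k : ℝ) (hk : R.scal = k * (n * (n + 2)))
    (h : ∀ x y : E n, k * (‖x‖ ^ 2 * ‖y‖ ^ 2 - ⟪x, y⟫ ^ 2) ≤ R.toFun x y y x)
    (ω : Form n (q + 2)) (hq : q + 2 < n) (hle : R.weitzForm ω ≤ 0) :
    3 * (rA (resid R k).comp ω - ((q : ℝ) + 1) * QA (resid R k).comp ω)
      + (((n : ℝ) - (q + 2)) / n) * (scalA (resid R k).comp * ip ω ω) = 0 := by
  have hn : (0 : ℝ) < n := by
    have : 0 < n := by omega
    exact_mod_cast this
  have h1 := R.lower_two k h ω hq.le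
  have h2 : (n : ℝ) * (n + 2) * k - R.scal = 0 := by rw [hk]; ring
  rw [h2, zero_mul, mul_zero] at h1
  have h3 : R.weitzForm ω = 0 := le_antisymm hle h1
  rw [CurvTensor.weitzForm_comp] at h3
  have h4 : rA R.comp ω - ((q : ℝ) + 1) * QA R.comp ω = 0 := by
    have : ((q : ℝ) + 2) ≠ 0 := by positivity
    exact (mul_eq_zero.mp h3).resolve_left this
  rw [resid_comp, CurvTensor.rA_wA, CurvTensor.QA_wA, CurvTensor.scalA_wA,
    ← CurvTensor.scal_eq, hk]
  have h5 : (((n : ℝ) - (q + 2)) / n) * ((k * (n * (n + 2)) - k * ((n : ℝ) * (n - 1))) * ip ω ω)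
      = ((n : ℝ) - (q + 2)) * (3 * k * ip ω ω) := by
    field_simp
    ring
  rw [h5]
  linear_combination 3 * h4

end Pool.Agent.H8.RG
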