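import Pool.Agent.H8.RG.Defs

/-!
# Module Lin: a nonnegative curvature tensor all of whose Jacobi operators have rank at most one
-/

set_option autoImplicit false

namespace Pool.Agent.H8.RG

open Pool.Agent.H61.YP
open scoped RealInnerProductSpace

variable {n : ℕ}

section

variable (W : CurvTensor n)

theorem Lin_anti34 (x y z u : E n) : W.toFun x y z u = - W.toFun x y u z := by
  rw [W.pair x y z u, W.anti z u x y, W.pair u z x y]

/-- the Jacobi form is symmetric -/
theorem Lin_symm (x y z : E n) : W.toFun x y z x = W.toFun x z y x := by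
  rw [W.pair x y z x, W.anti z x x y, Lin_anti34 W x z x y, neg_neg]

/-- exchange of the two arguments of the sectional curvature -/
theorem Lin_exch (x y : E n) : W.toFun x y y x = W.toFun y x x y := by
  rw [W.pair x y y x]

theorem Lin_self (x y z : E n) : W.toFun x x y z = 0 := by
  have := W.anti x x y z
  linarith

/-- the polarized Jacobi form -/
noncomputable def Lin_P (x x' y z : E n) : ℝ :=
  (W.toFun x y z x' + W.toFun x' y z x) / 2

theorem Lin_expand (s : ℝ) (x x' y z : E n) :
    W.toFun (x + s • x') y z (x + s • x') =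
      W.toFun x y z x + 2 * s * Lin_P W x x' y z + s ^ 2 * W.toFun x' y z x' := by
  rw [W.add_left, W.add_four, W.add_four, W.smul_left, W.smul_four, W.smul_left, W.smul_four,
    Lin_P]
  ring

theorem Lin_para (x y z : E n) :
    W.toFun (x + y) z z (x + y) + W.toFun (x - y) z z (x - y) =
      2 * W.toFun x z z x + 2 * W.toFun y z z y := by
  have h1 := Lin_expand W 1 x y z z
  have h2 := Lin_expand W (-1) x y z z
  rw [one_smul] at h1
  rw [neg_smul, one_smul, ← sub_eq_add_neg] at h2
  rw [h1, h2]
  ring

theorem Lin_para' (x y z : E n) :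
    W.toFun x (y + z) (y + z) x + W.toFun x (y - z) (y - z) x =
      2 * W.toFun x y y x + 2 * W.toFun x z z x := by
  rw [Lin_exch W x (y + z), Lin_exch W x (y - z), Lin_para, Lin_exch W x y,
    Lin_exch W x z]

end

/-- coefficients of a quartic polynomial identity -/
theorem Lin_coef (A α p q r F G H : ℝ)
    (h : ∀ s : ℝ, (A ^ 2 + 2 * s * p + s ^ 2 * F) * (α ^ 2 + 2 * s * q + s ^ 2 * G) =
      (A * α + 2 * s * r + s ^ 2 * H) ^ 2) :
    A ^ 2 * q + p * α ^ 2 = 2 * A * α * r ∧
    A ^ 2 * G + 4 * p * q + F * α ^ 2 = 4 * r ^ 2 + 2 * A * α * H ∧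
    p * G + q * F = 2 * r * H ∧ F * G = H ^ 2 := by
  have h1 := h 1
  have h2 := h (-1)
  have h3 := h 2
  have h4 := h (-2)
  refine ⟨?_, ?_, ?_, ?_⟩
  · linear_combination (1 / 3) * (h1 - h2) - (1 / 24) * (h3 - h4)
  · linear_combination (2 / 3) * (h1 + h2) - (1 / 24) * (h3 + h4)
  · linear_combination (-1 / 12) * (h1 - h2) + (1 / 24) * (h3 - h4)
  · linear_combination (-1 / 6) * (h1 + h2) + (1 / 24) * (h3 + h4)

/-- the algebra of the two by two minors -/
theorem Lin_minor (A α p q r F G H t t0 : ℝ) (hA : A ≠ 0)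
    (h : ∀ s : ℝ, (A ^ 2 + 2 * s * p + s ^ 2 * F) * (α ^ 2 + 2 * s * q + s ^ 2 * G) =
      (A * α + 2 * s * r + s ^ 2 * H) ^ 2)
    (ht0 : p = A * t0) (ht : 2 * r = A * t + α * t0) :
    (α = 0 → G = t ^ 2) ∧ (A * t - α * t0 ≠ 0 → G = t ^ 2 ∧ F = t0 ^ 2) := by
  obtain ⟨c1, c2, c3, c4⟩ := Lin_coef A α p q r F G H h
  have hq : q = α * t := by
    have : A ^ 2 * (q - α * t) = 0 := by
      rw [ht0] at c1
      linear_combination c1 + A * α * ht
    have h2 := (mul_eq_zero.1 this).resolve_left (pow_ne_zero 2 hA)
    linarith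
  have hr : r = (A * t + α * t0) / 2 := by linarith
  -- E2 = G - t^2, E0 = F - t0^2, E1 = H - t * t0
  have e2 : A ^ 2 * (G - t ^ 2) - 2 * A * α * (H - t * t0) + α ^ 2 * (F - t0 ^ 2) = 0 := by
    rw [ht0, hq, hr] at c2
    linear_combination c2
  have e3 : A * t0 * (G - t ^ 2) - (A * t + α * t0) * (H - t * t0) + α * t * (F - t0 ^ 2) = 0 := by
    rw [ht0, hq, hr] at c3
    linear_combination c3
  refine ⟨fun h0 => ?_, fun hD => ?_⟩
  · rw [h0] at e2
    have : A ^ 2 * (G - t ^ 2) = 0 := by linear_combination e2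
    have h2 := (mul_eq_zero.1 this).resolve_left (pow_ne_zero 2 hA)
    linarith
  · have f1 : (A * t - α * t0) * (α * (F - t0 ^ 2) - A * (H - t * t0)) = 0 := by
      linear_combination A * e3 - t0 * e2
    have f2 : (A * t - α * t0) * (α * (H - t * t0) - A * (G - t ^ 2)) = 0 := by
      linear_combination α * e3 - t * e2
    have g1 := (mul_eq_zero.1 f1).resolve_left hD
    have g2 := (mul_eq_zero.1 f2).resolve_left hD
    have f3 : (A * t - α * t0) ^ 2 * (F - t0 ^ 2) = 0 := by
      linear_combination A ^ 2 * c4 + (t0 ^ 2 * α - 2 * t * t0 * A - A * (H - t * t0)) * g1 +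
        (A * t0 ^ 2 + A * (F - t0 ^ 2)) * g2
    have g3 := (mul_eq_zero.1 f3).resolve_left (pow_ne_zero 2 hD)
    have g4 : H - t * t0 = 0 := by
      have : A * (H - t * t0) = 0 := by rw [g3] at g1; linear_combination -g1
      exact (mul_eq_zero.1 this).resolve_left hA
    have g5 : G - t ^ 2 = 0 := by
      have : A * (G - t ^ 2) = 0 := by rw [g4] at g2; linear_combination -g2
      exact (mul_eq_zero.1 this).resolve_left hA
    exact ⟨by linarith, by linarith⟩

section

variable (W : CurvTensor n)

/-- **Rank one.** -/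
theorem Lin_rank_one (hrk : ∀ x y z : E n,
      W.toFun x y y x * W.toFun x z z x = W.toFun x y z x ^ 2)
    (hpos : ∀ x y : E n, 0 ≤ W.toFun x y y x) :
    ∃ T : E n →ₗ[ℝ] E n, (∀ x, ⟪T x, x⟫ = 0) ∧
      ∀ x y, W.toFun x y y x = ⟪T x, y⟫ ^ 2 := by
  by_cases h0 : ∀ x y : E n, W.toFun x y y x = 0
  · exact ⟨0, fun x => by simp, fun x y => by rw [h0]; simp⟩
  push Not at h0
  obtain ⟨x0, y0, h0⟩ := h0
  set A : ℝ := √(W.toFun x0 y0 y0 x0) with hAd
  have hA2 : A ^ 2 = W.toFun x0 y0 y0 x0 := Real.sq_sqrt (hpos x0 y0)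
  have hA : A ≠ 0 := fun h => h0 (by rw [← hA2, h]; ring)
  set al : E n → ℝ := fun z => W.toFun x0 y0 z x0 / A with hal
  have hAal : ∀ z, A * al z = W.toFun x0 y0 z x0 := fun z => by
    rw [hal]; field_simp
  have hal2 : ∀ z, W.toFun x0 z z x0 = al z ^ 2 := fun z => by
    have h1 := hrk x0 y0 z
    rw [← hAal z, ← hA2] at h1
    have h2 : A ^ 2 * (W.toFun x0 z z x0 - al z ^ 2) = 0 := by linear_combination h1
    have h3 := (mul_eq_zero.1 h2).resolve_left (pow_ne_zero 2 hA)
    linarith
  have haly0 : al y0 = A := by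
    have h1 := hAal y0
    rw [← hA2] at h1
    have : A * (al y0 - A) = 0 := by linear_combination h1
    have h3 := (mul_eq_zero.1 this).resolve_left hA
    linarith
  set t : E n → E n → ℝ := fun x z =>
    (2 * Lin_P W x0 x y0 z - al z * (Lin_P W x0 x y0 y0 / A)) / A with ht
  have hAt : ∀ x z, A * t x z = 2 * Lin_P W x0 x y0 z - al z * (Lin_P W x0 x y0 y0 / A) :=
    fun x z => by rw [ht]; field_simp
  have ht0 : ∀ x, Lin_P W x0 x y0 y0 = A * t x y0 := fun x => by
    rw [hAt, haly0]; field_simp; ring
  -- linearity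
  have t_add_left : ∀ x x' z, t (x + x') z = t x z + t x' z := fun x x' z => by
    have : A * (t (x + x') z - (t x z + t x' z)) = 0 := by
      rw [mul_sub, mul_add, hAt, hAt, hAt]
      simp only [Lin_P, W.add_left, W.add_four]
      ring
    have h3 := (mul_eq_zero.1 this).resolve_left hA
    linarith
  have t_smul_left : ∀ (a : ℝ) x z, t (a • x) z = a * t x z := fun a x z => by
    have : A * (t (a • x) z - a * t x z) = 0 := by
      rw [mul_sub, mul_left_comm, hAt, hAt]
      simp only [Lin_P, W.smul_left, W.smul_four]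
      ring
    have h3 := (mul_eq_zero.1 this).resolve_left hA
    linarith
  have al_add : ∀ z z', al (z + z') = al z + al z' := fun z z' => by
    simp only [hal, W.add_three]; ring
  have al_smul : ∀ (a : ℝ) z, al (a • z) = a * al z := fun a z => by
    simp only [hal, W.smul_three]; ring
  have t_add_right : ∀ x z z', t x (z + z') = t x z + t x z' := fun x z z' => by
    have : A * (t x (z + z') - (t x z + t x z')) = 0 := by
      rw [mul_sub, mul_add, hAt, hAt, hAt, al_add]
      simp only [Lin_P, W.add_three]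
      ring
    have h3 := (mul_eq_zero.1 this).resolve_left hA
    linarith
  have t_smul_right : ∀ (a : ℝ) x z, t x (a • z) = a * t x z := fun a x z => by
    have : A * (t x (a • z) - a * t x z) = 0 := by
      rw [mul_sub, mul_left_comm, hAt, hAt, al_smul]
      simp only [Lin_P, W.smul_three]
      ring
    have h3 := (mul_eq_zero.1 this).resolve_left hA
    linarith
  have t_sub_left : ∀ x x' z, t (x - x') z = t x z - t x' z := fun x x' z => by
    have := t_add_left (x - x') x' z
    rw [sub_add_cancel] at this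
    linarith
  have t_sub_right : ∀ x z z', t x (z - z') = t x z - t x z' := fun x z z' => by
    have := t_add_right x (z - z') z'
    rw [sub_add_cancel] at this
    linarith
  have al_sub : ∀ z z', al (z - z') = al z - al z' := fun z z' => by
    have := al_add (z - z') z'
    rw [sub_add_cancel] at this
    linarith
  -- the minors
  have minor : ∀ x z, (al z = 0 → W.toFun x z z x = t x z ^ 2) ∧
      (A * t x z - al z * t x y0 ≠ 0 → W.toFun x z z x = t x z ^ 2 ∧
        W.toFun x y0 y0 x = t x y0 ^ 2) := fun x z => by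
    refine Lin_minor A (al z) (Lin_P W x0 x y0 y0) (Lin_P W x0 x z z)
      (Lin_P W x0 x y0 z) (W.toFun x y0 y0 x) (W.toFun x z z x) (W.toFun x y0 z x) (t x z)
      (t x y0) hA (fun s => ?_) (ht0 x) ?_
    · have h1 := hrk (x0 + s • x) y0 z
      rw [Lin_expand, Lin_expand, Lin_expand, ← hA2, hal2 z, ← hAal z] at h1
      exact h1
    · rw [hAt, ht0]
      field_simp
      ring
  -- claim C
  have claimC : ∀ x z1, A * t x z1 - al z1 * t x y0 ≠ 0 →
      ∀ z, W.toFun x z z x = t x z ^ 2 := fun x z1 h1 z => by
    by_cases hD : A * t x z - al z * t x y0 = 0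
    · have a1 := (minor x z1).2 h1
      have a2 := (minor x (z + z1)).2 (by
        rw [t_add_right, al_add]
        intro h
        exact h1 (by linear_combination h - hD))
      have a3 := (minor x (z - z1)).2 (by
        rw [t_sub_right, al_sub]
        intro h
        exact h1 (by linear_combination hD - h))
      have h2 := Lin_para' W x z z1
      rw [a2.1, a3.1, a1.1, t_add_right, t_sub_right] at h2
      linear_combination (-1 / 2) * h2
    · exact ((minor x z).2 hD).1
  -- claim D
  have claimD : ∃ x1 z1, A * t x1 z1 - al z1 * t x1 y0 ≠ 0 := by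
    by_contra hne
    push Not at hne
    have h1 : al x0 = 0 := by
      have := hal2 x0
      rw [Lin_self] at this
      exact pow_eq_zero_iff two_ne_zero |>.1 this.symm
    have h2 := (minor y0 x0).1 h1
    have h3 : t y0 x0 = 0 := by
      have := hne y0 x0
      rw [h1, zero_mul, sub_zero] at this
      exact (mul_eq_zero.1 this).resolve_left hA
    rw [h3] at h2
    refine h0 ?_
    rw [Lin_exch, h2]
    ring
  obtain ⟨x1, z1, hx1⟩ := claimD
  have claimE : ∀ x z, W.toFun x z z x = t x z ^ 2 := fun x z => by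
    by_cases hD : A * t x z1 - al z1 * t x y0 = 0
    · have a1 := claimC x1 z1 hx1 z
      have a2 := claimC (x + x1) z1 (by
        rw [t_add_left, t_add_left]
        intro h
        exact hx1 (by linear_combination h - hD)) z
      have a3 := claimC (x - x1) z1 (by
        rw [t_sub_left, t_sub_left]
        intro h
        exact hx1 (by linear_combination hD - h)) z
      have h2 := Lin_para W x x1 z
      rw [a1, a2, a3, t_add_left, t_sub_left] at h2
      linear_combination (-1 / 2) * h2
    · exact claimC x z1 hD z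
  -- the linear map
  refine ⟨{ toFun := fun x => ∑ i, t x (e i) • (e i : E n)
            map_add' := fun x x' => by
              simp only [t_add_left, add_smul, Finset.sum_add_distrib]
            map_smul' := fun a x => by
              simp only [t_smul_left, mul_smul, Finset.smul_sum, RingHom.id_apply] }, ?_, ?_⟩
  all_goals
    have key : ∀ x y : E n, ⟪∑ i, t x (e i) • (e i : E n), y⟫ = t x y := fun x y => by
      have h1 : t x y = ∑ i, y i * t x (e i) := by
        let L : E n →ₗ[ℝ] ℝ :=
          { toFun := fun z => t x z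
            map_add' := fun z z' => t_add_right x z z'
            map_smul' := fun a z => t_smul_right a x z }
        exact CurvTensor.lin_sum L y
      rw [sum_inner, h1]
      refine Finset.sum_congr rfl fun i _ => ?_
      rw [inner_smul_left]
      simp [e, EuclideanSpace.inner_single_left, mul_comm]
  · intro x
    change ⟪∑ i, t x (e i) • (e i : E n), x⟫ = 0
    rw [key]
    have := claimE x x
    rw [Lin_self] at this
    exact pow_eq_zero_iff two_ne_zero |>.1 this.symm
  · intro x y
    change _ = ⟪∑ i, t x (e i) • (e i : E n), y⟫ ^ 2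
    rw [key, claimE]

end

/-- **Rank one**, with the Jacobi operators. -/
theorem exists_skew (W : CurvTensor n) (hpos : ∀ x y : E n, 0 ≤ W.toFun x y y x)
    (hrank : ∀ x u v : E n, jac W x u ≠ 0 → ∃ c : ℝ, jac W x v = c • jac W x u) :
    ∃ T : E n →ₗ[ℝ] E n, (∀ x y : E n, ⟪T x, y⟫ = - ⟪x, T y⟫) ∧
      ∀ x y : E n, W.toFun x y y x = ⟪T x, y⟫ ^ 2 := by
  obtain ⟨T, hT, hW⟩ := Lin_rank_one W (fun x y z => by
    by_cases h0 : jac W x y = 0
    · have h1 := inner_jac W x y y
      have h2 := inner_jac W x y z
      rw [h0, inner_zero_left] at h1 h2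
      rw [← h1, ← h2]
      ring
    · obtain ⟨c, hc⟩ := hrank x y z h0
      have h1 := inner_jac W x z z
      have h2 := inner_jac W x z y
      rw [hc, real_inner_smul_left, inner_jac] at h1 h2
      rw [Lin_symm W x z y] at h2
      rw [← h1]
      linear_combination (W.toFun x y z x) * h2) hpos
  refine ⟨T, fun x y => ?_, hW⟩
  have h1 := hT (x + y)
  rw [map_add, inner_add_left, inner_add_right, inner_add_right, hT x, hT y] at h1
  have h2 := real_inner_comm x (T y)
  linarith

end Pool.Agent.H8.RG
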