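import Pool.Agent.H8.RG.Defs

set_option autoImplicit false

/-!
# Module Par: parity of the dimension and of the degree
-/

namespace Pool.Agent.H8.RG

open Pool.Agent.H61.YP
open scoped BigOperators RealInnerProductSpace

variable {n : ℕ}

theorem even_of_complex (J : E n →ₗ[ℝ] E n) (hJ : ∀ x, J (J x) = -x)
    (hJo : ∀ x y : E n, ⟪J x, J y⟫ = ⟪x, y⟫) : Even n := by
  have _ := hJo
  have h1 : J * J = (-1 : ℝ) • (1 : E n →ₗ[ℝ] E n) := by
    ext1 x
    simp [hJ]
  have h2 : LinearMap.det J * LinearMap.det J = (-1 : ℝ) ^ n := by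
    rw [← map_mul, h1, LinearMap.det_smul]
    simp
  by_contra h
  rw [Nat.not_even_iff_odd] at h
  rw [h.neg_one_pow] at h2
  nlinarith [mul_self_nonneg (LinearMap.det J)]

/-- replacing arguments does not change the value -/
theorem Par_replace {p : ℕ} (U : Submodule ℝ (E n)) (x y : E n) (hx : x ∈ U) (hy : y ∈ U)
    (ψ : Form n p)
    (h : ∀ v : Fin p → E n, (∀ k, v k ∈ U) → (∃ k, v k = x ∨ v k = y) → ψ v = 0)
    (v : Fin p → E n) (hv : ∀ k, v k ∈ U) (a b : Fin p → ℝ) :
    ψ (fun k => v k - a k • x - b k • y) = ψ v := by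
  classical
  have key : ∀ s : Finset (Fin p),
      ψ (fun k => if k ∈ s then v k - a k • x - b k • y else v k) = ψ v := by
    intro s
    induction s using Finset.induction_on with
    | empty => simp
    | insert j s hj ih =>
      set f : Fin p → E n := fun k => if k ∈ s then v k - a k • x - b k • y else v k with hf
      have hfU : ∀ k, f k ∈ U := fun k => by
        rw [hf]
        dsimp only
        split_ifs
        · exact U.sub_mem (U.sub_mem (hv k) (U.smul_mem _ hx)) (U.smul_mem _ hy)
        · exact hv k
      have e1 : (fun k => if k ∈ insert j s then v k - a k • x - b k • y else v k) =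
          Function.update f j (v j - a j • x - b j • y) := by
        funext k
        by_cases hk : k = j
        · subst hk
          simp
        · rw [Function.update_of_ne hk, hf]
          simp [hk]
      have e2 : Function.update f j (v j) = f := by
        rw [Function.update_eq_self_iff, hf]
        simp [hj]
      have hU : ∀ (z : E n), z ∈ U → ∀ k, Function.update f j z k ∈ U := fun z hz k => by
        by_cases hk : k = j
        · subst hk; simpa using hz
        · rw [Function.update_of_ne hk]; exact hfU k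
      have h1 : ψ (Function.update f j x) = 0 := h _ (hU x hx) ⟨j, Or.inl (by simp)⟩
      have h2 : ψ (Function.update f j y) = 0 := h _ (hU y hy) ⟨j, Or.inr (by simp)⟩
      rw [e1, ψ.map_update_sub, ψ.map_update_sub, ψ.map_update_smul, ψ.map_update_smul, h1, h2,
        e2, ih, smul_zero, smul_zero, sub_zero, sub_zero]
  have := key Finset.univ
  simpa using this

/-- moving an argument to the front -/
theorem Par_front {p : ℕ} (U : Submodule ℝ (E n)) (y : E n) (ψ : Form n (p + 1))
    (h : ∀ u : Fin p → E n, (∀ k, u k ∈ U) → ψ.curryLeft y u = 0)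
    (v : Fin (p + 1) → E n) (hv : ∀ k, v k ∈ U) (k : Fin (p + 1)) (hk : v k = y) : ψ v = 0 := by
  have h0 : ∀ w : Fin (p + 1) → E n, (∀ k, w k ∈ U) → w 0 = y → ψ w = 0 := fun w hw hw0 => by
    have h1 := h (fun i => w i.succ) (fun i => hw _)
    rw [AlternatingMap.curryLeft_apply_apply, ← hw0] at h1
    have h2 : Matrix.vecCons (w 0) (fun i => w i.succ) = w := by
      funext i
      refine Fin.cases ?_ (fun i => ?_) i <;> simp
    rwa [h2] at h1
  by_cases hk0 : k = 0
  · exact h0 v hv (by rw [← hk0, hk])
  · have h1 := h0 (v ∘ Equiv.swap 0 k) (fun i => hv _) (by simp [hk])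
    have h2 := AlternatingMap.map_swap ψ v (Ne.symm hk0)
    rw [h1] at h2
    linarith

/-- `φ` vanishes on tuples of `U` one member of which is mapped by `J` to a vector orthogonal to
the other ones -/
def Par_Good {p : ℕ} (J : E n →ₗ[ℝ] E n) (U : Submodule ℝ (E n)) (φ : Form n p) : Prop :=
  ∀ v : Fin p → E n, (∀ k, v k ∈ U) → ∀ k, (∀ j, j ≠ k → ⟪v j, J (v k)⟫ = 0) → φ v = 0

theorem Par_main (J : E n →ₗ[ℝ] E n) (hJ : ∀ x, J (J x) = -x)
    (hJo : ∀ x y : E n, ⟪J x, J y⟫ = ⟪x, y⟫) :
    ∀ (p : ℕ) (U : Submodule ℝ (E n)), (∀ u ∈ U, J u ∈ U) → ∀ φ : Form n p, Par_Good J U φ →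
      (∃ v : Fin p → E n, (∀ k, v k ∈ U) ∧ φ v ≠ 0) → Even p := by
  have skew : ∀ x y : E n, ⟪J x, y⟫ = - ⟪x, J y⟫ := fun x y => by
    rw [← hJo (J x) y, hJ, inner_neg_left]
  have skew0 : ∀ x : E n, ⟪J x, x⟫ = 0 := fun x => by
    have h1 := skew x x
    rw [real_inner_comm] at h1
    have h2 := real_inner_comm x (J x)
    linarith
  intro p
  induction p using Nat.twoStepInduction with
  | zero => intro U _ φ _ _; exact Even.zero
  | one =>
    rintro U _ φ hφ ⟨v, hv, h1⟩
    exact absurd (hφ v hv 0 fun j hj => absurd (Subsingleton.elim j 0) hj) h1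
  | more m ih _ =>
    rintro U hU φ hφ ⟨v, hv, hφv⟩
    set x := v 0 with hx
    have hxU : x ∈ U := hv 0
    have hJU : J x ∈ U := hU x hxU
    have hx0 : x ≠ 0 := fun h => hφv (by
      refine φ.map_coord_zero 0 ?_
      rw [← hx, h])
    have hn : ‖x‖ ^ 2 ≠ 0 := by
      have : 0 < ‖x‖ := norm_pos_iff.2 hx0
      positivity
    set ψ : Form n (m + 1) := φ.curryLeft x with hψ
    set χ : Form n m := ψ.curryLeft (J x) with hχ
    have hψa : ∀ u, ψ u = φ (Matrix.vecCons x u) := fun u => by
      rw [hψ, AlternatingMap.curryLeft_apply_apply]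
    have hχa : ∀ u, χ u = φ (Matrix.vecCons x (Matrix.vecCons (J x) u)) := fun u => by
      rw [hχ, AlternatingMap.curryLeft_apply_apply, hψa]
    set U' : Submodule ℝ (E n) := U ⊓ ((ℝ ∙ x)ᗮ ⊓ (ℝ ∙ (J x))ᗮ) with hU'
    have memU' : ∀ z : E n, z ∈ U' ↔ z ∈ U ∧ ⟪x, z⟫ = 0 ∧ ⟪J x, z⟫ = 0 := fun z => by
      rw [hU', Submodule.mem_inf, Submodule.mem_inf, Submodule.mem_orthogonal_singleton_iff_inner_right,
        Submodule.mem_orthogonal_singleton_iff_inner_right]
    have hU'J : ∀ u ∈ U', J u ∈ U' := fun u hu => by
      rw [memU'] at hu ⊢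
      refine ⟨hU u hu.1, ?_, ?_⟩
      · have := skew x u
        rw [hu.2.2] at this
        linarith
      · rw [hJo, hu.2.1]
    -- the new form is good
    have hχG : Par_Good J U' χ := by
      intro w hw k hk
      rw [hχa]
      refine hφ _ ?_ k.succ.succ ?_
      · intro j
        refine Fin.cases hxU (fun j => ?_) j
        refine Fin.cases hJU (fun j => ?_) j
        exact ((memU' _).1 (hw j)).1
      · intro j
        refine Fin.cases (fun _ => ?_) (fun j => ?_) j
        · have := ((memU' _).1 (hw k)).2.2
          rw [skew] at this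
          simp only [Matrix.cons_val_zero, Matrix.cons_val_succ]
          linarith
        · refine Fin.cases (fun _ => ?_) (fun j hj => ?_) j
          · have := ((memU' _).1 (hw k)).2.1
            simp only [Matrix.cons_val_zero, Matrix.cons_val_succ]
            rw [hJo, this]
          · simp only [Matrix.cons_val_succ]
            exact hk j fun h => hj (by rw [h])
    -- projection
    set a : E n → ℝ := fun z => ⟪x, z⟫ / ‖x‖ ^ 2 with ha
    set b : E n → ℝ := fun z => ⟪J x, z⟫ / ‖x‖ ^ 2 with hb
    have hproj : ∀ z ∈ U, z - a z • x - b z • J x ∈ U' := fun z hz => by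
      rw [memU']
      refine ⟨U.sub_mem (U.sub_mem hz (U.smul_mem _ hxU)) (U.smul_mem _ hJU), ?_, ?_⟩
      · have h1 : ⟪x, J x⟫ = 0 := by rw [real_inner_comm]; exact skew0 x
        rw [inner_sub_right, inner_sub_right, real_inner_smul_right, real_inner_smul_right, h1,
          real_inner_self_eq_norm_sq, ha]
        field_simp
        ring
      · rw [inner_sub_right, inner_sub_right, real_inner_smul_right, real_inner_smul_right,
          skew0, hJo, real_inner_self_eq_norm_sq, hb]
        field_simp
        ring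
    have hne : ∃ w : Fin m → E n, (∀ k, w k ∈ U') ∧ χ w ≠ 0 := by
      by_contra hcon
      push Not at hcon
      -- χ vanishes on U
      have hχU : ∀ w : Fin m → E n, (∀ k, w k ∈ U) → χ w = 0 := by
        intro w hw
        rw [← Par_replace U x (J x) hxU hJU χ ?_ w hw (fun k => a (w k)) (fun k => b (w k))]
        · exact hcon _ fun k => hproj _ (hw k)
        · rintro u _ ⟨k, hk | hk⟩
          · rw [hχa]
            refine φ.map_eq_zero_of_eq _ (i := 0) (j := k.succ.succ) ?_ (Fin.succ_ne_zero _).symm
            simp [hk]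
          · rw [hχa]
            refine φ.map_eq_zero_of_eq _ (i := 1) (j := k.succ.succ) ?_ ?_
            · simp [hk]
            · intro h
              rw [← Fin.succ_zero_eq_one] at h
              exact (Fin.succ_ne_zero k).symm (Fin.succ_injective _ h)
      have hψU : ∀ w : Fin (m + 1) → E n, (∀ k, w k ∈ U) → ψ w = 0 := by
        intro w hw
        rw [← Par_replace U x (J x) hxU hJU ψ ?_ w hw (fun k => a (w k)) (fun k => b (w k))]
        · rw [hψa]
          refine hφ _ ?_ 0 ?_
          · intro j
            refine Fin.cases hxU (fun j => ?_) j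
            exact ((memU' _).1 (hproj _ (hw j))).1
          · intro j
            refine Fin.cases (fun h => absurd rfl h) (fun j _ => ?_) j
            simp only [Matrix.cons_val_zero, Matrix.cons_val_succ]
            rw [real_inner_comm]
            exact ((memU' _).1 (hproj _ (hw j))).2.2
        · rintro u hu ⟨k, hk | hk⟩
          · rw [hψa]
            refine φ.map_eq_zero_of_eq _ (i := 0) (j := k.succ) ?_ (Fin.succ_ne_zero _).symm
            simp [hk]
          · exact Par_front U (J x) ψ (fun u hu => hχU u hu) u hu k hk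
      apply hφv
      have h1 := hψU (fun i => v i.succ) (fun i => hv _)
      rw [hψa] at h1
      have h2 : Matrix.vecCons x (fun i => v i.succ) = v := by
        funext i
        refine Fin.cases ?_ (fun i => ?_) i <;> simp [hx]
      rwa [h2] at h1
    have := ih U' hU'J χ hχG hne
    exact this.add (by decide)

theorem even_deg {q : ℕ} (J : E n →ₗ[ℝ] E n) (hJ : ∀ x, J (J x) = -x)
    (hJo : ∀ x y : E n, ⟪J x, J y⟫ = ⟪x, y⟫) (ω : Form n (q + 2)) (hω : ω ≠ 0)
    (hD : ∀ x : E n, Van (ω.curryLeft x) (J x)) : Even q := by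
  have h1 : Even (q + 2) := by
    refine Par_main J hJ hJo (q + 2) ⊤ (fun _ _ => trivial) ω ?_ ?_
    · intro v _ k hk
      have h0 : ∀ w : Fin (q + 2) → E n, (∀ j, j ≠ 0 → ⟪w j, J (w 0)⟫ = 0) → ω w = 0 :=
        fun w hw => by
        have h2 := hD (w 0) (fun i => w i.succ) fun i => hw _ (Fin.succ_ne_zero _)
        rw [AlternatingMap.curryLeft_apply_apply] at h2
        have h3 : Matrix.vecCons (w 0) (fun i => w i.succ) = w := by
          funext i
          refine Fin.cases ?_ (fun i => ?_) i <;> simp
        rwa [h3] at h2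
      by_cases hk0 : k = 0
      · subst hk0; exact h0 v hk
      · have h2 := h0 (v ∘ Equiv.swap 0 k) fun j hj => by
          simp only [Function.comp_apply, Equiv.swap_apply_left]
          exact hk _ fun h => hj ((Equiv.swap 0 k).injective
            (h.trans (Equiv.swap_apply_left 0 k).symm))
        have h3 := AlternatingMap.map_swap ω v (Ne.symm hk0)
        rw [h2] at h3
        linarith
    · by_contra hcon
      push Not at hcon
      exact hω (AlternatingMap.ext fun v => by
        rw [hcon v fun _ => trivial]; rfl)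
  obtain ⟨r, hr⟩ := h1
  exact ⟨r - 1, by omega⟩

end Pool.Agent.H8.RG
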