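import Pool.Agent.H8.RG.Cpt

set_option autoImplicit false

/-!
# A curvature tensor is determined by its sectional curvatures; the tensor of `CP^(n/2)`
-/

namespace Pool.Agent.H8.RG

open Pool.Agent.H61.YP
open scoped BigOperators RealInnerProductSpace

variable {n : ℕ}

lemma mid_polar (R : CurvTensor n) (x v u : E n) :
    2 * R.toFun x v u x
      = R.toFun x (v + u) (v + u) x - R.toFun x v v x - R.toFun x u u x := by
  have hs := sym_mid R x v u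
  simp only [R.add_two, R.add_three]
  linarith

/-- a curvature tensor is determined by `R(x,y,y,x)` -/
theorem curv_ext (R S : CurvTensor n)
    (h : ∀ x y : E n, R.toFun x y y x = S.toFun x y y x) (x y z u : E n) :
    R.toFun x y z u = S.toFun x y z u := by
  have h1 : ∀ x v u : E n, R.toFun x v u x = S.toFun x v u x := by
    intro x v u
    have a := mid_polar R x v u
    have b := mid_polar S x v u
    rw [h, h, h] at a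
    linarith
  have h2 : ∀ x y v u : E n, R.toFun x v u y + R.toFun y v u x
      = S.toFun x v u y + S.toFun y v u x := by
    intro x y v u
    rw [polar, polar, h1, h1, h1]
  have a := three_mul_eq R x y z u
  have b := three_mul_eq S x y z u
  have c := h2 x u y z
  have d := h2 x z y u
  linarith

/-- the curvature tensor of complex projective space, for a skew endomorphism `J` -/
noncomputable def cpT (J : E n →ₗ[ℝ] E n) (hJ : ∀ x y : E n, ⟪J x, y⟫ = -⟪x, J y⟫) :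
    CurvTensor n where
  toFun x y z u := ⟪y, z⟫ * ⟪x, u⟫ - ⟪x, z⟫ * ⟪y, u⟫ + ⟪J y, z⟫ * ⟪J x, u⟫
    - ⟪J x, z⟫ * ⟪J y, u⟫ + 2 * (⟪x, J y⟫ * ⟪J z, u⟫)
  add_left x x' y z u := by
    simp only [map_add, inner_add_left]; ring
  smul_left a x y z u := by
    simp only [map_smul, real_inner_smul_left]; ring
  anti x y z u := by
    have h1 : ⟪x, J y⟫ = -⟪J x, y⟫ := by rw [hJ]; ring
    have h2 : ⟪y, J x⟫ = ⟪J x, y⟫ := real_inner_comm _ _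
    rw [h1, h2]; ring
  pair x y z u := by
    have a1 : ⟪J y, z⟫ = -⟪J z, y⟫ := by rw [hJ, real_inner_comm]
    have a2 : ⟪J x, u⟫ = -⟪J u, x⟫ := by rw [hJ, real_inner_comm]
    have a3 : ⟪J x, z⟫ = -⟪J z, x⟫ := by rw [hJ, real_inner_comm]
    have a4 : ⟪J y, u⟫ = -⟪J u, y⟫ := by rw [hJ, real_inner_comm]
    have a5 : ⟪x, J y⟫ = -⟪J x, y⟫ := by rw [hJ]; ring
    have a6 : ⟪z, J u⟫ = -⟪J z, u⟫ := by rw [hJ]; ring
    have b1 : ⟪u, x⟫ = ⟪x, u⟫ := real_inner_comm _ _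
    have b2 : ⟪z, y⟫ = ⟪y, z⟫ := real_inner_comm _ _
    have b3 : ⟪z, x⟫ = ⟪x, z⟫ := real_inner_comm _ _
    have b4 : ⟪u, y⟫ = ⟪y, u⟫ := real_inner_comm _ _
    rw [a1, a2, a3, a4, a5, a6, b1, b2, b3, b4]; ring
  bianchi x y z u := by
    have a1 : ⟪J x, y⟫ = -⟪J y, x⟫ := by rw [hJ, real_inner_comm]
    have a2 : ⟪J x, z⟫ = -⟪J z, x⟫ := by rw [hJ, real_inner_comm]
    have a3 : ⟪J y, z⟫ = -⟪J z, y⟫ := by rw [hJ, real_inner_comm]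
    have c1 : ⟪x, J y⟫ = ⟪J y, x⟫ := real_inner_comm _ _
    have c2 : ⟪y, J z⟫ = ⟪J z, y⟫ := real_inner_comm _ _
    have c3 : ⟪z, J x⟫ = ⟪J x, z⟫ := real_inner_comm _ _
    have b2 : ⟪z, y⟫ = ⟪y, z⟫ := real_inner_comm _ _
    have b3 : ⟪z, x⟫ = ⟪x, z⟫ := real_inner_comm _ _
    have b4 : ⟪y, x⟫ = ⟪x, y⟫ := real_inner_comm _ _
    rw [c1, c2, c3, a1, a2, a3, b2, b3, b4]; ring

lemma cpT_toFun (J : E n →ₗ[ℝ] E n) (hJ : ∀ x y : E n, ⟪J x, y⟫ = -⟪x, J y⟫)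
    (x y z u : E n) : (cpT J hJ).toFun x y z u = ⟪y, z⟫ * ⟪x, u⟫ - ⟪x, z⟫ * ⟪y, u⟫
      + ⟪J y, z⟫ * ⟪J x, u⟫ - ⟪J x, z⟫ * ⟪J y, u⟫ + 2 * (⟪x, J y⟫ * ⟪J z, u⟫) := rfl

lemma cpT_sec (J : E n →ₗ[ℝ] E n) (hJ : ∀ x y : E n, ⟪J x, y⟫ = -⟪x, J y⟫) (x y : E n) :
    (cpT J hJ).toFun x y y x = ‖x‖ ^ 2 * ‖y‖ ^ 2 - ⟪x, y⟫ ^ 2 + 3 * ⟪J x, y⟫ ^ 2 := by
  have h0 : ⟪J x, x⟫ = 0 := by
    have h := hJ x x
    rw [real_inner_comm (J x) x] at h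
    linarith
  have h1 : ⟪J y, x⟫ = -⟪J x, y⟫ := by rw [hJ, real_inner_comm]
  have h2 : ⟪x, J y⟫ = -⟪J x, y⟫ := by rw [hJ]; ring
  have h3 : ⟪y, x⟫ = ⟪x, y⟫ := real_inner_comm _ _
  rw [cpT_toFun, h0, h1, h2, h3, real_inner_self_eq_norm_sq, real_inner_self_eq_norm_sq]
  ring

theorem curv_formula (R : CurvTensor n) (k : ℝ) (J : E n →ₗ[ℝ] E n)
    (hJ : ∀ x y : E n, ⟪J x, y⟫ = -⟪x, J y⟫)
    (h : ∀ x y : E n, R.toFun x y y x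
      = k * (‖x‖ ^ 2 * ‖y‖ ^ 2 - ⟪x, y⟫ ^ 2 + 3 * ⟪J x, y⟫ ^ 2)) (x y z u : E n) :
    R.toFun x y z u = k * (⟪y, z⟫ * ⟪x, u⟫ - ⟪x, z⟫ * ⟪y, u⟫ + ⟪J y, z⟫ * ⟪J x, u⟫
      - ⟪J x, z⟫ * ⟪J y, u⟫ + 2 * (⟪x, J y⟫ * ⟪J z, u⟫)) := by
  have h1 := curv_ext R (smulT k (cpT J hJ)) (fun x y => by
    rw [h x y]
    show _ = k * (cpT J hJ).toFun x y y x
    rw [cpT_sec]) x y z u
  rw [h1]
  rfl

end Pool.Agent.H8.RG
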