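import Pool.Agent.H8.RG.Cpt

set_option autoImplicit false

/-!
# Nonnegative sectional curvature and zero scalar curvature: the tensor vanishes
-/

namespace Pool.Agent.H8.RG

open Pool.Agent.H61.YP
open scoped BigOperators RealInnerProductSpace

variable {n : ℕ}

theorem zero_of_scal (W : CurvTensor n) (hpos : ∀ x y : E n, 0 ≤ W.toFun x y y x)
    (h0 : W.scal = 0) (x y z u : E n) : W.toFun x y z u = 0 := by
  have h1 : ∀ i j k l, W.comp i j k l = 0 := by
    intro i j k l
    have := comp_le W hpos i j k l
    rw [h0, mul_zero] at this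
    exact abs_nonpos_iff.mp this
  rw [W.expand]
  simp [h1]

end Pool.Agent.H8.RG
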