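import Pool.Agent.H8.RG.Fin1
import Pool.Agent.H8.RG.Lin
import Pool.Agent.H8.RG.Cplx
import Pool.Agent.H8.RG.Par
import Pool.Agent.H8.RG.Polar
import Pool.Agent.H8.RG.Zero
import Pool.Agent.H8.RG.CP

set_option autoImplicit false

/-!
# Rigidity of the scalar normalised pinching
-/

namespace Pool.Agent.H8.RG

open Pool.Agent.H61.YP
open scoped BigOperators RealInnerProductSpace

variable {n : ℕ}

/-- the pinching constant is positive -/
lemma k_pos (R : CurvTensor n) (hn : 0 < n) (hR : ∃ x y z u, R.toFun x y z u ≠ 0) (k : ℝ)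
    (hk : R.scal = k * (n * (n + 2)))
    (h : ∀ x y : E n, k * (‖x‖ ^ 2 * ‖y‖ ^ 2 - ⟪x, y⟫ ^ 2) ≤ R.toFun x y y x) : 0 < k := by
  have hn' : (0 : ℝ) < n := by exact_mod_cast hn
  have h1 : (resid R k).scal = 3 * n * k := by rw [resid_scal, hk]; ring
  have h2 : 0 ≤ (resid R k).scal :=
    Finset.sum_nonneg fun i _ => Finset.sum_nonneg fun j _ => resid_pos R k h _ _
  rw [h1] at h2
  have h3 : 0 ≤ k := nonneg_of_mul_nonneg_right h2 (by positivity)
  rcases eq_or_lt_of_le h3 with h4 | h4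
  · exfalso
    obtain ⟨x, y, z, u, hne⟩ := hR
    apply hne
    have h5 := zero_of_scal (resid R k) (resid_pos R k h) (by rw [h1, ← h4, mul_zero]) x y z u
    have h6 : (resid R k).toFun x y z u
        = R.toFun x y z u - k * (⟪y, z⟫ * ⟪x, u⟫ - ⟪x, z⟫ * ⟪y, u⟫) := rfl
    rw [h6, ← h4, zero_mul, sub_zero] at h5
    exact h5
  · exact h4

theorem rigid_one (R : CurvTensor n) (hn : 1 < n) (hR : ∃ x y z u, R.toFun x y z u ≠ 0) (k : ℝ)
    (hk : R.scal = k * (n * (n + 2)))
    (h : ∀ x y : E n, k * (‖x‖ ^ 2 * ‖y‖ ^ 2 - ⟪x, y⟫ ^ 2) ≤ R.toFun x y y x)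
    (ω : Form n 1) (hω : ω ≠ 0) : 0 < R.weitzForm ω := by
  have hkp := k_pos R (by omega) hR k hk h
  have h1 := rA_one_nonneg (resid R k) (resid_pos R k h) ω
  rw [resid_comp, CurvTensor.rA_wA] at h1
  rw [CurvTensor.weitzForm_one]
  have h2 := CurvTensor.ip_pos ω hω
  have hn' : (1 : ℝ) < n := by exact_mod_cast hn
  have h3 : 0 < k * (((n : ℝ) - 1) * ip ω ω) := by
    apply mul_pos hkp
    apply mul_pos _ h2
    linarith
  linarith

theorem rigid_two {q : ℕ} (R : CurvTensor n) (hR : ∃ x y z u, R.toFun x y z u ≠ 0) (k : ℝ)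
    (hk : R.scal = k * (n * (n + 2)))
    (h : ∀ x y : E n, k * (‖x‖ ^ 2 * ‖y‖ ^ 2 - ⟪x, y⟫ ^ 2) ≤ R.toFun x y y x)
    (ω : Form n (q + 2)) (hq : q + 2 < n) (hω : ω ≠ 0) (hle : R.weitzForm ω ≤ 0) :
    Even n ∧ Even q ∧ IsCP R := by
  have hn : 0 < n := by omega
  have hn' : (0 : ℝ) < n := by exact_mod_cast hn
  have hkp := k_pos R hn hR k hk h
  set W := resid R k with hWd
  have hWpos : ∀ x y : E n, 0 ≤ W.toFun x y y x := resid_pos R k h
  have hscal : W.scal = 3 * n * k := by rw [hWd, resid_scal, hk]; ring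
  have hscal_pos : 0 < W.scal := by rw [hscal]; positivity
  have hcore := core_of_weitz R k hk h ω hq hle
  have hmain := main_eq W hWpos ω hq hcore
  have hjac : ∃ x v, jac W x v ≠ 0 := by
    by_contra hcon
    push Not at hcon
    have h1 : W.scal = 0 := by
      unfold CurvTensor.scal
      refine Finset.sum_eq_zero fun i _ => Finset.sum_eq_zero fun j _ => ?_
      rw [← inner_jac, hcon, inner_zero_left]
    linarith
  obtain ⟨c, hM⟩ := scalar_of_eq W (MB ω) (MB_comm ω) hjac (fun x v u => by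
    rw [(hmain x v u).1, (hmain x v u).2])
  have hc : 0 < c := by
    have h1 : ip ω ω = n * c := by
      rw [← trace_MB]
      have : ∀ i : Fin n, MB ω (e i) (e i) = c := by
        intro i
        rw [hM, real_inner_self_eq_norm_sq]
        simp [e]
      simp [this]
    have h2 := CurvTensor.ip_pos ω hω
    rw [h1] at h2
    exact (pos_iff_pos_of_mul_pos h2).mp hn'
  have hD := van_jac W ω (fun x v u => (hmain x v u).1)
  obtain ⟨T, hTs, hTW⟩ := exists_skew W hWpos (rank_one W ω c hc hM hq hD)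
  have hT0 : T ≠ 0 := by
    intro h0
    obtain ⟨x, v, hx⟩ := hjac
    apply hx
    rw [jac_T W T hTW, h0]
    simp
  obtain ⟨c', J, hc', hJ, hJo, hJW, hJs⟩ := exists_complex W T hTs hTW hT0
    (tt_par W ω c hc hM hq hD T hTs hTW)
  have hck : c' = 3 * k := by
    rw [hscal] at hJs
    have : c' * n = 3 * k * n := by rw [← hJs]; ring
    exact mul_right_cancel₀ hn'.ne' this
  have hJskew : ∀ x y : E n, ⟪J x, y⟫ = -⟪x, J y⟫ := by
    intro x y
    have h1 := hJo x (J y)
    rw [hJ, inner_neg_right] at h1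
    linarith
  refine ⟨even_of_complex J hJ hJo, ?_, k, J, hkp, hJ, hJo, ?_⟩
  · refine even_deg J hJ hJo ω hω fun x => ?_
    by_cases hx : x = 0
    · subst hx
      intro v _
      rw [map_zero]; rfl
    · have hJx : J x ≠ 0 := by
        intro h0
        have h1 := hJo x x
        rw [h0, inner_zero_left, real_inner_self_eq_norm_sq] at h1
        have : 0 < ‖x‖ ^ 2 := by positivity
        linarith
      have hJx2 : 0 < ‖J x‖ ^ 2 := by positivity
      have hsq : Real.sqrt c' ≠ 0 := (Real.sqrt_pos.mpr hc').ne'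
      have h1 := jac_T W (Real.sqrt c' • J) (fun x y => by
        rw [hJW, LinearMap.smul_apply, real_inner_smul_left, mul_pow, Real.sq_sqrt hc'.le]) x (J x)
      have h2 : jac W x (J x) = (c' * ‖J x‖ ^ 2) • J x := by
        rw [h1, LinearMap.smul_apply, real_inner_smul_left, real_inner_self_eq_norm_sq, smul_smul]
        congr 1
        rw [mul_right_comm, ← sq, Real.sq_sqrt hc'.le]
      have hne : c' * ‖J x‖ ^ 2 ≠ 0 := by positivity
      have h3 := hD x (J x) (by
        rw [h2]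
        exact smul_ne_zero hne hJx)
      rw [h2] at h3
      exact van_smul _ _ _ hne h3
  · refine curv_formula R k J hJskew fun x y => ?_
    have h1 := hJW x y
    have h2 : W.toFun x y y x
        = R.toFun x y y x - k * (⟪y, y⟫ * ⟪x, x⟫ - ⟪x, y⟫ * ⟪y, x⟫) := rfl
    rw [h2, hck, real_inner_self_eq_norm_sq, real_inner_self_eq_norm_sq,
      real_inner_comm x y] at h1
    linear_combination h1

/-- **Rigidity.** -/
theorem rigid (n p : ℕ) (hp : 0 < p) (hpn : p < n) (R : CurvTensor n)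
    (hR : ∃ x y z u, R.toFun x y z u ≠ 0)
    (h : ∀ x y : E n, ‖x‖ = 1 → ‖y‖ = 1 → ⟪x, y⟫ = 0 →
      R.scal / (n * (n + 2)) ≤ R.toFun x y y x)
    (hω : ∃ ω : Form n p, ω ≠ 0 ∧ R.weitzForm ω ≤ 0) :
    Even n ∧ Even p ∧ IsCP R := by
  have hn' : (0 : ℝ) < n := by
    have : 0 < n := by omega
    exact_mod_cast this
  have hk : R.scal = R.scal / (n * (n + 2)) * (n * (n + 2)) := by
    field_simp
  have h' := R.sec_ext _ h
  obtain ⟨ω, hω0, hle⟩ := hω
  rcases p with _ | _ | q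
  · exact absurd hp (lt_irrefl 0)
  · exact absurd (rigid_one R (by omega) hR _ hk h' ω hω0) (not_lt.mpr hle)
  · obtain ⟨h1, h2, h3⟩ := rigid_two R hR _ hk h' ω hpn hω0 hle
    refine ⟨h1, ?_, h3⟩
    obtain ⟨r, hr⟩ := h2
    exact ⟨r + 1, by omega⟩

end Pool.Agent.H8.RG
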