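import Pool.Agent.H8.RG.Core2
import Pool.Agent.H8.RG.Ker

set_option autoImplicit false

/-!
# 2-forms in odd dimensions
-/

namespace Pool.Agent.H8.RG

open Pool.Agent.H61.YP
open scoped BigOperators RealInnerProductSpace

variable {n : ℕ}

/-- **Lower bound for the Weitzenböck operator on 2-forms in odd dimensions.** -/
theorem lower_odd (hn : Odd n) (h3 : 3 ≤ n) (R : CurvTensor n) (c : ℝ)
    (h : ∀ x y : E n, ‖x‖ = 1 → ‖y‖ = 1 → ⟪x, y⟫ = 0 → c ≤ R.toFun x y y x)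
    (ω : Form n 2) :
    2 / (3 * ((n : ℝ) - 1))
      * ((((n : ℝ) - 1) * (n ^ 2 - 6) * c - ((n : ℝ) - 3) * R.scal) * ip ω ω)
      ≤ R.weitzForm ω := by
  have h' := R.sec_ext c h
  obtain ⟨ν, hν, hk⟩ := exists_kernel hn ω
  have h1 := lower_ker (q := 0) R c h' ω h3 ν hν hk
  refine le_of_eq_of_le ?_ h1
  have hn3 : ((3 : ℕ) : ℝ) ≤ n := by exact_mod_cast h3
  push_cast at hn3
  have hn1 : (n : ℝ) - 1 ≠ 0 := by
    intro h0
    linarith
  push_cast
  field_simp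
  ring

/-- **Positivity on 2-forms in odd dimensions.** -/
theorem pinched_odd (hn : Odd n) (h3 : 3 ≤ n) (R : CurvTensor n)
    (h : ∀ x y : E n, ‖x‖ = 1 → ‖y‖ = 1 → ⟪x, y⟫ = 0 →
      ((n : ℝ) - 3) / ((n - 1) * (n ^ 2 - 6)) * R.scal < R.toFun x y y x)
    (ω : Form n 2) (hω : ω ≠ 0) : 0 < R.weitzForm ω := by
  obtain ⟨c, hc, hmin⟩ := R.exists_min (by omega) _ h
  have h1 := lower_odd hn h3 R c hmin ω
  refine lt_of_lt_of_le ?_ h1
  have hn3 : ((3 : ℕ) : ℝ) ≤ n := by exact_mod_cast h3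
  push_cast at hn3
  have hn1 : (0 : ℝ) < (n : ℝ) - 1 := by linarith
  have hn6 : (0 : ℝ) < (n : ℝ) ^ 2 - 6 := by nlinarith
  have h2 : 0 < ((n : ℝ) - 1) * (n ^ 2 - 6) * c - ((n : ℝ) - 3) * R.scal := by
    have h4 : ((n : ℝ) - 3) / ((n - 1) * (n ^ 2 - 6)) * R.scal
        = ((n : ℝ) - 3) * R.scal / ((n - 1) * (n ^ 2 - 6)) := by ring
    have h5 : ((n : ℝ) - 3) * R.scal / ((n - 1) * (n ^ 2 - 6)) < c := by
      rw [← h4]; exact hc
    have h6 := (div_lt_iff₀ (by positivity : (0 : ℝ) < (n - 1) * (n ^ 2 - 6))).mp h5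
    linarith
  have h3 := CurvTensor.ip_pos ω hω
  positivity

/-- degree one under any nonnegative pinching -/
theorem pinched_one (hn : 2 ≤ n) (R : CurvTensor n)
    (h : ∀ x y : E n, ‖x‖ = 1 → ‖y‖ = 1 → ⟪x, y⟫ = 0 → 0 < R.toFun x y y x)
    (ω : Form n 1) (hω : ω ≠ 0) : 0 < R.weitzForm ω := by
  obtain ⟨c, hc, hmin⟩ := R.exists_min hn _ h
  have h' := R.sec_ext c hmin
  have hpos := R.wA_pos c h'
  have hi : ∀ (i : Fin n) (v : Fin n → ℝ), 0 ≤ ∑ j, ∑ k, v j * v k * R.wA c i j k i := by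
    intro i v
    have := hpos (fun m => if m = i then 1 else 0) v
    simpa using this
  have hr : 0 ≤ rA (R.wA c) ω := by
    unfold rA ricA
    have : ∀ j k : Fin n, (∑ i, R.wA c i j k i) * MB ω (e j) (e k)
        = ∑ i, ω.curryLeft (e j) ![] * ω.curryLeft (e k) ![] * R.wA c i j k i := by
      intro j k
      rw [MB_apply, CurvTensor.ip_zero_deg, Finset.sum_mul]
      refine Finset.sum_congr rfl fun i _ => ?_
      ring
    simp_rw [this]
    rw [← comm2 (fun i j k => ω.curryLeft (e j) ![] * ω.curryLeft (e k) ![] * R.wA c i j k i)]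
    exact Finset.sum_nonneg fun i _ => hi i (fun j => ω.curryLeft (e j) ![])
  rw [CurvTensor.rA_wA] at hr
  rw [CurvTensor.weitzForm_one]
  have h2 := CurvTensor.ip_pos ω hω
  have hn2 : ((2 : ℕ) : ℝ) ≤ n := by exact_mod_cast hn
  push_cast at hn2
  have h3 : 0 < c * (((n : ℝ) - 1) * ip ω ω) := by
    apply mul_pos hc
    apply mul_pos _ h2
    linarith
  linarith

end Pool.Agent.H8.RG
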