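import Pool.Agent.H8.RG.Defs

set_option autoImplicit false

/-!
# A nonnegative quartic form with zero Gaussian mean vanishes
-/

namespace Pool.Agent.H8.RG

open Pool.Agent.H61.YP
open scoped BigOperators RealInnerProductSpace

variable {n : ℕ}

lemma onb_rows (b : OrthonormalBasis (Fin n) ℝ (E n)) (i l : Fin n) :
    ∑ k, b k i * b k l = dl i l := by
  have h := b.sum_inner_mul_inner (e i) (e l)
  have h1 : ∀ k, ⟪(e i : E n), b k⟫ * ⟪b k, e l⟫ = b k i * b k l := by
    intro k
    simp [e, EuclideanSpace.inner_single_left, EuclideanSpace.inner_single_right]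
  simp_rw [h1] at h
  rw [h]
  simp [e, EuclideanSpace.inner_single_left, dl]

lemma tr_inv (b : OrthonormalBasis (Fin n) ℝ (E n)) (f : Fin n → Fin n → ℝ) :
    ∑ k, ∑ i, ∑ l, b k i * b k l * f i l = ∑ i, f i i := by
  rw [comm2 (fun k i l => b k i * b k l * f i l)]
  have h : ∀ i l : Fin n, ∑ k, b k i * b k l * f i l = dl i l * f i l := by
    intro i l
    rw [← Finset.sum_mul, onb_rows]
  simp_rw [h]
  refine Finset.sum_congr rfl fun i _ => ?_
  simp [dl]

/-- the 4-linear form with coefficients `c` -/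
noncomputable def F4 (c : Fin n → Fin n → Fin n → Fin n → ℝ) (x y z u : Fin n → ℝ) : ℝ :=
  ∑ i, ∑ l, ∑ a, ∑ b, x i * y l * z a * u b * c i l a b

lemma F4_pairs (c : Fin n → Fin n → Fin n → Fin n → ℝ)
    (b : OrthonormalBasis (Fin n) ℝ (E n)) :
    ∑ i, ∑ a, F4 c (fun j => b i j) (fun j => b i j) (fun j => b a j) (fun j => b a j)
      = ∑ i, ∑ a, c i i a a := by
  have h1 : ∀ i a : Fin n,
      F4 c (fun j => b i j) (fun j => b i j) (fun j => b a j) (fun j => b a j)
      = ∑ i', ∑ l', b i i' * b i l' * ∑ a', ∑ b', b a a' * b a b' * c i' l' a' b' := by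
    intro i a
    unfold F4
    refine Finset.sum_congr rfl fun i' _ => Finset.sum_congr rfl fun l' _ => ?_
    rw [Finset.mul_sum]
    refine Finset.sum_congr rfl fun a' _ => ?_
    rw [Finset.mul_sum]
    refine Finset.sum_congr rfl fun b' _ => ?_
    ring
  have h2 : ∀ i : Fin n, ∑ a,
      F4 c (fun j => b i j) (fun j => b i j) (fun j => b a j) (fun j => b a j)
      = ∑ i', ∑ l', b i i' * b i l' * ∑ a, c i' l' a a := by
    intro i
    simp_rw [h1]
    rw [comm2 (fun a i' l' => b i i' * b i l' * ∑ a', ∑ b', b a a' * b a b' * c i' l' a' b')]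
    refine Finset.sum_congr rfl fun i' _ => Finset.sum_congr rfl fun l' _ => ?_
    rw [← Finset.mul_sum, tr_inv b (fun a' b' => c i' l' a' b')]
  simp_rw [h2]
  rw [tr_inv b (fun i' l' => ∑ a, c i' l' a a)]

/-- the Gaussian mean of the quartic form -/
noncomputable def Q4 (c : Fin n → Fin n → Fin n → Fin n → ℝ) : ℝ :=
  ∑ i, ∑ a, (c i i a a + c i a i a + c i a a i)

lemma F4_perm23 (c : Fin n → Fin n → Fin n → Fin n → ℝ) (x y z u : Fin n → ℝ) :
    F4 (fun i l a b => c i a l b) x y z u = F4 c x z y u := by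
  unfold F4
  refine Finset.sum_congr rfl fun i _ => ?_
  rw [Finset.sum_comm]
  refine Finset.sum_congr rfl fun a _ => Finset.sum_congr rfl fun l _ =>
    Finset.sum_congr rfl fun b _ => ?_
  ring

lemma F4_perm34 (c : Fin n → Fin n → Fin n → Fin n → ℝ) (x y z u : Fin n → ℝ) :
    F4 (fun i l a b => c i l b a) x y z u = F4 c x y u z := by
  unfold F4
  refine Finset.sum_congr rfl fun i _ => Finset.sum_congr rfl fun l _ => ?_
  rw [Finset.sum_comm]
  refine Finset.sum_congr rfl fun b _ => Finset.sum_congr rfl fun a _ => ?_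
  ring

/-- the mean does not depend on the orthonormal basis -/
lemma Q4_inv (c : Fin n → Fin n → Fin n → Fin n → ℝ)
    (b : OrthonormalBasis (Fin n) ℝ (E n)) :
    Q4 (fun i l a d => F4 c (fun j => b i j) (fun j => b l j) (fun j => b a j) (fun j => b d j))
      = Q4 c := by
  unfold Q4
  simp only [Finset.sum_add_distrib]
  have h1 := F4_pairs c b
  have h2 := F4_pairs (fun i l a d => c i a l d) b
  have h3 := F4_pairs (fun i l a d => c i a d l) b
  simp_rw [F4_perm23] at h2
  have h4 : ∀ x y z u : Fin n → ℝ, F4 (fun i l a d => c i a d l) x y z u = F4 c x z u y := by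
    intro x y z u
    rw [F4_perm23 (fun i l a d => c i l d a), F4_perm34]
  simp_rw [h4] at h3
  rw [h1, h2, h3]

/-- the identity behind `quartic` -/
lemma quartic_id (c : Fin n → Fin n → Fin n → Fin n → ℝ) :
    ∑ ε : Fin n → Bool, F4 c (fun i => sg (ε i)) (fun i => sg (ε i)) (fun i => sg (ε i))
        (fun i => sg (ε i))
      = 2 ^ n * (Q4 c - 2 * ∑ i, c i i i i) := by
  have h2 : ∑ ε : Fin n → Bool,
      ∑ i, ∑ l, ∑ a, ∑ b, sg (ε i) * sg (ε l) * sg (ε a) * sg (ε b) * c i l a b
      = ∑ i, ∑ l, ∑ a, ∑ b, S4 i l a b * c i l a b := by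
    rw [Finset.sum_comm]
    refine Finset.sum_congr rfl fun i _ => ?_
    rw [Finset.sum_comm]
    refine Finset.sum_congr rfl fun l _ => ?_
    rw [Finset.sum_comm]
    refine Finset.sum_congr rfl fun a _ => ?_
    rw [Finset.sum_comm]
    refine Finset.sum_congr rfl fun b _ => ?_
    rw [S4, Finset.sum_mul]
  have h3 : ∑ i, ∑ l, ∑ a, ∑ b, S4 i l a b * c i l a b
      = 2 ^ n * ((∑ i, ∑ a, (c i i a a + c i a i a + c i a a i)) - 2 * ∑ i, c i i i i) := by
    simp only [S4_eq, dl]
    simp only [mul_add, mul_sub, add_mul, sub_mul, Finset.sum_add_distrib,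
      Finset.sum_sub_distrib, mul_ite, ite_mul, mul_one, mul_zero, one_mul, zero_mul,
      Finset.sum_ite_eq, Finset.sum_ite_eq', Finset.mem_univ, if_true]
    simp [Finset.sum_ite_eq, Finset.mul_sum, mul_assoc]
  unfold F4 Q4
  rw [h2, h3]

lemma diag_zero (c : Fin n → Fin n → Fin n → Fin n → ℝ)
    (h : ∀ x : Fin n → ℝ, 0 ≤ F4 c x x x x) (h0 : Q4 c = 0) (k : Fin n) : c k k k k = 0 := by
  have h1 : 0 ≤ ∑ ε : Fin n → Bool, F4 c (fun i => sg (ε i)) (fun i => sg (ε i))
      (fun i => sg (ε i)) (fun i => sg (ε i)) := Finset.sum_nonneg fun ε _ => h _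
  rw [quartic_id, h0] at h1
  have h2 := nonneg_of_mul_nonneg_right h1 (by positivity)
  have h4 : ∀ k : Fin n, 0 ≤ c k k k k := by
    intro k
    have := h (fun i => if i = k then 1 else 0)
    simpa [F4] using this
  have h5 : ∑ k, c k k k k = 0 := by
    have : 0 ≤ ∑ k, c k k k k := Finset.sum_nonneg fun k _ => h4 k
    linarith
  exact (Finset.sum_eq_zero_iff_of_nonneg fun k _ => h4 k).mp h5 k (Finset.mem_univ k)

lemma F4_comp (c : Fin n → Fin n → Fin n → Fin n → ℝ) (b : OrthonormalBasis (Fin n) ℝ (E n))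
    (x : Fin n → ℝ) :
    F4 (fun i l a d => F4 c (fun j => b i j) (fun j => b l j) (fun j => b a j) (fun j => b d j))
      x x x x
      = F4 c (fun j => ∑ i, x i * b i j) (fun j => ∑ i, x i * b i j)
        (fun j => ∑ i, x i * b i j) (fun j => ∑ i, x i * b i j) := by
  -- expand one slot at a time
  have L1 : ∀ (y z u : Fin n → ℝ) (x : Fin n → ℝ),
      F4 c (fun j => ∑ i, x i * b i j) y z u = ∑ i, x i * F4 c (fun j => b i j) y z u := by
    intro y z u x
    unfold F4
    simp only [Finset.mul_sum, Finset.sum_mul]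
    rw [comm4 (fun i j l a d => x i * (b i j * y l * z a * u d * c j l a d))]
    refine Finset.sum_congr rfl fun _ _ => Finset.sum_congr rfl fun _ _ =>
      Finset.sum_congr rfl fun _ _ => Finset.sum_congr rfl fun _ _ =>
      Finset.sum_congr rfl fun _ _ => ?_
    ring
  have L2 : ∀ (y z u : Fin n → ℝ) (x : Fin n → ℝ),
      F4 c y (fun j => ∑ i, x i * b i j) z u = ∑ i, x i * F4 c y (fun j => b i j) z u := by
    intro y z u x
    unfold F4
    simp only [Finset.mul_sum, Finset.sum_mul]
    rw [comm4 (fun i j l a d => x i * (y j * b i l * z a * u d * c j l a d))]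
    refine Finset.sum_congr rfl fun _ _ => Finset.sum_congr rfl fun _ _ =>
      Finset.sum_congr rfl fun _ _ => Finset.sum_congr rfl fun _ _ =>
      Finset.sum_congr rfl fun _ _ => ?_
    ring
  have L3 : ∀ (y z u : Fin n → ℝ) (x : Fin n → ℝ),
      F4 c y z (fun j => ∑ i, x i * b i j) u = ∑ i, x i * F4 c y z (fun j => b i j) u := by
    intro y z u x
    unfold F4
    simp only [Finset.mul_sum, Finset.sum_mul]
    rw [comm4 (fun i j l a d => x i * (y j * z l * b i a * u d * c j l a d))]
    refine Finset.sum_congr rfl fun _ _ => Finset.sum_congr rfl fun _ _ =>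
      Finset.sum_congr rfl fun _ _ => Finset.sum_congr rfl fun _ _ =>
      Finset.sum_congr rfl fun _ _ => ?_
    ring
  have L4 : ∀ (y z u : Fin n → ℝ) (x : Fin n → ℝ),
      F4 c y z u (fun j => ∑ i, x i * b i j) = ∑ i, x i * F4 c y z u (fun j => b i j) := by
    intro y z u x
    unfold F4
    simp only [Finset.mul_sum, Finset.sum_mul]
    rw [comm4 (fun i j l a d => x i * (y j * z l * u a * b i d * c j l a d))]
    refine Finset.sum_congr rfl fun _ _ => Finset.sum_congr rfl fun _ _ =>
      Finset.sum_congr rfl fun _ _ => Finset.sum_congr rfl fun _ _ =>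
      Finset.sum_congr rfl fun _ _ => ?_
    ring
  rw [L1]
  simp_rw [L2, L3, L4]
  rw [F4]
  simp only [Finset.mul_sum]
  refine Finset.sum_congr rfl fun _ _ => Finset.sum_congr rfl fun _ _ =>
      Finset.sum_congr rfl fun _ _ => Finset.sum_congr rfl fun _ _ => ?_
  ring

theorem quartic_zero (c : Fin n → Fin n → Fin n → Fin n → ℝ)
    (h : ∀ x : Fin n → ℝ, 0 ≤ F4 c x x x x) (h0 : Q4 c = 0) (x : Fin n → ℝ) :
    F4 c x x x x = 0 := by
  by_cases hx : x = 0
  · subst hx; simp [F4]
  have hx' : (vec x : E n) ≠ 0 := by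
    intro h1
    apply hx
    funext i
    have := congrArg (fun v : E n => v i) h1
    simpa using this
  have hne : 0 < ‖(vec x : E n)‖ := norm_pos_iff.mpr hx'
  have hn : 0 < n := by
    rcases Nat.eq_zero_or_pos n with hn | hn
    · subst hn; exact absurd (Subsingleton.elim _ _) hx
    · exact hn
  set y : E n := (‖(vec x : E n)‖)⁻¹ • vec x with hy
  have hy1 : ‖y‖ = 1 := by rw [hy, norm_smul, norm_inv, norm_norm]; field_simp
  obtain ⟨b, hb⟩ := Orthonormal.exists_orthonormalBasis_extension_of_card_eq (𝕜 := ℝ)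
    (E := E n) (ι := Fin n) (by simp) (v := fun _ => y) (s := {⟨0, hn⟩}) (by
      rw [orthonormal_iff_ite]
      rintro ⟨i, hi⟩ ⟨j, hj⟩
      have hij : i = j := by
        rw [Set.mem_singleton_iff] at hi hj
        rw [hi, hj]
      subst hij
      simp [hy1])
  have hb0 : b ⟨0, hn⟩ = y := hb _ rfl
  have h1 := diag_zero
    (fun i l a d => F4 c (fun j => b i j) (fun j => b l j) (fun j => b a j) (fun j => b d j))
    (fun x => by rw [F4_comp]; exact h _) (by rw [Q4_inv, h0]) ⟨0, hn⟩
  simp only [hb0] at h1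
  have h2 : F4 c x x x x = ‖(vec x : E n)‖ ^ 4 * F4 c (fun j => y j) (fun j => y j)
      (fun j => y j) (fun j => y j) := by
    unfold F4
    simp only [Finset.mul_sum]
    refine Finset.sum_congr rfl fun i _ => Finset.sum_congr rfl fun l _ =>
      Finset.sum_congr rfl fun a _ => Finset.sum_congr rfl fun d _ => ?_
    have h3 : ∀ j, x j = ‖(vec x : E n)‖ * y j := by
      intro j
      rw [hy]
      simp only [PiLp.smul_apply, smul_eq_mul, vec_apply]
      field_simp
    rw [h3 i, h3 l, h3 a, h3 d]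
    ring
  rw [h2, h1, mul_zero]

theorem moment_zero {κ : Type*} [Fintype κ] (A B : κ → Fin n → Fin n → ℝ)
    (h : ∀ x : Fin n → ℝ, 0 ≤ ∑ m, (∑ i, ∑ l, x i * x l * A m i l)
      * (∑ a, ∑ b, x a * x b * B m a b))
    (h0 : ∑ m, ((∑ i, A m i i) * (∑ a, B m a a)
      + ∑ i, ∑ l, A m i l * (B m i l + B m l i)) = 0) (x : Fin n → ℝ) :
    ∑ m, (∑ i, ∑ l, x i * x l * A m i l) * (∑ a, ∑ b, x a * x b * B m a b) = 0 := by
  have key : ∀ x : Fin n → ℝ,
      ∑ m, (∑ i, ∑ l, x i * x l * A m i l) * (∑ a, ∑ b, x a * x b * B m a b)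
        = F4 (fun i l a b => ∑ m, A m i l * B m a b) x x x x := by
    intro x
    have h1 : ∀ m, (∑ i, ∑ l, x i * x l * A m i l) * (∑ a, ∑ b, x a * x b * B m a b)
        = ∑ i, ∑ l, ∑ a, ∑ b, x i * x l * x a * x b * (A m i l * B m a b) := by
      intro m
      rw [Finset.sum_mul]
      refine Finset.sum_congr rfl fun i _ => ?_
      rw [Finset.sum_mul]
      refine Finset.sum_congr rfl fun l _ => ?_
      rw [Finset.mul_sum]
      refine Finset.sum_congr rfl fun a _ => ?_
      rw [Finset.mul_sum]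
      refine Finset.sum_congr rfl fun b _ => ?_
      ring
    simp_rw [h1]
    rw [comm4]
    unfold F4
    simp_rw [Finset.mul_sum]
  rw [key]
  refine quartic_zero _ (fun y => by rw [← key]; exact h y) ?_ x
  rw [← h0]
  have h2 : ∀ m, (∑ i, A m i i) * (∑ a, B m a a) + ∑ i, ∑ l, A m i l * (B m i l + B m l i)
      = ∑ i, ∑ a, (A m i i * B m a a + A m i a * B m i a + A m i a * B m a i) := by
    intro m
    rw [Finset.sum_mul_sum, ← Finset.sum_add_distrib]
    refine Finset.sum_congr rfl fun i _ => ?_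
    rw [← Finset.sum_add_distrib]
    refine Finset.sum_congr rfl fun a _ => ?_
    ring
  simp_rw [h2]
  rw [comm2]
  unfold Q4
  refine Finset.sum_congr rfl fun i _ => Finset.sum_congr rfl fun a _ => ?_
  rw [Finset.sum_add_distrib, Finset.sum_add_distrib]

end Pool.Agent.H8.RG
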