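import Pool.Agent.H8.RG.Defs

set_option autoImplicit false

/-!
# The contraction form is a multiple of the metric
-/

namespace Pool.Agent.H8.RG

open Pool.Agent.H61.YP
open scoped BigOperators RealInnerProductSpace

variable {n : ℕ}

lemma quad_mul (p0 p1 p2 r0 r1 r2 : ℝ)
    (h : ∀ t : ℝ, (p0 + p1 * t + p2 * t ^ 2) * (r0 + r1 * t + r2 * t ^ 2) = 0) (hp : p0 ≠ 0) :
    r0 = 0 ∧ r1 = 0 ∧ r2 = 0 := by
  have h0 := h 0
  have h1 := h 1
  have h2 := h (-1)
  have h3 := h 2
  have h4 := h (-2)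
  have e0 : p0 * r0 = 0 := by linarith
  have a1 : (p0 * r2 + p1 * r1 + p2 * r0) + p2 * r2 = 0 := by linarith
  have a2 : 4 * (p0 * r2 + p1 * r1 + p2 * r0) + 16 * (p2 * r2) = 0 := by linarith
  have a3 : (p0 * r1 + p1 * r0) + (p1 * r2 + p2 * r1) = 0 := by linarith
  have a4 : 2 * (p0 * r1 + p1 * r0) + 8 * (p1 * r2 + p2 * r1) = 0 := by linarith
  have c1 : p0 * r1 + p1 * r0 = 0 := by linarith
  have c2 : p0 * r2 + p1 * r1 + p2 * r0 = 0 := by linarith
  have z0 : r0 = 0 := (mul_eq_zero.mp e0).resolve_left hp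
  have z1 : r1 = 0 := by
    rw [z0, mul_zero, add_zero] at c1
    exact (mul_eq_zero.mp c1).resolve_left hp
  have z2 : r2 = 0 := by
    rw [z0, z1, mul_zero, mul_zero, add_zero, add_zero] at c2
    exact (mul_eq_zero.mp c2).resolve_left hp
  exact ⟨z0, z1, z2⟩

/-- **The form is a multiple of the metric.** -/
theorem scalar_of_eq (W : CurvTensor n) (B : E n →ₗ[ℝ] E n →ₗ[ℝ] ℝ)
    (hs : ∀ x y, B x y = B y x) (hW : ∃ x v, jac W x v ≠ 0)
    (h : ∀ x v u : E n, B x x * ⟪jac W x v, u⟫ = ‖x‖ ^ 2 * B (jac W x v) u) :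
    ∃ c : ℝ, ∀ x y : E n, B x y = c * ⟪x, y⟫ := by
  -- the operator of `B`
  let T : E n →ₗ[ℝ] E n :=
    { toFun := fun x => ∑ i, B x (e i) • (e i : E n)
      map_add' := fun x y => by
        rw [← Finset.sum_add_distrib]
        refine Finset.sum_congr rfl fun i _ => ?_
        rw [map_add, LinearMap.add_apply, add_smul]
      map_smul' := fun c x => by
        rw [RingHom.id_apply, Finset.smul_sum]
        refine Finset.sum_congr rfl fun i _ => ?_
        rw [map_smul, LinearMap.smul_apply, smul_eq_mul, mul_smul] }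
  have hT : ∀ x y : E n, ⟪T x, y⟫ = B x y := fun x y => inner_sum_e (B x) y
  have hsym : T.IsSymmetric := by
    intro x y
    rw [hT, real_inner_comm, hT, hs]
  have hn : Module.finrank ℝ (E n) = n := by simp
  set b := hsym.eigenvectorBasis hn with hb
  have hTb : ∀ k, T (b k) = hsym.eigenvalues hn k • b k := fun k =>
    hsym.apply_eigenvectorBasis hn k
  obtain ⟨x0, v0, hx0⟩ := hW
  obtain ⟨k, hk⟩ : ∃ k, ⟪jac W x0 v0, b k⟫ ≠ 0 := by
    by_contra hcon
    push Not at hcon
    apply hx0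
    rw [← b.sum_repr (jac W x0 v0)]
    refine Finset.sum_eq_zero fun i _ => ?_
    rw [b.repr_apply_apply, real_inner_comm, hcon i, zero_smul]
  set μ : ℝ := hsym.eigenvalues hn k with hμ
  have hprod : ∀ x : E n, (B x x - μ * ‖x‖ ^ 2) * ⟪jac W x v0, b k⟫ = 0 := by
    intro x
    have h1 := h x v0 (b k)
    have h2 : B (jac W x v0) (b k) = μ * ⟪jac W x v0, b k⟫ := by
      rw [hs, ← hT, hTb, real_inner_smul_left, real_inner_comm]
    rw [h2] at h1
    linear_combination h1
  refine ⟨μ, ?_⟩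
  have hall : ∀ x : E n, B x x = μ * ⟪x, x⟫ := by
    intro x1
    by_contra hne
    have hne' : B x1 x1 - μ * ‖x1‖ ^ 2 ≠ 0 := by
      intro h0
      apply hne
      rw [real_inner_self_eq_norm_sq]
      linarith
    set z : E n := x0 - x1 with hz
    have hP : ∀ t : ℝ, B (x1 + t • z) (x1 + t • z) - μ * ‖x1 + t • z‖ ^ 2
        = (B x1 x1 - μ * ‖x1‖ ^ 2) + (2 * B x1 z - μ * (2 * ⟪x1, z⟫)) * t
          + (B z z - μ * ‖z‖ ^ 2) * t ^ 2 := by
      intro t
      rw [norm_add_sq_real, norm_smul, real_inner_smul_right]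
      simp only [map_add, map_smul, LinearMap.add_apply, LinearMap.smul_apply, smul_eq_mul]
      rw [hs z x1, mul_pow, Real.norm_eq_abs, sq_abs]
      ring
    have hR : ∀ t : ℝ, ⟪jac W (x1 + t • z) v0, b k⟫
        = W.toFun x1 v0 (b k) x1 + (W.toFun x1 v0 (b k) z + W.toFun z v0 (b k) x1) * t
          + W.toFun z v0 (b k) z * t ^ 2 := by
      intro t
      rw [inner_jac]
      simp only [W.add_left, W.smul_left, W.add_four, W.smul_four]
      ring
    have h5 := quad_mul (B x1 x1 - μ * ‖x1‖ ^ 2) (2 * B x1 z - μ * (2 * ⟪x1, z⟫))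
      (B z z - μ * ‖z‖ ^ 2) (W.toFun x1 v0 (b k) x1)
      (W.toFun x1 v0 (b k) z + W.toFun z v0 (b k) x1) (W.toFun z v0 (b k) z)
      (fun t => by
        have h7 := hprod (x1 + t • z)
        rw [hP, hR] at h7
        exact h7) hne'
    apply hk
    have h6 := hR 1
    rw [one_smul, hz, add_sub_cancel] at h6
    rw [h6, ← hz, h5.1, h5.2.1, h5.2.2]
    ring
  intro x y
  have h1 := hall (x + y)
  simp only [map_add, LinearMap.add_apply, inner_add_left, inner_add_right] at h1
  rw [hall x, hall y, hs y x, real_inner_comm x y] at h1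
  linarith

end Pool.Agent.H8.RG
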