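import Pool.Agent.H8.RG.Defs

set_option autoImplicit false

/-!
# Sharpness of the constant for 2-forms in odd dimensions

The curvature tensor `Id + (3(n-2)/(n-3)) W_T`, `T = J` on `ℝ^(n-1)` and `0` on the last
coordinate, has minimal sectional curvature equal to the pinching constant, and the Weitzenböck
form vanishes at the 2-form of `T`.
-/

namespace Pool.Agent.H8.RG

open Pool.Agent.H61.YP
open scoped BigOperators RealInnerProductSpace

variable {n : ℕ}

/-- the standard skew matrix -/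
noncomputable def tm (n : ℕ) (i j : Fin n) : ℝ :=
  if (j : ℕ) = i + 1 ∧ (i : ℕ) % 2 = 0 then 1
  else if (i : ℕ) = j + 1 ∧ (j : ℕ) % 2 = 0 then -1 else 0

lemma tm_skew (i j : Fin n) : tm n j i = - tm n i j := by
  unfold tm
  split_ifs <;> first | omega | norm_num

/-- the indicator of the first `n - 1` coordinates -/
noncomputable def cf (n : ℕ) (j : Fin n) : ℝ := if (j : ℕ) + 1 = n then 0 else 1

lemma tm_gram (hn : Odd n) (j k : Fin n) : ∑ i, tm n j i * tm n k i = dl j k * cf n j := by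
  obtain ⟨m, hm⟩ := hn
  by_cases hjk : j = k
  · subst hjk
    have hd : dl j j = 1 := by simp [dl]
    rw [hd, one_mul]
    unfold cf
    split_ifs with hlast
    · refine Finset.sum_eq_zero fun i _ => ?_
      have : tm n j i = 0 := by
        unfold tm
        have hi := i.isLt
        rw [if_neg (by omega), if_neg (by omega)]
      rw [this, zero_mul]
    · have hj := j.isLt
      rcases Nat.mod_two_eq_zero_or_one (j : ℕ) with h | h
      · rw [Finset.sum_eq_single (⟨j + 1, by omega⟩ : Fin n)]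
        · unfold tm
          simp [h]
        · intro i _ hi
          have hne : (i : ℕ) ≠ j + 1 := fun h' => hi (Fin.ext h')
          have : tm n j i = 0 := by
            unfold tm
            rw [if_neg (by omega), if_neg (by omega)]
          rw [this, zero_mul]
        · intro h'
          exact absurd (Finset.mem_univ _) h'
      · rw [Finset.sum_eq_single (⟨j - 1, by omega⟩ : Fin n)]
        · unfold tm
          have h1 : ¬ ((j : ℕ) - 1 = j + 1 ∧ (j : ℕ) % 2 = 0) := by omega
          have h2 : (j : ℕ) = (j : ℕ) - 1 + 1 ∧ ((j : ℕ) - 1) % 2 = 0 := by omega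
          rw [if_neg h1, if_pos h2]
          norm_num
        · intro i _ hi
          have hne : (i : ℕ) ≠ j - 1 := fun h' => hi (Fin.ext h')
          have : tm n j i = 0 := by
            unfold tm
            rw [if_neg (by omega), if_neg (by omega)]
          rw [this, zero_mul]
        · intro h'
          exact absurd (Finset.mem_univ _) h'
  · have hd : dl j k = 0 := by simp [dl, hjk]
    rw [hd, zero_mul]
    have hne : (j : ℕ) ≠ k := fun h' => hjk (Fin.ext h')
    refine Finset.sum_eq_zero fun i _ => ?_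
    unfold tm
    split_ifs with h1 h2 h3 h4 h5 h6 h7 h8 <;> first | omega | simp

lemma sum_cf (hn : 1 ≤ n) : ∑ j, cf n j = (n : ℝ) - 1 := by
  have h1 : ∀ j : Fin n, cf n j = 1 - if j = ⟨n - 1, by omega⟩ then 1 else 0 := by
    intro j
    unfold cf
    by_cases h : (j : ℕ) + 1 = n
    · rw [if_pos h, if_pos (Fin.ext (by simp; omega))]
      norm_num
    · rw [if_neg h, if_neg (fun h' => h (by rw [h']; simp; omega))]
      norm_num
  simp_rw [h1]
  rw [Finset.sum_sub_distrib]
  simp

lemma cf_sq (j : Fin n) : cf n j * cf n j = cf n j := by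
  unfold cf
  split_ifs <;> norm_num

/-- the skew bilinear form of `tm` -/
noncomputable def Bt (n : ℕ) : E n →ₗ[ℝ] E n →ₗ[ℝ] ℝ :=
  LinearMap.mk₂ ℝ (fun x y => ∑ i, ∑ j, x i * y j * tm n i j)
    (fun x x' y => by
      simp only [PiLp.add_apply, add_mul, Finset.sum_add_distrib])
    (fun c x y => by
      simp only [PiLp.smul_apply, smul_eq_mul, Finset.mul_sum, mul_assoc])
    (fun x y y' => by
      simp only [PiLp.add_apply, mul_add, add_mul, Finset.sum_add_distrib])
    (fun c x y => by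
      simp only [PiLp.smul_apply, smul_eq_mul, Finset.mul_sum]
      refine Finset.sum_congr rfl fun i _ => Finset.sum_congr rfl fun j _ => ?_
      ring)

lemma Bt_apply (x y : E n) : Bt n x y = ∑ i, ∑ j, x i * y j * tm n i j := rfl

lemma Bt_e (i j : Fin n) : Bt n (e i) (e j) = tm n i j := by
  rw [Bt_apply, Finset.sum_eq_single i, Finset.sum_eq_single j]
  · simp [e]
  · intro b _ hb
    simp [e, hb]
  · simp
  · intro b _ hb
    refine Finset.sum_eq_zero fun c _ => ?_
    simp [e, hb]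
  · simp

lemma Bt_skew (x y : E n) : Bt n y x = - Bt n x y := by
  rw [Bt_apply, Bt_apply, Finset.sum_comm, ← Finset.sum_neg_distrib]
  refine Finset.sum_congr rfl fun i _ => ?_
  rw [← Finset.sum_neg_distrib]
  refine Finset.sum_congr rfl fun j _ => ?_
  rw [tm_skew i j]
  ring

lemma Bt_self (x : E n) : Bt n x x = 0 := by
  have := Bt_skew x x
  linarith

/-- the 2-form of `tm` -/
noncomputable def wt (n : ℕ) : Form n 2 where
  toFun v := Bt n (v 0) (v 1)
  map_update_add' := by
    intro _ v i x y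
    fin_cases i
    · simp
    · simp
  map_update_smul' := by
    intro _ v i c x
    fin_cases i
    · simp
    · simp
  map_eq_zero_of_eq' := by
    intro v i j hij hne
    fin_cases i <;> fin_cases j
    · exact absurd rfl hne
    · simp only [Fin.zero_eta, Fin.mk_one] at hij
      change Bt n (v 0) (v 1) = 0
      rw [hij]
      exact Bt_self _
    · simp only [Fin.zero_eta, Fin.mk_one] at hij
      change Bt n (v 0) (v 1) = 0
      rw [hij]
      exact Bt_self _
    · exact absurd rfl hne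

lemma wt_curry (x y : E n) : ((wt n).curryLeft x).curryLeft y ![] = Bt n x y := by
  rw [AlternatingMap.curryLeft_apply_apply, AlternatingMap.curryLeft_apply_apply]
  rfl

lemma Gm_wt (a j b k : Fin n) : Gm (wt n) a j b k = tm n a j * tm n b k := by
  unfold Gm
  rw [CurvTensor.ip_zero_deg, wt_curry, wt_curry, Bt_e, Bt_e]

lemma MB_wt (hn : Odd n) (j k : Fin n) : MB (wt n) (e j) (e k) = dl j k * cf n j := by
  rw [← tm_gram hn, MB_apply, ip_succ]
  refine Finset.sum_congr rfl fun i _ => ?_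
  rw [CurvTensor.ip_zero_deg, wt_curry, wt_curry, Bt_e, Bt_e]

/-- the curvature tensor `Id + κ W_T` -/
noncomputable def Rt (n : ℕ) (κ : ℝ) : CurvTensor n where
  toFun x y z u := (⟪y, z⟫ * ⟪x, u⟫ - ⟪x, z⟫ * ⟪y, u⟫)
    + κ / 3 * (Bt n y z * Bt n x u - Bt n x z * Bt n y u - 2 * (Bt n x y * Bt n z u))
  add_left x x' y z u := by
    rw [inner_add_left, inner_add_left, map_add, LinearMap.add_apply, LinearMap.add_apply,
      LinearMap.add_apply]
    ring
  smul_left a x y z u := by
    rw [real_inner_smul_left, real_inner_smul_left, map_smul, LinearMap.smul_apply,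
      LinearMap.smul_apply, LinearMap.smul_apply, smul_eq_mul, smul_eq_mul, smul_eq_mul]
    ring
  anti x y z u := by
    rw [Bt_skew x y]
    ring
  pair x y z u := by
    rw [real_inner_comm z y, real_inner_comm u x, real_inner_comm z x, real_inner_comm u y,
      Bt_skew y z, Bt_skew x u, Bt_skew x z, Bt_skew y u]
    ring
  bianchi x y z u := by
    rw [real_inner_comm x z, real_inner_comm x y, real_inner_comm y z, Bt_skew x z, Bt_skew x y,
      Bt_skew y z]
    ring

lemma inner_e (j k : Fin n) : ⟪(e j : E n), e k⟫ = dl j k := by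
  simp [e, EuclideanSpace.inner_single_left, dl]

lemma Rt_comp (κ : ℝ) (i j k l : Fin n) : (Rt n κ).comp i j k l
    = (dl j k * dl i l - dl i k * dl j l)
      + κ / 3 * (tm n j k * tm n i l - tm n i k * tm n j l - 2 * (tm n i j * tm n k l)) := by
  unfold CurvTensor.comp Rt
  simp only [inner_e, Bt_e]

lemma Rt_sec (κ : ℝ) (x y : E n) (hx : ‖x‖ = 1) (hy : ‖y‖ = 1) (hxy : ⟪x, y⟫ = 0) :
    (Rt n κ).toFun x y y x = 1 + κ * Bt n x y ^ 2 := by
  unfold Rt
  simp only
  rw [real_inner_self_eq_norm_sq, real_inner_self_eq_norm_sq, hx, hy, hxy, Bt_skew x y,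
    Bt_self]
  ring

lemma sum_dl' (j : Fin n) (f : Fin n → ℝ) : ∑ k, dl k j * f k = f j := by
  simp [dl]

lemma ric_Rt (hn : Odd n) (κ : ℝ) (j k : Fin n) :
    ricA (Rt n κ).comp j k = ((n : ℝ) - 1) * dl j k + κ * (dl j k * cf n j) := by
  unfold ricA
  simp_rw [Rt_comp]
  have h1 : ∀ i : Fin n, (dl j k * dl i i - dl i k * dl j i)
      + κ / 3 * (tm n j k * tm n i i - tm n i k * tm n j i - 2 * (tm n i j * tm n k i))
      = (dl j k * 1 - dl i k * dl j i) + κ * (tm n j i * tm n k i) := by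
    intro i
    have e1 : dl i i = (1 : ℝ) := by simp [dl]
    have e2 : tm n i i = 0 := by
      have := tm_skew i i
      linarith
    rw [e1, e2, tm_skew k i, tm_skew j i]
    ring
  simp_rw [h1]
  rw [Finset.sum_add_distrib, Finset.sum_sub_distrib, ← Finset.mul_sum, ← Finset.mul_sum,
    tm_gram hn, sum_dl' k (fun i => dl j i)]
  simp
  ring

lemma ip_wt (hn : Odd n) : ∑ j, ∑ k, dl j k * MB (wt n) (e j) (e k) = (n : ℝ) - 1 := by
  have hn1 : 1 ≤ n := hn.pos
  rw [← sum_cf hn1]
  refine Finset.sum_congr rfl fun j _ => ?_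
  rw [CurvTensor.sum_dl j (fun k => MB (wt n) (e j) (e k)), MB_wt hn]
  simp [dl]

lemma rA_Rt (hn : Odd n) (κ : ℝ) :
    rA (Rt n κ).comp (wt n) = ((n : ℝ) - 1) * (n - 1) + κ * (n - 1) := by
  unfold rA
  have hn1 : 1 ≤ n := hn.pos
  have h1 : ∀ j : Fin n, ∑ k, ricA (Rt n κ).comp j k * MB (wt n) (e j) (e k)
      = ((n : ℝ) - 1) * cf n j + κ * cf n j := by
    intro j
    have h2 : ∀ k : Fin n, ricA (Rt n κ).comp j k * MB (wt n) (e j) (e k)
        = dl j k * ((((n : ℝ) - 1) * dl j k + κ * (dl j k * cf n j)) * (cf n j)) := by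
      intro k
      rw [ric_Rt hn, MB_wt hn]
      ring
    simp_rw [h2]
    rw [CurvTensor.sum_dl j (fun k => (((n : ℝ) - 1) * dl j k + κ * (dl j k * cf n j)) * cf n j)]
    have e1 : dl j j = (1 : ℝ) := by simp [dl]
    rw [e1]
    have := cf_sq j
    linear_combination κ * this
  simp_rw [h1]
  rw [Finset.sum_add_distrib, ← Finset.mul_sum, ← Finset.mul_sum, sum_cf hn1]

lemma sum3 (f g : Fin n → Fin n → Fin n → ℝ) :
    ∑ i : Fin n, ∑ j : Fin n, ∑ k : Fin n, ∑ l : Fin n, f i j k * g i j l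
      = ∑ i : Fin n, ∑ j : Fin n, (∑ k, f i j k) * (∑ l, g i j l) := by
  refine Finset.sum_congr rfl fun i _ => Finset.sum_congr rfl fun j _ => ?_
  rw [Finset.sum_mul_sum]

lemma tm_gram' (hn : Odd n) (j k : Fin n) : ∑ i, tm n j i * tm n i k = - (dl j k * cf n j) := by
  rw [← tm_gram hn, ← Finset.sum_neg_distrib]
  refine Finset.sum_congr rfl fun i _ => ?_
  rw [tm_skew k i]
  ring

lemma dd_cf (hn : 1 ≤ n) : ∑ i : Fin n, ∑ j : Fin n, dl j i * cf n j * -(dl i j * cf n i)
    = -((n : ℝ) - 1) := by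
  rw [← sum_cf hn, ← Finset.sum_neg_distrib]
  refine Finset.sum_congr rfl fun i _ => ?_
  rw [Finset.sum_eq_single i]
  · have e1 : dl i i = (1 : ℝ) := by simp [dl]
    rw [e1]
    have := cf_sq i
    linear_combination -this
  · intro b _ hb
    have e1 : dl b i = (0 : ℝ) := by simp [dl, hb]
    rw [e1]
    ring
  · simp

lemma QA_Rt (hn : Odd n) (κ : ℝ) :
    QA (Rt n κ).comp (wt n) = ((n : ℝ) - 1) + κ / 3 * (n * (n - 1)) := by
  unfold QA
  have hn1 : 1 ≤ n := hn.pos
  simp_rw [Rt_comp, Gm_wt]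
  have e0 : ∀ i : Fin n, tm n i i = 0 := by
    intro i
    have := tm_skew i i
    linarith
  -- the five sums
  have s1 : ∑ i : Fin n, ∑ j : Fin n, ∑ k : Fin n, ∑ l : Fin n,
      dl j k * (dl i l * (tm n l j * tm n i k)) = (n : ℝ) - 1 := by
    rw [← sum_cf hn1]
    refine Finset.sum_congr rfl fun i _ => ?_
    have h1 : ∀ j : Fin n, ∑ k : Fin n, ∑ l : Fin n, dl j k * (dl i l * (tm n l j * tm n i k))
        = tm n i j * tm n i j := by
      intro j
      have h2 : ∀ k : Fin n, ∑ l : Fin n, dl j k * (dl i l * (tm n l j * tm n i k))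
          = dl j k * (tm n i j * tm n i k) := by
        intro k
        rw [← Finset.mul_sum, CurvTensor.sum_dl i (fun l => tm n l j * tm n i k)]
      simp_rw [h2]
      rw [CurvTensor.sum_dl j (fun k => tm n i j * tm n i k)]
    simp_rw [h1]
    rw [tm_gram hn]
    simp [dl]
  have s2 : ∑ i : Fin n, ∑ j : Fin n, ∑ k : Fin n, ∑ l : Fin n,
      dl i k * (dl j l * (tm n l j * tm n i k)) = 0 := by
    refine Finset.sum_eq_zero fun i _ => Finset.sum_eq_zero fun j _ => ?_
    have h2 : ∀ k : Fin n, ∑ l : Fin n, dl i k * (dl j l * (tm n l j * tm n i k))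
        = dl i k * (tm n j j * tm n i k) := by
      intro k
      rw [← Finset.mul_sum, CurvTensor.sum_dl j (fun l => tm n l j * tm n i k)]
    simp_rw [h2, e0]
    simp
  have s3 : ∑ i : Fin n, ∑ j : Fin n, ∑ k : Fin n, ∑ l : Fin n,
      (tm n j k * tm n i k) * (tm n i l * tm n l j) = -((n : ℝ) - 1) := by
    rw [sum3 (fun i j k => tm n j k * tm n i k) (fun i j l => tm n i l * tm n l j)]
    simp_rw [tm_gram hn, tm_gram' hn]
    exact dd_cf hn1
  have s4 : ∑ i : Fin n, ∑ j : Fin n, ∑ k : Fin n, ∑ l : Fin n,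
      (tm n i k * tm n i k) * (tm n j l * tm n l j) = -(((n : ℝ) - 1) * (n - 1)) := by
    rw [sum3 (fun i j k => tm n i k * tm n i k) (fun i j l => tm n j l * tm n l j)]
    simp_rw [tm_gram hn, tm_gram' hn]
    have e1 : ∀ i : Fin n, dl i i = (1 : ℝ) := by
      intro i
      simp [dl]
    simp_rw [e1, one_mul]
    rw [← Finset.sum_mul_sum, Finset.sum_neg_distrib, sum_cf hn1]
    ring
  have s5 : ∑ i : Fin n, ∑ j : Fin n, ∑ k : Fin n, ∑ l : Fin n,
      (tm n j i * tm n k i) * (tm n k l * tm n l j) = -((n : ℝ) - 1) := by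
    rw [rot3 (fun i j k l => (tm n j i * tm n k i) * (tm n k l * tm n l j))]
    rw [sum3 (fun i j k => tm n i k * tm n j k) (fun i j l => tm n j l * tm n l i)]
    simp_rw [tm_gram hn, tm_gram' hn]
    rw [Finset.sum_comm]
    exact dd_cf hn1
  have hsplit : ∀ i j k l : Fin n, ((dl j k * dl i l - dl i k * dl j l)
      + κ / 3 * (tm n j k * tm n i l - tm n i k * tm n j l - 2 * (tm n i j * tm n k l)))
        * (tm n l j * tm n i k)
      = dl j k * (dl i l * (tm n l j * tm n i k)) - dl i k * (dl j l * (tm n l j * tm n i k))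
        + κ / 3 * ((tm n j k * tm n i k) * (tm n i l * tm n l j))
        - κ / 3 * ((tm n i k * tm n i k) * (tm n j l * tm n l j))
        - κ / 3 * 2 * ((tm n j i * tm n k i) * (tm n k l * tm n l j)) := by
    intro i j k l
    rw [tm_skew i j, tm_skew i k]
    ring
  simp_rw [hsplit, Finset.sum_sub_distrib, Finset.sum_add_distrib, Finset.sum_sub_distrib,
    ← Finset.mul_sum]
  simp_rw [← Finset.mul_sum] at s1 s2 s3 s4 s5
  rw [s1, s2, s3, s4, s5]
  ring

lemma scal_Rt (hn : Odd n) (κ : ℝ) : (Rt n κ).scal = ((n : ℝ) - 1) * (n + κ) := by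
  rw [CurvTensor.scal_eq]
  unfold scalA
  have hn1 : 1 ≤ n := hn.pos
  have h1 : ∀ j : Fin n, ricA (Rt n κ).comp j j = ((n : ℝ) - 1) + κ * cf n j := by
    intro j
    rw [ric_Rt hn]
    have e1 : dl j j = (1 : ℝ) := by simp [dl]
    rw [e1]
    ring
  simp_rw [h1]
  rw [Finset.sum_add_distrib, ← Finset.mul_sum, sum_cf hn1]
  simp
  ring

lemma wt_ne (hn : Odd n) (h5 : 5 ≤ n) : wt n ≠ 0 := by
  intro h
  have h1 := ip_wt hn
  rw [h] at h1
  have h2 : ∑ j : Fin n, ∑ k, dl j k * MB (0 : Form n 2) (e j) (e k) = 0 := by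
    refine Finset.sum_eq_zero fun j _ => Finset.sum_eq_zero fun k _ => ?_
    have : MB (0 : Form n 2) (e j) (e k) = 0 := by
      rw [MB_apply]
      have h3 : (0 : Form n 2).curryLeft (e j) = 0 := by
        ext v
        rfl
      rw [h3]
      simp [ip]
    rw [this, mul_zero]
  rw [h2] at h1
  have : ((5 : ℕ) : ℝ) ≤ n := by exact_mod_cast h5
  push_cast at this
  linarith

/-- **Sharpness in odd dimensions**: the constant `(n-3)/((n-1)(n^2-6))` cannot be lowered, and
at the constant itself the Weitzenböck form can vanish. -/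
theorem sharp (n : ℕ) (hn : Odd n) (h5 : 5 ≤ n) :
    ∃ (R : CurvTensor n) (ω : Form n 2), 0 < R.scal ∧ ω ≠ 0 ∧
      (∀ x y : E n, ‖x‖ = 1 → ‖y‖ = 1 → ⟪x, y⟫ = 0 →
        ((n : ℝ) - 3) / ((n - 1) * (n ^ 2 - 6)) * R.scal ≤ R.toFun x y y x) ∧
      R.weitzForm ω = 0 := by
  have hn5 : ((5 : ℕ) : ℝ) ≤ n := by exact_mod_cast h5
  push_cast at hn5
  have h3 : (0 : ℝ) < (n : ℝ) - 3 := by linarith
  have h1 : (0 : ℝ) < (n : ℝ) - 1 := by linarith
  have h6 : (0 : ℝ) < (n : ℝ) ^ 2 - 6 := by nlinarith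
  set κ : ℝ := 3 * ((n : ℝ) - 2) / (n - 3) with hκ
  have hκ0 : 0 < κ := by
    rw [hκ]
    apply div_pos _ h3
    linarith
  refine ⟨Rt n κ, wt n, ?_, wt_ne hn h5, ?_, ?_⟩
  · rw [scal_Rt hn]
    positivity
  · intro x y hx hy hxy
    rw [Rt_sec κ x y hx hy hxy, scal_Rt hn]
    have e1 : ((n : ℝ) - 3) / ((n - 1) * (n ^ 2 - 6)) * (((n : ℝ) - 1) * (n + κ)) = 1 := by
      rw [hκ]
      field_simp
      ring
    rw [e1]
    nlinarith [sq_nonneg (Bt n x y)]
  · rw [CurvTensor.weitzForm_comp (q := 0), rA_Rt hn, QA_Rt hn, hκ]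
    push_cast
    field_simp
    ring

end Pool.Agent.H8.RG
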